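import Pool.Agent.Q195.CR.Struct2

/-! The structure of the transform of the sums `∑ c(n) λ(n)` near the imaginary axis. -/

set_option autoImplicit false

open MeasureTheory Filter Topology Set Complex
open scoped ENNReal

namespace Pool.Agent.Q195.CR

open Pool.Agent.TH270.MS

variable {G₀ : ℂ → ℂ} {η a C B : ℝ} {κ : ℕ}

theorem Gd.zeros' (H : Gd G₀ η a C B κ) : ∃ A : ℝ, 0 ≤ A ∧ ∀ t : ℝ, ∃ (n : ℕ) (ρ : Fin n → ℂ),
    (n : ℝ) ≤ A * el t ∧ (∀ i, G₀ (ρ i) = 0 ∧ (ρ i).re ≤ 0 ∧ |(ρ i).im - t| ≤ a + 1) ∧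
    ∀ s : ℂ, 0 < s.re → s.re < 1 → |s.im - t| ≤ η / 5 →
      ‖deriv G₀ s / G₀ s - ∑ i, (s - ρ i)⁻¹‖ ≤ A * el t := by
  have hη := H.hη
  have hη1 := H.hη1
  have ha := H.ha
  have hB := H.hB
  have hC0 : 0 ≤ C := by
    have := (norm_nonneg _).trans (H.hgrow 0 (by simpa using hη))
    simpa using this
  set r : ℝ := a + η / 5 with hr
  set R' : ℝ := a + 2 * η / 5 with hR'
  set R : ℝ := a + 3 * η / 5 with hR
  set R₁ : ℝ := a + 4 * η / 5 with hR₁
  have hr0 : 0 < r := by rw [hr]; linarith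
  have h1 : r < R' := by rw [hr, hR']; linarith
  have h2 : R' < R := by rw [hR, hR']; linarith
  have h3 : R < R₁ := by rw [hR, hR₁]; linarith
  have hR'0 : 0 < R' := by linarith
  have hR0 : 0 < R := by linarith
  set A₀ : ℝ := Real.log (C + 1) + κ * (Real.log (2 * a + 2) + 1) with hA₀
  have hlC : 0 ≤ Real.log (C + 1) := Real.log_nonneg (by linarith)
  have hla : 0 ≤ Real.log (2 * a + 2) := Real.log_nonneg (by linarith)
  have hA₀0 : 0 ≤ A₀ := by positivity
  have hq : 0 < Real.log (R / R') := Real.log_pos ((one_lt_div hR'0).2 h2)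
  have hD : 0 < R ^ 2 - R' * r := by nlinarith
  have hc := c1_nonneg hr0 h1
  set A₁ : ℝ := (A₀ + B) / Real.log (R / R') with hA₁
  have hA₁0 : 0 ≤ A₁ := by positivity
  refine ⟨A₁ + A₁ * (R' / (R ^ 2 - R' * r)) + c1 r R' * (A₀ + B + 1), by positivity, fun t => ?_⟩
  have hel := el_one t
  have hlt : 0 ≤ Real.log (1 + |t|) := Real.log_nonneg (by linarith [abs_nonneg t])
  set z₀ : ℂ := a + t * I with hz₀
  set M : ℝ := (C + 1) * ((2 * a + 2) * (1 + |t|)) ^ κ with hM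
  have hbase : 0 < (2 * a + 2) * (1 + |t|) := by
    have := abs_nonneg t
    positivity
  have hlogM : Real.log M ≤ A₀ * el t := by
    rw [hM, Real.log_mul (by positivity) (by positivity), Real.log_pow,
      Real.log_mul (by positivity) (by positivity), hA₀]
    have hk0 : (0 : ℝ) ≤ κ := Nat.cast_nonneg κ
    unfold el
    nlinarith [mul_nonneg hk0 hla, mul_nonneg hlC hlt, mul_nonneg (mul_nonneg hk0 hla) hlt,
      mul_nonneg hk0 hlt]
  have hre : ∀ z : ℂ, ‖z‖ < a + η → -η < (z₀ + z).re := by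
    intro z hz
    have e1 := (abs_le.1 (Complex.abs_re_le_norm z)).1
    rw [hz₀]
    simp
    linarith
  obtain ⟨n, ρ, k1, k2, k3⟩ := disc_deriv (f := fun z => G₀ (z₀ + z)) (M := M) (m := B * el t)
    hr0 h1 h2 h3 (by
      intro z hz
      rw [mem_ball_zero_iff] at hz
      have e1 : DifferentiableAt ℂ G₀ (z₀ + z) := H.hG _ (hre z (by rw [hR₁] at hz; linarith))
      exact (DifferentiableAt.comp (f := fun z : ℂ => z₀ + z) z e1
        (by fun_prop)).differentiableWithinAt) (by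
      intro z hz
      refine (H.hgrow _ (hre z (by rw [hR] at hz; linarith))).trans ?_
      have e1 : ‖z₀ + z‖ ≤ a + |t| + R := by
        refine (norm_add_le _ _).trans (add_le_add ?_ hz)
        rw [hz₀]
        refine (norm_add_le _ _).trans ?_
        rw [norm_mul, norm_I, mul_one, Complex.norm_real, Complex.norm_real, Real.norm_eq_abs,
          Real.norm_eq_abs, abs_of_nonneg (by linarith : 0 ≤ a)]
      have e2 : 1 + ‖z₀ + z‖ ≤ (2 * a + 2) * (1 + |t|) := by
        have := abs_nonneg t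
        rw [hR] at e1
        nlinarith
      rw [hM]
      exact mul_le_mul (by linarith) (pow_le_pow_left₀ (by positivity) e2 κ) (by positivity)
        (by linarith)) (by
      simp only [add_zero]
      rw [hz₀]
      exact H.hlow t)
  have hn : (n : ℝ) ≤ A₁ * el t := by
    rw [hA₁, div_mul_eq_mul_div, le_div_iff₀ hq]
    nlinarith
  refine ⟨n, fun i => z₀ + ρ i, ?_, fun i => ?_, fun s hs0 hs1 hst => ?_⟩
  · refine hn.trans (mul_le_mul_of_nonneg_right ?_ (by linarith))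
    have e1 : 0 ≤ A₁ * (R' / (R ^ 2 - R' * r)) := by positivity
    have e2 : 0 ≤ c1 r R' * (A₀ + B + 1) := by positivity
    linarith
  · obtain ⟨e1, e2⟩ := k2 i
    have e3 := abs_le.1 (Complex.abs_re_le_norm (ρ i))
    have e4 := Complex.abs_im_le_norm (ρ i)
    refine ⟨e2, ?_, ?_⟩
    · by_contra hcon
      exact H.hne _ (not_le.1 hcon) e2
    · rw [hz₀]
      simp
      rw [hR'] at e1
      linarith
  · have e1 : ‖s - z₀‖ ≤ r := by
      have e2 : ‖s - z₀‖ ≤ |(s - z₀).re| + |(s - z₀).im| := Complex.norm_le_abs_re_add_abs_im _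
      rw [hz₀] at e2 ⊢
      simp at e2
      have e3 : |s.re - a| ≤ a := by
        rw [abs_le]
        constructor <;> linarith
      rw [hr]
      linarith
    have e4 := k3 (s - z₀) e1 (by
      simp only [add_sub_cancel]
      exact H.hne s hs0)
    have e5 : deriv (fun z => G₀ (z₀ + z)) (s - z₀) = deriv G₀ s := by
      rw [deriv_comp_const_add, add_sub_cancel]
    simp only [add_sub_cancel] at e4
    rw [e5] at e4
    have e6 : ∑ i, (s - (z₀ + ρ i))⁻¹ = ∑ i, (s - z₀ - ρ i)⁻¹ :=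
      Finset.sum_congr rfl fun i _ => by rw [sub_sub]
    rw [e6]
    refine e4.trans ?_
    have e7 : (n : ℝ) * (R' / (R ^ 2 - R' * r)) ≤ A₁ * el t * (R' / (R ^ 2 - R' * r)) :=
      mul_le_mul_of_nonneg_right hn (by positivity)
    have e8 : c1 r R' * (Real.log M + B * el t + 1) ≤ c1 r R' * ((A₀ + B + 1) * el t) := by
      refine mul_le_mul_of_nonneg_left ?_ hc
      nlinarith
    have e9 : 0 ≤ A₁ * el t := by positivity
    nlinarith


/-- the Laplace transform -/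
noncomputable def KM (G₀ : ℂ → ℂ) (k : ℕ) (r : ℝ) (q : ℂ) (s : ℂ) : ℂ :=
  (deriv G₀ s / G₀ s - k / s) / s - r / s ^ 2 - q / s

/-- the transform near `0` -/
lemma km_near {g : ℂ → ℂ} {p : ℕ} (hg : AnalyticAt ℂ g 0) (hg0 : g 0 ≠ 0)
    (near : ∀ᶠ s in 𝓝 (0 : ℂ), G₀ s = s ^ p * g s) :
    ∃ (q : ℂ) (ρ₀ B₀ : ℝ), q = deriv g 0 / g 0 ∧ 0 < ρ₀ ∧ 0 ≤ B₀ ∧
      (∀ s : ℂ, ‖s‖ < ρ₀ → G₀ s = 0 → s = 0) ∧
      ∀ (k : ℕ) (s : ℂ), ‖s‖ < ρ₀ → s ≠ 0 →
        ‖(deriv G₀ s / G₀ s - k / s) / s - ((p : ℂ) - k) / s ^ 2 - q / s‖ ≤ B₀ := by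
  have hq : AnalyticAt ℂ (fun s => deriv g s / g s) 0 := hg.deriv.div hg hg0
  have hqd : DifferentiableAt ℂ (fun s => deriv g s / g s) 0 := hq.differentiableAt
  set q : ℂ := deriv g 0 / g 0 with hqq
  -- the difference quotient is bounded
  have h1 : (fun s => deriv g s / g s - q) =O[𝓝 0] fun s : ℂ => s := by
    have := hqd.isBigO_sub
    simpa using this
  obtain ⟨B, hB⟩ := h1.bound
  have h2 : ∀ᶠ s in 𝓝 (0 : ℂ), g s ≠ 0 := hg.continuousAt.eventually_ne hg0
  have h3 : ∀ᶠ s in 𝓝 (0 : ℂ), DifferentiableAt ℂ g s :=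
    hg.eventually_analyticAt.mono fun s hs => hs.differentiableAt
  have h4 := near.eventually_nhds
  obtain ⟨ρ₀, hρ₀, h5⟩ := Metric.eventually_nhds_iff.1 (hB.and (h2.and (h3.and (near.and h4))))
  refine ⟨q, ρ₀, |B|, rfl, hρ₀, abs_nonneg _, fun s hs h0 => ?_, fun k s hs hs0 => ?_⟩
  · obtain ⟨-, e2, -, e4, -⟩ := h5 (by simpa using hs : dist s 0 < ρ₀)
    rw [e4] at h0
    rcases mul_eq_zero.1 h0 with h | h
    · exact eq_zero_of_pow_eq_zero h
    · exact absurd h e2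
  · obtain ⟨e1, e2, e3, e4, e5⟩ := h5 (by simpa using hs : dist s 0 < ρ₀)
    have h6 : deriv G₀ s = p * s ^ (p - 1) * g s + s ^ p * deriv g s := by
      have h7 : G₀ =ᶠ[𝓝 s] fun s => s ^ p * g s := e5
      rw [h7.deriv_eq]
      have h8 : HasDerivAt (fun s : ℂ => s ^ p * g s)
          ((p : ℂ) * s ^ (p - 1) * g s + s ^ p * deriv g s) s :=
        (hasDerivAt_pow p s).mul e3.hasDerivAt
      exact h8.deriv
    have h9 : deriv G₀ s / G₀ s = p / s + deriv g s / g s := by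
      rw [h6, e4]
      rcases Nat.eq_zero_or_pos p with hp | hp
      · subst hp
        simp
      · obtain ⟨j, rfl⟩ : ∃ j, p = j + 1 := ⟨p - 1, by omega⟩
        rw [Nat.add_sub_cancel, pow_succ]
        field_simp
    have h10 : (deriv G₀ s / G₀ s - k / s) / s - ((p : ℂ) - k) / s ^ 2 - q / s =
        (deriv g s / g s - q) / s := by
      rw [h9]
      field_simp
      ring
    rw [h10, norm_div, div_le_iff₀ (norm_pos_iff.2 hs0)]
    exact e1.trans (mul_le_mul_of_nonneg_right (le_abs_self B) (norm_nonneg _))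

/-- **The structure of the transform near the imaginary axis.** -/
theorem Gd.struct' (H : Gd G₀ η a C B κ) (k : ℕ) {g : ℂ → ℂ} {p : ℕ} (hg : AnalyticAt ℂ g 0)
    (hg0 : g 0 ≠ 0) (near : ∀ᶠ s in 𝓝 (0 : ℂ), G₀ s = s ^ p * g s) {r : ℝ} {q : ℂ}
    (hr : r = p - k) (hq : q = deriv g 0 / g 0) :
    ∃ A' : ℝ, 0 ≤ A' ∧ ∀ δ : ℝ, 0 < δ → δ < 1 → ∀ t : ℝ, ∃ (n : ℕ) (c z : Fin n → ℂ),
      (∀ i, (z i).re ≤ 0) ∧ ∑ i, ‖c i‖ ≤ A' * el t / (1 + |t|) ∧ ∀ y ∈ Icc (0 : ℝ) 1,
      ‖KM G₀ k r q (δ + t * I - I * ((η / 5 : ℝ) * y)) -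
        ∑ i, c i * (δ + t * I - I * ((η / 5 : ℝ) * y) - z i)⁻¹‖ ≤ A' * el t / (1 + |t|) := by
  have hη := H.hη
  have hη1 := H.hη1
  have ha := H.ha
  obtain ⟨A, hA, hz⟩ := H.zeros'
  obtain ⟨q', ρ₀, B₀, hq', hρ₀, hB₀, hz0, hn0⟩ := km_near hg hg0 near
  rw [← hq] at hq'
  rw [hq'] at hn0
  set ρ' : ℝ := min ρ₀ 1 with hρ'
  have hρ'0 : 0 < ρ' := lt_min hρ₀ one_pos
  have hρ'1 : ρ' ≤ 1 := min_le_right _ _
  have hρ'2 : ρ' ≤ ρ₀ := min_le_left _ _
  set D : ℝ := (4 * a + 6) / ρ' with hD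
  set E : ℝ := 6 / ρ' with hE
  have hD0 : 0 < D := by rw [hD]; positivity
  have hE0 : 0 < E := by rw [hE]; positivity
  have hp0 : (0 : ℝ) ≤ p := Nat.cast_nonneg p
  have hk0 : (0 : ℝ) ≤ k := Nat.cast_nonneg k
  refine ⟨A * D + A * (D + E) * E + A * E + p * E ^ 2 + ‖q‖ * E + A * D * (2 / ρ') + 3 * B₀,
    by positivity, fun δ hδ hδ1 t => ?_⟩
  obtain ⟨n, ρ, h1, h2, h3⟩ := hz t
  have hel := el_one t
  have ht0 := abs_nonneg t
  have ht1 : 0 < 1 + |t| := by linarith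
  have hρ1 : ∀ i, ρ i ≠ 0 → ρ' ≤ ‖ρ i‖ := by
    intro i hi
    by_contra hcon
    exact hi (hz0 _ (by linarith [not_le.1 hcon]) (h2 i).1)
  have hinv : ∀ i, ρ i ≠ 0 → ‖(ρ i)⁻¹‖ ≤ D / (1 + |t|) := by
    intro i hi
    have e0 : (1 + |t|) / D ≤ ‖ρ i‖ := by
      rw [hD, div_div_eq_mul_div, div_le_iff₀ (by linarith)]
      rcases le_or_gt (2 * (a + 1)) |t| with h | h
      · have e4 : |t| / 2 ≤ ‖ρ i‖ := by
          have e5 := Complex.abs_im_le_norm (ρ i)
          have e6 := abs_sub_abs_le_abs_sub t (ρ i).im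
          rw [abs_sub_comm t] at e6
          linarith [(h2 i).2.2]
        nlinarith
      · have e4 := hρ1 i hi
        nlinarith
    rw [norm_inv]
    have h5 := inv_anti₀ (by positivity : 0 < (1 + |t|) / D) e0
    rwa [inv_div] at h5
  set cc : Fin n → ℂ := fun i => if ρ i = 0 then 0 else (ρ i)⁻¹ with hcc
  have hccn : ∀ i, ‖cc i‖ ≤ D / (1 + |t|) := by
    intro i
    rw [hcc]
    simp only
    split_ifs with h
    · rw [norm_zero]
      positivity
    · exact hinv i h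
  have hsum : ∑ i, ‖cc i‖ ≤ A * D * el t / (1 + |t|) := by
    refine (Finset.sum_le_sum fun i _ => hccn i).trans ?_
    rw [Finset.sum_const, Finset.card_univ, Fintype.card_fin, nsmul_eq_mul]
    calc (n : ℝ) * (D / (1 + |t|)) ≤ (A * el t) * (D / (1 + |t|)) :=
          mul_le_mul_of_nonneg_right h1 (by positivity)
      _ = _ := by ring
  have hsplit : (A * D + A * (D + E) * E + A * E + p * E ^ 2 + ‖q‖ * E + A * D * (2 / ρ') +
      3 * B₀) * el t / (1 + |t|) = A * D * el t / (1 + |t|) +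
        (A * (D + E) * E * el t / (1 + |t|) + A * E * el t / (1 + |t|) +
          p * E ^ 2 * el t / (1 + |t|) + ‖q‖ * E * el t / (1 + |t|)) +
        (A * D * (2 / ρ') * el t / (1 + |t|) + 3 * B₀ * el t / (1 + |t|)) := by ring
  have p1 : 0 ≤ A * D * el t / (1 + |t|) := by positivity
  have p2 : 0 ≤ A * (D + E) * E * el t / (1 + |t|) + A * E * el t / (1 + |t|) +
          p * E ^ 2 * el t / (1 + |t|) + ‖q‖ * E * el t / (1 + |t|) := by positivity
  have p3 : 0 ≤ A * D * (2 / ρ') * el t / (1 + |t|) + 3 * B₀ * el t / (1 + |t|) := by positivity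
  rw [hsplit]
  refine ⟨n, cc, ρ, fun i => (h2 i).2.1, by linarith, fun y hy => ?_⟩
  set s : ℂ := δ + t * I - I * ((η / 5 : ℝ) * y) with hs
  have hsre : s.re = δ := by
    rw [hs]
    simp
  have hsim : s.im = t - η / 5 * y := by
    rw [hs]
    simp
  have hs0 : s ≠ 0 := by
    intro h0
    rw [h0, Complex.zero_re] at hsre
    linarith
  have hst : |s.im - t| ≤ η / 5 := by
    rw [hsim, sub_sub_cancel_left, abs_neg, abs_of_nonneg (by
      have := hy.1
      positivity)]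
    nlinarith [hy.1, hy.2]
  have hsρ : ∀ i, s - ρ i ≠ 0 := by
    intro i h0
    have := congrArg Complex.re h0
    rw [Complex.sub_re, hsre, Complex.zero_re] at this
    linarith [(h2 i).2.1]
  rcases lt_or_ge ‖s‖ (ρ' / 2) with hsn | hsn
  · -- near `0`
    have e1 := hn0 k s (by linarith) hs0
    have e2 : ‖KM G₀ k r q s‖ ≤ B₀ := by
      unfold KM
      rw [hr]
      push_cast
      exact e1
    have e3 : ‖∑ i, cc i * (s - ρ i)⁻¹‖ ≤ A * D * (2 / ρ') * el t / (1 + |t|) := by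
      refine (norm_sum_le _ _).trans ?_
      have e4 : ∀ i ∈ Finset.univ, ‖cc i * (s - ρ i)⁻¹‖ ≤ ‖cc i‖ * (2 / ρ') := by
        intro i _
        rw [norm_mul]
        by_cases hi : ρ i = 0
        · have : cc i = 0 := by
            rw [hcc]
            simp only
            rw [if_pos hi]
          rw [this, norm_zero, zero_mul, zero_mul]
        · refine mul_le_mul_of_nonneg_left ?_ (norm_nonneg _)
          have e5 : ρ' / 2 ≤ ‖s - ρ i‖ := by
            have := norm_sub_norm_le (ρ i) s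
            rw [norm_sub_rev (ρ i) s] at this
            linarith [hρ1 i hi]
          rw [norm_inv]
          have e6 := inv_anti₀ (half_pos hρ'0) e5
          rwa [inv_div] at e6
      refine (Finset.sum_le_sum e4).trans ?_
      rw [← Finset.sum_mul]
      calc _ ≤ A * D * el t / (1 + |t|) * (2 / ρ') :=
            mul_le_mul_of_nonneg_right hsum (by positivity)
        _ = _ := by ring
    have e7 : B₀ ≤ 3 * B₀ * el t / (1 + |t|) := by
      have e8 : |t| ≤ 2 := by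
        have := abs_sub_abs_le_abs_sub t s.im
        rw [abs_sub_comm t] at this
        have h9 := Complex.abs_im_le_norm s
        linarith
      rw [le_div_iff₀ ht1]
      nlinarith [mul_nonneg hB₀ (by linarith : (0 : ℝ) ≤ el t - 1)]
    refine (norm_sub_le _ _).trans ?_
    linarith
  · -- away from `0`
    have hi1 : ‖s⁻¹‖ ≤ E / (1 + |t|) := by
      have e0 : (1 + |t|) / E ≤ ‖s‖ := by
        rw [hE, div_div_eq_mul_div, div_le_iff₀ (by norm_num)]
        rcases le_or_gt 2 |t| with h | h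
        · have e1 := abs_sub_abs_le_abs_sub t s.im
          rw [abs_sub_comm t] at e1
          have e2 := Complex.abs_im_le_norm s
          nlinarith
        · nlinarith
      rw [norm_inv]
      have h5 := inv_anti₀ (by positivity : 0 < (1 + |t|) / E) e0
      rwa [inv_div] at h5
    have hi2 : ‖s⁻¹‖ ≤ E := by
      refine hi1.trans ?_
      rw [div_le_iff₀ ht1]
      nlinarith
    set e : ℂ := deriv G₀ s / G₀ s - ∑ i, (s - ρ i)⁻¹ with he
    have hen : ‖e‖ ≤ A * el t := h3 s (by rw [hsre]; exact hδ) (by rw [hsre]; exact hδ1) hst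
    set dd : Fin n → ℂ := fun i => if ρ i = 0 then s⁻¹ * s⁻¹ else -((ρ i)⁻¹ * s⁻¹) with hdd
    have hpf : ∀ i, (s - ρ i)⁻¹ * s⁻¹ = cc i * (s - ρ i)⁻¹ + dd i := by
      intro i
      rw [hcc, hdd]
      simp only
      have i1 := hsρ i
      split_ifs with h
      · rw [h, sub_zero]
        ring
      · field_simp
        ring
    have hddn : ∀ i, ‖dd i‖ ≤ (D + E) * E / (1 + |t|) := by
      intro i
      rw [hdd]
      simp only
      split_ifs with h
      · rw [norm_mul]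
        calc ‖s⁻¹‖ * ‖s⁻¹‖ ≤ (E / (1 + |t|)) * E :=
              mul_le_mul hi1 hi2 (norm_nonneg _) (by positivity)
          _ ≤ (D + E) * E / (1 + |t|) := by
            rw [div_mul_eq_mul_div]
            gcongr
            linarith
      · rw [norm_neg, norm_mul]
        calc ‖(ρ i)⁻¹‖ * ‖s⁻¹‖ ≤ (D / (1 + |t|)) * E :=
              mul_le_mul (hinv i h) hi2 (norm_nonneg _) (by positivity)
          _ ≤ (D + E) * E / (1 + |t|) := by
            rw [div_mul_eq_mul_div]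
            gcongr
            linarith
    have hK : KM G₀ k r q s - ∑ i, cc i * (s - ρ i)⁻¹ =
        (∑ i, dd i) + e * s⁻¹ - p * (s⁻¹ * s⁻¹) - q * s⁻¹ := by
      have i1 : deriv G₀ s / G₀ s = (∑ i, (s - ρ i)⁻¹) + e := by rw [he]; ring
      have i2 : (∑ i, (s - ρ i)⁻¹) * s⁻¹ = (∑ i, cc i * (s - ρ i)⁻¹) + ∑ i, dd i := by
        rw [Finset.sum_mul, ← Finset.sum_add_distrib]
        exact Finset.sum_congr rfl fun i _ => hpf i
      unfold KM
      rw [i1, hr]
      push_cast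
      calc ((∑ i, (s - ρ i)⁻¹) + e - k / s) / s - ((p : ℂ) - k) / s ^ 2 - q / s -
            ∑ i, cc i * (s - ρ i)⁻¹
          = (∑ i, (s - ρ i)⁻¹) * s⁻¹ - (∑ i, cc i * (s - ρ i)⁻¹) + e * s⁻¹ -
              p * (s⁻¹ * s⁻¹) - q * s⁻¹ := by
            field_simp
            ring
        _ = _ := by
          rw [i2]
          ring
    rw [hK]
    have f1 : ‖∑ i, dd i‖ ≤ A * (D + E) * E * el t / (1 + |t|) := by
      refine (norm_sum_le _ _).trans ((Finset.sum_le_sum fun i _ => hddn i).trans ?_)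
      rw [Finset.sum_const, Finset.card_univ, Fintype.card_fin, nsmul_eq_mul]
      calc (n : ℝ) * ((D + E) * E / (1 + |t|)) ≤ (A * el t) * ((D + E) * E / (1 + |t|)) :=
            mul_le_mul_of_nonneg_right h1 (by positivity)
        _ = _ := by ring
    have f2 : ‖e * s⁻¹‖ ≤ A * E * el t / (1 + |t|) := by
      rw [norm_mul]
      calc ‖e‖ * ‖s⁻¹‖ ≤ (A * el t) * (E / (1 + |t|)) :=
            mul_le_mul hen hi1 (norm_nonneg _) (by positivity)
        _ = _ := by ring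
    have f3 : ‖(p : ℂ) * (s⁻¹ * s⁻¹)‖ ≤ p * E ^ 2 * el t / (1 + |t|) := by
      rw [norm_mul, norm_mul, Complex.norm_natCast]
      calc (p : ℝ) * (‖s⁻¹‖ * ‖s⁻¹‖) ≤ p * (E / (1 + |t|) * E) := by
            refine mul_le_mul_of_nonneg_left ?_ hp0
            exact mul_le_mul hi1 hi2 (norm_nonneg _) (by positivity)
        _ = p * E ^ 2 * 1 / (1 + |t|) := by ring
        _ ≤ _ := by gcongr
    have f4 : ‖q * s⁻¹‖ ≤ ‖q‖ * E * el t / (1 + |t|) := by
      rw [norm_mul]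
      calc ‖q‖ * ‖s⁻¹‖ ≤ ‖q‖ * (E / (1 + |t|)) := mul_le_mul_of_nonneg_left hi1 (norm_nonneg _)
        _ = ‖q‖ * E * 1 / (1 + |t|) := by ring
        _ ≤ _ := by gcongr
    have g1 := norm_sub_le ((∑ i, dd i) + e * s⁻¹ - p * (s⁻¹ * s⁻¹)) (q * s⁻¹)
    have g2 := norm_sub_le ((∑ i, dd i) + e * s⁻¹) (p * (s⁻¹ * s⁻¹))
    have g3 := norm_add_le (∑ i, dd i) (e * s⁻¹)
    linarith

end Pool.Agent.Q195.CR
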