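import Pool.Agent.Q195.CR.Abel
import Pool.Agent.Q195.CR.Lap3

/-! The rate of the mean square. -/

set_option autoImplicit false

open MeasureTheory Filter Topology Set Complex
open scoped ENNReal
open Pool.Agent.TH942.LS (Dat P)
open Pool.Agent.TH942.SL

namespace Pool.Agent.Q195.CR

open Pool.Agent.TH270.MS

variable {lam c : ℕ → ℝ} {δ σ : ℝ}

lemma sq_int {l T : ℝ} (hl : 0 < l) (hlT : l ≤ T) :
    ∫ u in l..T, 1 / u ^ 2 = 1 / l - 1 / T := by
  have hd : ∀ u ∈ uIcc l T, HasDerivAt (fun u : ℝ => -(1 / u)) (1 / u ^ 2) u := by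
    intro u hu
    rw [uIcc_of_le hlT] at hu
    have hu0 : u ≠ 0 := by linarith [hu.1]
    have h1 := (hasDerivAt_inv hu0).neg
    simp only [one_div]
    refine h1.congr_deriv ?_
    ring
  have hc : ContinuousOn (fun u : ℝ => 1 / u ^ 2) (uIcc l T) := by
    rw [uIcc_of_le hlT]
    exact ContinuousOn.div continuousOn_const (by fun_prop) fun u hu => by
      have : 0 < u := by linarith [hu.1]
      positivity
  rw [intervalIntegral.integral_eq_sub_of_hasDerivAt hd hc.intervalIntegrable]
  ring

/-- partial summation -/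
theorem sh_abel1 (D : Dat lam c δ σ) {T : ℝ} (hT : 0 < T) :
    Sh lam c T = Sh lam (cm lam c) T / T + ∫ u in Ioc 0 T, Sh lam (cm lam c) u * (1 / u ^ 2) := by
  have hδ := D.δ0
  set F : ℕ → ℝ → ℝ := fun n u => cm lam c n * (if lam n ≤ u then 1 / u ^ 2 else 0) with hF
  have hval : ∀ n, ∫ u in Ioc 0 T, (if lam n ≤ u then 1 / u ^ 2 else 0) =
      if lam n ≤ T then 1 / lam n - 1 / T else 0 := by
    intro n
    have hl := D.lam0 n
    split_ifs with h
    · rw [← sq_int hl h, intervalIntegral.integral_of_le h]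
      have e1 : Ioc (0 : ℝ) T = Ioo 0 (lam n) ∪ Icc (lam n) T := by
        ext u
        simp only [Set.mem_Ioc, Set.mem_union, Set.mem_Ioo, Set.mem_Icc]
        constructor
        · rintro ⟨h1, h2⟩
          rcases lt_or_ge u (lam n) with h3 | h3
          · exact Or.inl ⟨h1, h3⟩
          · exact Or.inr ⟨h3, h2⟩
        · rintro (⟨h1, h2⟩ | ⟨h1, h2⟩)
          · exact ⟨h1, by linarith⟩
          · exact ⟨by linarith, h2⟩
      have e2 : ∫ u in Icc (lam n) T, 1 / u ^ 2 = ∫ u in Ioc (lam n) T, 1 / u ^ 2 :=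
        integral_Icc_eq_integral_Ioc
      have e3 : (fun u : ℝ => if lam n ≤ u then 1 / u ^ 2 else 0) =
          (Ici (lam n)).indicator fun u => 1 / u ^ 2 := by
        ext u
        simp only [Set.indicator_apply, Set.mem_Ici]
      rw [← e2, e3, setIntegral_indicator measurableSet_Ici]
      congr 1
      congr 1
      ext u
      simp only [Set.mem_inter_iff, Set.mem_Ioc, Set.mem_Ici, Set.mem_Icc]
      constructor
      · rintro ⟨⟨h1, h2⟩, h3⟩
        exact ⟨h3, h2⟩
      · rintro ⟨h1, h2⟩
        exact ⟨⟨by linarith, h2⟩, h1⟩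
    · rw [setIntegral_congr_fun (g := fun _ => (0 : ℝ)) measurableSet_Ioc]
      · simp
      · intro u hu
        simp only
        rw [if_neg]
        intro h1
        exact h (h1.trans hu.2)
  have hgi : ∀ n, IntegrableOn (fun u => if lam n ≤ u then 1 / u ^ 2 else 0) (Ioc 0 T) := by
    intro n
    have hl := D.lam0 n
    refine Measure.integrableOn_of_bounded (M := 1 / lam n ^ 2) (by simp) ?_ ?_
    · exact (Measurable.ite measurableSet_Ici (by fun_prop) measurable_const).aestronglyMeasurable
    · refine Eventually.of_forall fun u => ?_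
      split_ifs with h
      · rw [Real.norm_of_nonneg (by positivity)]
        exact one_div_le_one_div_of_le (by positivity) (pow_le_pow_left₀ hl.le h 2)
      · rw [norm_zero]
        positivity
  have hnn : ∀ n, ∀ u : ℝ, 0 ≤ (if lam n ≤ u then 1 / u ^ 2 else 0) := by
    intro n u
    split_ifs with h
    · positivity
    · exact le_rfl
  have hFi : ∀ n, Integrable (F n) (volume.restrict (Ioc 0 T)) := fun n => (hgi n).const_mul _
  have hFn : ∀ n, ∫ u in Ioc 0 T, ‖F n u‖ = |cm lam c n| *
      (if lam n ≤ T then 1 / lam n - 1 / T else 0) := by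
    intro n
    rw [← hval n, ← integral_const_mul]
    refine integral_congr_ae (Eventually.of_forall fun u => ?_)
    simp only [hF]
    rw [norm_mul, Real.norm_eq_abs, Real.norm_of_nonneg (hnn n u)]
  have hcE : ∀ n, |cm lam c n| * (1 / lam n) = |c n| := by
    intro n
    have hl := D.lam0 n
    unfold cm
    rw [abs_mul, abs_of_pos hl]
    field_simp
  have hFs : Summable fun n => ∫ u in Ioc 0 T, ‖F n u‖ := by
    simp only [hFn]
    refine Summable.of_nonneg_of_le (fun n => ?_) (fun n => ?_) (sh_summable D T).norm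
    · refine mul_nonneg (abs_nonneg _) ?_
      rw [← hval n]
      exact setIntegral_nonneg measurableSet_Ioc fun u _ => hnn n u
    · split_ifs with h
      · rw [Real.norm_eq_abs, ← hcE n]
        refine mul_le_mul_of_nonneg_left ?_ (abs_nonneg _)
        have : 0 < 1 / T := by positivity
        linarith
      · rw [mul_zero, norm_zero]
  have h1 := integral_tsum_of_summable_integral_norm hFi hFs
  have h2 : ∀ u : ℝ, ∑' n, F n u = Sh lam (cm lam c) u * (1 / u ^ 2) := by
    intro u
    have e1 : ∀ n, F n u = (if lam n ≤ u then cm lam c n else 0) * (1 / u ^ 2) := by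
      intro n
      simp only [hF]
      split_ifs <;> ring
    simp only [e1]
    rw [tsum_mul_right]
    rfl
  have h3 : ∑' n, ∫ u in Ioc 0 T, F n u = Sh lam c T - Sh lam (cm lam c) T / T := by
    have e1 : ∀ n, ∫ u in Ioc 0 T, F n u = (if lam n ≤ T then c n else 0) -
        (if lam n ≤ T then cm lam c n else 0) * (1 / T) := by
      intro n
      have hl := D.lam0 n
      simp only [hF]
      rw [integral_const_mul, hval n]
      split_ifs with h
      · have e2 : cm lam c n * (1 / lam n) = c n := by
          unfold cm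
          field_simp
        rw [mul_sub, e2]
      · ring
    simp only [e1]
    rw [((sh_summable D T).hasSum.sub
      ((sh_summable (datM D) T).hasSum.mul_right (1 / T))).tsum_eq]
    unfold Sh
    ring
  simp only [h2] at h1
  rw [h3] at h1
  rw [← h1]
  ring

/-- integrability -/
lemma abel_int1 (D : Dat lam c δ σ) (T : ℝ) :
    IntegrableOn (fun u => Sh lam (cm lam c) u * (1 / u ^ 2)) (Ioc 0 T) := by
  have hδ := D.δ0
  set S : ℝ := ∑' n, |cm lam c n| * Real.exp (-((σ + 1) * lam n)) with hS
  have hS0 : 0 ≤ S := tsum_nonneg fun n => by positivity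
  refine Measure.integrableOn_of_bounded
    (M := Real.exp ((σ + 1) * T) * S * (1 / δ ^ 2)) (by simp) ?_ ?_
  · exact ((sh_meas (datM D)).mul (by fun_prop)).aestronglyMeasurable
  · filter_upwards [ae_restrict_mem measurableSet_Ioc] with u hu
    rw [norm_mul, Real.norm_eq_abs]
    rcases lt_or_ge u δ with h | h
    · rw [sh_zero (datM D) h, abs_zero, zero_mul]
      positivity
    · have hu0 : 0 < u := hu.1
      rw [Real.norm_of_nonneg (by positivity)]
      have h1 : Real.exp ((σ + 1) * u) ≤ Real.exp ((σ + 1) * T) := by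
        apply Real.exp_le_exp.2
        have := D.σ0
        nlinarith [hu.2]
      have h2 : |Sh lam (cm lam c) u| ≤ Real.exp ((σ + 1) * T) * S :=
        (sh_le (datM D) u).trans (mul_le_mul_of_nonneg_right h1 hS0)
      have h4 : 1 / u ^ 2 ≤ 1 / δ ^ 2 := one_div_le_one_div_of_le (by positivity)
        (pow_le_pow_left₀ hδ.le h 2)
      exact mul_le_mul h2 h4 (by positivity) (by positivity)

/-- the tail of `|b|/u²` -/
lemma LB.tail {b : ℝ → ℝ} {M : ℝ} (hb : Measurable b) (h : LB b M) {t u : ℝ} (ht : 1 ≤ t) :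
    IntegrableOn (fun v => |b v| * (1 / v ^ 2)) (Ioc t u) ∧
      ∫ v in Ioc t u, |b v| * (1 / v ^ 2) ≤ 2 * (1 + M) / t := by
  have hM := h.nonneg
  -- on integer multiples
  have key : ∀ n : ℕ, IntegrableOn (fun v => |b v| * (1 / v ^ 2)) (Ioc t (t + n)) ∧
      ∫ v in Ioc t (t + n), |b v| * (1 / v ^ 2) ≤ 2 * (1 + M) * (1 / t - 1 / (t + n)) := by
    intro n
    induction n with
    | zero => simp
    | succ n ih =>
      obtain ⟨i1, i2⟩ := ih
      have hn : (0 : ℝ) ≤ n := Nat.cast_nonneg n
      have htn : 1 ≤ t + n := by linarith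
      obtain ⟨j1, j2⟩ := h.abs_int hb (t + n)
      have j3 : IntegrableOn (fun v => |b v|) (Ioc (t + n) (t + n + 1)) :=
        j1.mono_set Ioc_subset_Icc_self
      have hle : ∀ v ∈ Ioc (t + n) (t + n + 1), |b v| * (1 / v ^ 2) ≤
          |b v| * (1 / (t + n) ^ 2) := by
        intro v hv
        refine mul_le_mul_of_nonneg_left ?_ (abs_nonneg _)
        exact one_div_le_one_div_of_le (by positivity)
          (pow_le_pow_left₀ (by linarith) hv.1.le 2)
      have j4 : IntegrableOn (fun v => |b v| * (1 / v ^ 2)) (Ioc (t + n) (t + n + 1)) := by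
        refine Integrable.mono' (j3.mul_const (1 / (t + n) ^ 2))
          (hb.abs.mul (by fun_prop)).aestronglyMeasurable ?_
        filter_upwards [ae_restrict_mem measurableSet_Ioc] with v hv
        rw [Real.norm_of_nonneg (by positivity)]
        exact hle v hv
      have j5 : ∫ v in Ioc (t + n) (t + n + 1), |b v| * (1 / v ^ 2) ≤
          (1 + M) * (1 / (t + n) ^ 2) := by
        refine (setIntegral_mono_on j4 (j3.mul_const _) measurableSet_Ioc hle).trans ?_
        rw [integral_mul_const]
        refine mul_le_mul_of_nonneg_right ?_ (by positivity)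
        exact (setIntegral_mono_set j1 (Eventually.of_forall fun _ => abs_nonneg _)
          Ioc_subset_Icc_self.eventuallyLE).trans j2
      have e1 : t + ((n + 1 : ℕ) : ℝ) = t + n + 1 := by
        push_cast
        ring
      have e2 : Ioc t (t + n + 1) = Ioc t (t + n) ∪ Ioc (t + n) (t + n + 1) :=
        (Ioc_union_Ioc_eq_Ioc (by linarith) (by linarith)).symm
      rw [e1, e2]
      refine ⟨i1.union j4, ?_⟩
      rw [setIntegral_union (Set.disjoint_left.2 (by
        rintro x ⟨-, h1⟩ ⟨h2, -⟩
        linarith)) measurableSet_Ioc i1 j4]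
      have e3 : 1 / (t + n) ^ 2 ≤ 2 * (1 / (t + n) - 1 / (t + n + 1)) := by
        have h0 : 0 < t + n := by linarith
        rw [div_sub_div _ _ h0.ne' (by linarith : t + n + 1 ≠ 0).symm.symm, ← mul_div_assoc,
          div_le_div_iff₀ (by positivity) (by positivity)]
        nlinarith
      have e4 := mul_le_mul_of_nonneg_left e3 (by linarith : 0 ≤ 1 + M)
      nlinarith
  obtain ⟨n, hn⟩ := exists_nat_ge (u - t)
  obtain ⟨k1, k2⟩ := key n
  have hsub : Ioc t u ⊆ Ioc t (t + n) := Ioc_subset_Ioc_right (by linarith)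
  refine ⟨k1.mono_set hsub, ?_⟩
  refine (setIntegral_mono_set k1 (Eventually.of_forall fun v => by positivity)
    hsub.eventuallyLE).trans (k2.trans ?_)
  have h0 : 0 < t + n := by
    have : (0 : ℝ) ≤ n := Nat.cast_nonneg n
    linarith
  have h1 : 0 ≤ 2 * (1 + M) * (1 / (t + n)) := by positivity
  calc 2 * (1 + M) * (1 / t - 1 / (t + n)) = 2 * (1 + M) / t - 2 * (1 + M) * (1 / (t + n)) := by
        ring
    _ ≤ _ := by linarith

/-- **The rate.** -/
theorem rate (D : Dat lam c δ σ) {M r q₁ q : ℝ} (hM : LB (e1 lam c r q₁) M)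
    (hE : IntegrableOn (fun T : ℝ => (Sh lam c T - r * Real.log T - q) ^ 2) (Ioi 1)) {t : ℝ}
    (ht : 1 ≤ t) :
    |(Sh lam c t - r * Real.log t - q) - e1 lam c r q₁ t / t| ≤ 2 * (1 + M) / t := by
  have hM0 := hM.nonneg
  have hbm : Measurable (e1 lam c r q₁) := e1_meas D q₁
  set G : ℝ → ℝ := fun T => (Sh lam c T - r * Real.log T - q) - e1 lam c r q₁ T / T with hG
  have hEm : Measurable fun T : ℝ => Sh lam c T - r * Real.log T - q :=
    ((sh_meas D).sub (Real.measurable_log.const_mul r)).sub_const q
  have hGm : Measurable G := hEm.sub (hbm.div measurable_id)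
  -- the increments
  have hinc : ∀ t u : ℝ, 1 ≤ t → t ≤ u → |G u - G t| ≤ 2 * (1 + M) / t := by
    intro t u ht1 hu1
    have ht0 : 0 < t := by linarith
    have hu0 : 0 < u := by linarith
    have a1 := sh_abel1 D ht0
    have a2 := sh_abel1 D hu0
    have a3 : (∫ v in Ioc 0 u, Sh lam (cm lam c) v * (1 / v ^ 2)) =
        (∫ v in Ioc 0 t, Sh lam (cm lam c) v * (1 / v ^ 2)) +
          ∫ v in Ioc t u, Sh lam (cm lam c) v * (1 / v ^ 2) := by
      have i1 := abel_int1 D u
      rw [← Ioc_union_Ioc_eq_Ioc ht0.le hu1, setIntegral_union (Set.disjoint_left.2 (by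
        rintro x ⟨-, h1⟩ ⟨h2, -⟩
        linarith)) measurableSet_Ioc
        (i1.mono_set (Ioc_subset_Ioc_right hu1)) (i1.mono_set (Ioc_subset_Ioc_left ht0.le))]
    obtain ⟨k1, k2⟩ := hM.tail hbm (u := u) ht1
    have k3 : IntegrableOn (fun v => e1 lam c r q₁ v * (1 / v ^ 2)) (Ioc t u) := by
      refine Integrable.mono' k1 (hbm.mul (by fun_prop)).aestronglyMeasurable
        (Eventually.of_forall fun v => ?_)
      rw [norm_mul, Real.norm_eq_abs, Real.norm_of_nonneg (by positivity)]
    have i2 : IntegrableOn (fun v : ℝ => r * (1 / v)) (Ioc t u) := by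
      refine IntegrableOn.mono_set (t := Icc t u) ?_ Ioc_subset_Icc_self
      refine ContinuousOn.integrableOn_Icc (continuousOn_const.mul
        (continuousOn_const.div continuousOn_id fun v hv => ?_))
      have : t ≤ v := hv.1
      linarith
    have i3 : IntegrableOn (fun v : ℝ => q₁ * (1 / v ^ 2)) (Ioc t u) := by
      refine IntegrableOn.mono_set (t := Icc t u) ?_ Ioc_subset_Icc_self
      refine ContinuousOn.integrableOn_Icc (continuousOn_const.mul
        (continuousOn_const.div (by fun_prop) fun v hv => ?_))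
      have : 0 < v := by linarith [hv.1]
      positivity
    have a4 : ∫ v in Ioc t u, Sh lam (cm lam c) v * (1 / v ^ 2) =
        (∫ v in Ioc t u, e1 lam c r q₁ v * (1 / v ^ 2)) + r * (Real.log u - Real.log t) +
          q₁ * (1 / t - 1 / u) := by
      have b1 : ∫ v in Ioc t u, r * (1 / v) = r * (Real.log u - Real.log t) := by
        rw [integral_const_mul, ← intervalIntegral.integral_of_le hu1,
          integral_one_div_of_pos ht0 hu0, Real.log_div hu0.ne' ht0.ne']
      have b2 : ∫ v in Ioc t u, q₁ * (1 / v ^ 2) = q₁ * (1 / t - 1 / u) := by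
        rw [integral_const_mul, ← intervalIntegral.integral_of_le hu1, sq_int ht0 hu1]
      have k4 : IntegrableOn (fun v => e1 lam c r q₁ v * (1 / v ^ 2) + r * (1 / v)) (Ioc t u) :=
        k3.add i2
      rw [← b1, ← b2, ← integral_add k3 i2, ← integral_add k4 i3]
      refine setIntegral_congr_fun measurableSet_Ioc fun v hv => ?_
      have hv0 : 0 < v := by linarith [hv.1]
      rw [e1_pos hv0]
      field_simp
      ring
    have a5 : G u - G t = ∫ v in Ioc t u, e1 lam c r q₁ v * (1 / v ^ 2) := by
      rw [hG]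
      simp only
      rw [a1, a2, a3, a4, e1_pos ht0, e1_pos hu0]
      field_simp
      ring
    rw [a5, ← Real.norm_eq_abs]
    refine (norm_integral_le_integral_norm _).trans (le_trans (le_of_eq ?_) k2)
    refine integral_congr_ae (Eventually.of_forall fun v => ?_)
    simp only
    rw [norm_mul, Real.norm_eq_abs, Real.norm_of_nonneg (by positivity)]
  -- the limit
  have hG2 : IntegrableOn (fun T : ℝ => G T ^ 2) (Ioi 1) := by
    have h1 := hM.sq_div hbm
    refine Integrable.mono' ((hE.const_mul 2).add (h1.const_mul 2))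
      (hGm.pow_const 2).aestronglyMeasurable (Eventually.of_forall fun T => ?_)
    rw [Real.norm_of_nonneg (sq_nonneg _), hG]
    simp only [Pi.add_apply]
    nlinarith [sq_nonneg ((Sh lam c T - r * Real.log T - q) + e1 lam c r q₁ T / T)]
  have hlim : Tendsto G atTop (𝓝 0) := by
    refine Pool.Agent.Q195.OSC.taub hG2 (by simp) fun ε hε => ⟨1, one_pos, ?_⟩
    have h0 : Tendsto (fun t : ℝ => 2 * (1 + M) / t) atTop (𝓝 0) :=
      tendsto_const_nhds.div_atTop tendsto_id
    filter_upwards [h0.eventually (gt_mem_nhds hε), eventually_ge_atTop 1] with t ht ht1 u hu1 hu2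
    have := (abs_le.1 (hinc t u ht1 hu1)).2
    linarith
  have h1 : Tendsto (fun u => |G u - G t|) atTop (𝓝 |0 - G t|) :=
    (hlim.sub_const _).abs
  rw [zero_sub, abs_neg] at h1
  refine le_of_tendsto h1 ?_
  filter_upwards [eventually_ge_atTop t] with u hu
  exact hinc t u ht hu

end Pool.Agent.Q195.CR
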