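import Pool.Agent.Q195.CR.Lap
import Pool.Agent.TH270.MS.Main
import Pool.Agent.Q195.OSC.Taub

/-! The deviation of the sharp sums in terms of `ψ`. -/

set_option autoImplicit false

open MeasureTheory Filter Topology Set Complex
open scoped ENNReal
open Pool.Agent.TH942.LS (Dat P)
open Pool.Agent.TH942.SL

namespace Pool.Agent.Q195.CR

open Pool.Agent.TH270.MS

variable {lam c : ℕ → ℝ} {δ σ : ℝ}

/-- the weight `e^{-u} (1/u + 1/u²)` -/
noncomputable def we (u : ℝ) : ℝ := Real.exp (-u) * (1 / u + 1 / u ^ 2)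

lemma we_int {l T : ℝ} (hl : 0 < l) (hlT : l ≤ T) :
    ∫ u in l..T, we u = Real.exp (-l) / l - Real.exp (-T) / T := by
  have hd : ∀ u ∈ uIcc l T, HasDerivAt (fun u : ℝ => -(Real.exp (-u) / u)) (we u) u := by
    intro u hu
    rw [uIcc_of_le hlT] at hu
    have hu0 : u ≠ 0 := by linarith [hu.1]
    have h1 : HasDerivAt (fun u : ℝ => Real.exp (-u)) (Real.exp (-u) * (-1)) u :=
      ((hasDerivAt_id u).neg).exp
    refine ((h1.div (hasDerivAt_id u) hu0).neg).congr_deriv ?_
    unfold we
    simp only [id_eq]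
    field_simp
    ring
  have hc : ContinuousOn we (uIcc l T) := by
    unfold we
    rw [uIcc_of_le hlT]
    refine ContinuousOn.mul (by fun_prop) (ContinuousOn.add ?_ ?_)
    · exact ContinuousOn.div continuousOn_const continuousOn_id fun u hu => by
        linarith [hu.1]
    · exact ContinuousOn.div continuousOn_const (by fun_prop) fun u hu => by
        have : 0 < u := by linarith [hu.1]
        positivity
  rw [intervalIntegral.integral_eq_sub_of_hasDerivAt hd hc.intervalIntegrable]
  ring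

lemma we_nonneg {u : ℝ} (hu : 0 < u) : 0 ≤ we u := by
  unfold we
  positivity

lemma we_le {δ u : ℝ} (hδ : 0 < δ) (hu : δ ≤ u) : we u ≤ 1 / δ + 1 / δ ^ 2 := by
  unfold we
  have hu0 : 0 < u := by linarith
  have h1 : Real.exp (-u) ≤ 1 := by
    rw [Real.exp_le_one_iff]
    linarith
  have h2 : 1 / u ≤ 1 / δ := one_div_le_one_div_of_le hδ hu
  have h3 : 1 / u ^ 2 ≤ 1 / δ ^ 2 := one_div_le_one_div_of_le (by positivity)
    (pow_le_pow_left₀ hδ.le hu 2)
  calc Real.exp (-u) * (1 / u + 1 / u ^ 2) ≤ 1 * (1 / δ + 1 / δ ^ 2) :=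
        mul_le_mul h1 (by linarith) (by positivity) zero_le_one
    _ = _ := one_mul _

lemma we_meas : Measurable we := by
  unfold we
  fun_prop

/-- partial summation -/
theorem sh_abel (D : Dat lam c δ σ) {T : ℝ} (hT : 0 < T) :
    Sh lam c T = bb lam c T / T + ∫ u in Ioc 0 T, bb lam c u * (1 / u + 1 / u ^ 2) := by
  have hδ := D.δ0
  set F : ℕ → ℝ → ℝ := fun n u => cE lam c n * (if lam n ≤ u then we u else 0) with hF
  have hval : ∀ n, ∫ u in Ioc 0 T, (if lam n ≤ u then we u else 0) =
      if lam n ≤ T then Real.exp (-lam n) / lam n - Real.exp (-T) / T else 0 := by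
    intro n
    have hl := D.lam0 n
    split_ifs with h
    · rw [← we_int hl h, intervalIntegral.integral_of_le h]
      have e1 : Ioc (0 : ℝ) T = Ioo 0 (lam n) ∪ Icc (lam n) T := by
        ext u
        simp only [Set.mem_Ioc, Set.mem_union, Set.mem_Ioo, Set.mem_Icc]
        constructor
        · rintro ⟨h1, h2⟩
          rcases lt_or_ge u (lam n) with h3 | h3
          · exact Or.inl ⟨h1, h3⟩
          · exact Or.inr ⟨h3, h2⟩
        · rintro (⟨h1, h2⟩ | ⟨h1, h2⟩)
          · exact ⟨h1, by linarith⟩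
          · exact ⟨by linarith, h2⟩
      have e2 : ∫ u in Icc (lam n) T, we u = ∫ u in Ioc (lam n) T, we u :=
        integral_Icc_eq_integral_Ioc
      have e3 : (fun u => if lam n ≤ u then we u else 0) = (Ici (lam n)).indicator we := by
        ext u
        simp only [Set.indicator_apply, Set.mem_Ici]
      rw [← e2, e3, setIntegral_indicator measurableSet_Ici]
      congr 1
      congr 1
      ext u
      simp only [Set.mem_inter_iff, Set.mem_Ioc, Set.mem_Ici, Set.mem_Icc]
      constructor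
      · rintro ⟨⟨h1, h2⟩, h3⟩
        exact ⟨h3, h2⟩
      · rintro ⟨h1, h2⟩
        exact ⟨⟨by linarith, h2⟩, h1⟩
    · rw [setIntegral_congr_fun (g := fun _ => (0 : ℝ)) measurableSet_Ioc]
      · simp
      · intro u hu
        simp only
        rw [if_neg]
        intro h1
        exact h (h1.trans hu.2)
  have hgi : ∀ n, IntegrableOn (fun u => if lam n ≤ u then we u else 0) (Ioc 0 T) := by
    intro n
    have hl := D.lam0 n
    refine Measure.integrableOn_of_bounded (M := 1 / lam n + 1 / lam n ^ 2) (by simp) ?_ ?_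
    · exact (Measurable.ite measurableSet_Ici we_meas measurable_const).aestronglyMeasurable
    · refine Eventually.of_forall fun u => ?_
      split_ifs with h
      · rw [Real.norm_of_nonneg (we_nonneg (by linarith))]
        exact we_le hl h
      · rw [norm_zero]
        positivity
  have hnn : ∀ n, ∀ u : ℝ, 0 ≤ (if lam n ≤ u then we u else 0) := by
    intro n u
    split_ifs with h
    · exact we_nonneg (by linarith [D.lam0 n])
    · exact le_rfl
  have hFi : ∀ n, Integrable (F n) (volume.restrict (Ioc 0 T)) := fun n => (hgi n).const_mul _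
  have hFn : ∀ n, ∫ u in Ioc 0 T, ‖F n u‖ = |cE lam c n| *
      (if lam n ≤ T then Real.exp (-lam n) / lam n - Real.exp (-T) / T else 0) := by
    intro n
    rw [← hval n, ← integral_const_mul]
    refine integral_congr_ae (Eventually.of_forall fun u => ?_)
    simp only [hF]
    rw [norm_mul, Real.norm_eq_abs, Real.norm_of_nonneg (hnn n u)]
  have hcE : ∀ n, |cE lam c n| * (Real.exp (-lam n) / lam n) = |c n| := by
    intro n
    have hl := D.lam0 n
    unfold cE
    rw [abs_mul, abs_mul, abs_of_pos hl, abs_of_pos (Real.exp_pos _), Real.exp_neg]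
    have := Real.exp_pos (lam n)
    field_simp
  have hFs : Summable fun n => ∫ u in Ioc 0 T, ‖F n u‖ := by
    simp only [hFn]
    refine Summable.of_nonneg_of_le (fun n => ?_) (fun n => ?_) (sh_summable D T).norm
    · refine mul_nonneg (abs_nonneg _) ?_
      rw [← hval n]
      exact setIntegral_nonneg measurableSet_Ioc fun u _ => hnn n u
    · split_ifs with h
      · rw [Real.norm_eq_abs, ← hcE n]
        refine mul_le_mul_of_nonneg_left ?_ (abs_nonneg _)
        have : 0 < Real.exp (-T) / T := by positivity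
        linarith
      · rw [mul_zero, norm_zero]
  have h1 := integral_tsum_of_summable_integral_norm hFi hFs
  have h2 : ∀ u : ℝ, ∑' n, F n u = bb lam c u * (1 / u + 1 / u ^ 2) := by
    intro u
    have e1 : ∀ n, F n u = (if lam n ≤ u then cE lam c n else 0) * we u := by
      intro n
      simp only [hF]
      split_ifs <;> ring
    simp only [e1]
    rw [tsum_mul_right]
    unfold bb Sh we
    ring
  have h3 : ∑' n, ∫ u in Ioc 0 T, F n u = Sh lam c T - bb lam c T / T := by
    have e1 : ∀ n, ∫ u in Ioc 0 T, F n u = (if lam n ≤ T then c n else 0) -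
        (if lam n ≤ T then cE lam c n else 0) * (Real.exp (-T) / T) := by
      intro n
      have hl := D.lam0 n
      simp only [hF]
      rw [integral_const_mul, hval n]
      split_ifs with h
      · have e2 : cE lam c n * (Real.exp (-lam n) / lam n) = c n := by
          unfold cE
          rw [Real.exp_neg]
          have := Real.exp_pos (lam n)
          field_simp
        rw [mul_sub, e2]
      · ring
    simp only [e1]
    rw [((sh_summable D T).hasSum.sub
      ((sh_summable (datE D) T).hasSum.mul_right (Real.exp (-T) / T))).tsum_eq]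
    unfold bb Sh
    ring
  simp only [h2] at h1
  rw [h3] at h1
  rw [← h1]
  ring

/-- integrability of the remainder -/
lemma abel_int (D : Dat lam c δ σ) (T : ℝ) :
    IntegrableOn (fun u => bb lam c u * (1 / u + 1 / u ^ 2)) (Ioc 0 T) := by
  have hδ := D.δ0
  obtain ⟨C, hC, hb⟩ := bb_le D
  refine Measure.integrableOn_of_bounded
    (M := C * Real.exp ((σ + 1) * T) * (1 / δ + 1 / δ ^ 2)) (by simp) ?_ ?_
  · exact ((bb_meas D).mul (by fun_prop)).aestronglyMeasurable
  · filter_upwards [ae_restrict_mem measurableSet_Ioc] with u hu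
    rw [norm_mul, Real.norm_eq_abs]
    rcases lt_or_ge u δ with h | h
    · have : bb lam c u = 0 := by
        unfold bb
        rw [sh_zero (datE D) h, mul_zero]
      rw [this, abs_zero, zero_mul]
      positivity
    · have hu0 : 0 < u := hu.1
      rw [Real.norm_of_nonneg (by positivity)]
      have h1 : Real.exp ((σ + 1) * u) ≤ Real.exp ((σ + 1) * T) := by
        apply Real.exp_le_exp.2
        have := D.σ0
        nlinarith [hu.2]
      have h2 : |bb lam c u| ≤ C * Real.exp ((σ + 1) * T) :=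
        (hb u).trans (mul_le_mul_of_nonneg_left h1 hC)
      have h3 : 1 / u ≤ 1 / δ := one_div_le_one_div_of_le hδ h
      have h4 : 1 / u ^ 2 ≤ 1 / δ ^ 2 := one_div_le_one_div_of_le (by positivity)
        (pow_le_pow_left₀ hδ.le h 2)
      exact mul_le_mul h2 (by linarith) (by positivity) (by positivity)

/-- a local mean square bound -/
def LB (b : ℝ → ℝ) (M : ℝ) : Prop :=
  ∀ T : ℝ, IntegrableOn (fun u => b u ^ 2) (Icc T (T + 1)) ∧ ∫ u in Icc T (T + 1), b u ^ 2 ≤ M

lemma LB.nonneg {b : ℝ → ℝ} {M : ℝ} (h : LB b M) : 0 ≤ M :=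
  (setIntegral_nonneg measurableSet_Icc fun _ _ => sq_nonneg _).trans (h 0).2

lemma lb_of {b : ℝ → ℝ} (hb : Measurable b) {K : ℝ≥0∞} (hK : K < ⊤)
    (h : ∀ T : ℝ, ∫⁻ u in Icc T (T + 1), ENNReal.ofReal (b u ^ 2) ≤ K) : LB b K.toReal := by
  intro T
  have i1 : IntegrableOn (fun u => b u ^ 2) (Icc T (T + 1)) := by
    refine ⟨(hb.pow_const 2).aestronglyMeasurable, ?_⟩
    refine lt_of_le_of_lt (lintegral_mono fun u => ?_) ((h T).trans_lt hK)
    rw [← ofReal_norm, Real.norm_of_nonneg (sq_nonneg _)]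
  refine ⟨i1, ?_⟩
  rw [integral_eq_lintegral_of_nonneg_ae (Eventually.of_forall fun _ => sq_nonneg _) i1.1]
  exact ENNReal.toReal_mono hK.ne (h T)

lemma LB.abs_int {b : ℝ → ℝ} {M : ℝ} (hb : Measurable b) (h : LB b M) (T : ℝ) :
    IntegrableOn (fun u => |b u|) (Icc T (T + 1)) ∧ ∫ u in Icc T (T + 1), |b u| ≤ 1 + M := by
  obtain ⟨h1, h2⟩ := h T
  have i0 : IntegrableOn (fun _ : ℝ => (1 : ℝ)) (Icc T (T + 1)) := by simp
  have hle : ∀ u : ℝ, |b u| ≤ 1 + b u ^ 2 := by
    intro u
    have := sq_abs (b u)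
    nlinarith [sq_nonneg (|b u| - 1)]
  have i1 : IntegrableOn (fun u => |b u|) (Icc T (T + 1)) := by
    refine Integrable.mono' (i0.add h1) hb.abs.aestronglyMeasurable
      (Eventually.of_forall fun u => ?_)
    rw [Real.norm_eq_abs, abs_abs]
    exact hle u
  refine ⟨i1, ?_⟩
  have h3 : ∫ u in Icc T (T + 1), |b u| ≤ ∫ u in Icc T (T + 1), (1 + b u ^ 2) :=
    setIntegral_mono i1 (i0.add h1) hle
  rw [integral_add i0 h1] at h3
  have h4 : ∫ _u in Icc T (T + 1), (1 : ℝ) = 1 := by simp
  linarith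

/-- `b(u)/u` is square integrable -/
lemma LB.sq_div {b : ℝ → ℝ} {M : ℝ} (hb : Measurable b) (h : LB b M) :
    IntegrableOn (fun u => (b u / u) ^ 2) (Ioi 1) := by
  refine ⟨((hb.div measurable_id).pow_const 2).aestronglyMeasurable, ?_⟩
  have hsub : Ioi (1 : ℝ) ⊆ ⋃ n : ℕ, Icc ((n : ℝ) + 1) ((n : ℝ) + 1 + 1) := by
    intro u hu
    have hu1 : (1 : ℝ) < u := hu
    rw [Set.mem_iUnion]
    refine ⟨⌊u - 1⌋₊, ?_, ?_⟩
    · have := Nat.floor_le (by linarith : 0 ≤ u - 1)
      linarith
    · have := Nat.lt_floor_add_one (u - 1)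
      linarith
  have h1 : ∫⁻ u in Ioi (1 : ℝ), ‖(b u / u) ^ 2‖ₑ ≤
      ∑' n : ℕ, ENNReal.ofReal (M * (1 / ((n : ℝ) + 1) ^ 2)) := by
    refine (lintegral_mono_set hsub).trans ((lintegral_iUnion_le _ _).trans ?_)
    refine ENNReal.tsum_le_tsum fun n => ?_
    obtain ⟨h2, h3⟩ := h ((n : ℝ) + 1)
    have h4 : ∫⁻ u in Icc ((n : ℝ) + 1) ((n : ℝ) + 1 + 1), ‖(b u / u) ^ 2‖ₑ ≤
        ∫⁻ u in Icc ((n : ℝ) + 1) ((n : ℝ) + 1 + 1),
          ENNReal.ofReal (b u ^ 2 * (1 / ((n : ℝ) + 1) ^ 2)) := by
      refine setLIntegral_mono_ae' measurableSet_Icc (Eventually.of_forall fun u hu => ?_)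
      rw [← ofReal_norm, Real.norm_of_nonneg (sq_nonneg _)]
      apply ENNReal.ofReal_le_ofReal
      have hn : (0 : ℝ) < n + 1 := by positivity
      have hu0 : 0 < u := hn.trans_le hu.1
      rw [div_pow, div_eq_mul_one_div]
      refine mul_le_mul_of_nonneg_left ?_ (sq_nonneg _)
      exact one_div_le_one_div_of_le (by positivity) (pow_le_pow_left₀ hn.le hu.1 2)
    refine h4.trans ?_
    rw [← ofReal_integral_eq_lintegral_ofReal (h2.mul_const _)
      (Eventually.of_forall fun _ => by positivity), integral_mul_const]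
    apply ENNReal.ofReal_le_ofReal
    exact mul_le_mul_of_nonneg_right h3 (by positivity)
  refine lt_of_le_of_lt h1 ?_
  have hs : Summable fun n : ℕ => M * (1 / ((n : ℝ) + 1) ^ 2) := by
    refine Summable.mul_left M ?_
    have h5 : Summable fun n : ℕ => 1 / ((n : ℝ)) ^ 2 := Real.summable_one_div_nat_pow.2 (by norm_num)
    have h6 := (summable_nat_add_iff 1).2 h5
    refine h6.congr fun n => ?_
    push_cast
    rfl
  exact hs.tsum_ofReal_lt_top

/-- **The deviation and `ψ`.** -/
theorem dev_bb (D : Dat lam c δ σ) {M r q : ℝ} (hM : LB (bb lam c) M)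
    (hE : IntegrableOn (fun T : ℝ => (Sh lam c T - r * Real.log T - q) ^ 2) (Ioi 1)) :
    Tendsto (fun T : ℝ => (Sh lam c T - r * Real.log T - q) - bb lam c T / T) atTop (𝓝 0) := by
  have hM0 := hM.nonneg
  have hbm := bb_meas D
  have hEm : Measurable fun T : ℝ => Sh lam c T - r * Real.log T - q :=
    ((sh_meas D).sub (Real.measurable_log.const_mul r)).sub_const q
  have hGm : Measurable fun T : ℝ => (Sh lam c T - r * Real.log T - q) - bb lam c T / T :=
    hEm.sub (hbm.div measurable_id)
  have hG2 : IntegrableOn (fun T : ℝ => ((Sh lam c T - r * Real.log T - q) - bb lam c T / T) ^ 2)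
      (Ioi 1) := by
    have h1 := hM.sq_div hbm
    refine Integrable.mono' ((hE.const_mul 2).add (h1.const_mul 2))
      (hGm.pow_const 2).aestronglyMeasurable (Eventually.of_forall fun T => ?_)
    rw [Real.norm_of_nonneg (sq_nonneg _)]
    simp only [Pi.add_apply]
    nlinarith [sq_nonneg ((Sh lam c T - r * Real.log T - q) + bb lam c T / T)]
  refine Pool.Agent.Q195.OSC.taub hG2 (by simp) fun ε hε => ⟨1, one_pos, ?_⟩
  have h0 : Tendsto (fun t : ℝ => (|r| + 2 * (1 + M)) / t) atTop (𝓝 0) :=
    tendsto_const_nhds.div_atTop tendsto_id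
  filter_upwards [h0.eventually (gt_mem_nhds hε), eventually_ge_atTop 1] with t ht ht1 u hu1 hu2
  have ht0 : 0 < t := by linarith
  have hu0 : 0 < u := by linarith
  have e1 := sh_abel D ht0
  have e2 := sh_abel D hu0
  have e3 : (∫ v in Ioc 0 u, bb lam c v * (1 / v + 1 / v ^ 2)) =
      (∫ v in Ioc 0 t, bb lam c v * (1 / v + 1 / v ^ 2)) +
        ∫ v in Ioc t u, bb lam c v * (1 / v + 1 / v ^ 2) := by
    have i1 := abel_int D u
    rw [← Ioc_union_Ioc_eq_Ioc ht0.le hu1, setIntegral_union (Set.disjoint_left.2 (by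
      rintro x ⟨-, h1⟩ ⟨h2, -⟩
      linarith)) measurableSet_Ioc
      (i1.mono_set (Ioc_subset_Ioc_right hu1)) (i1.mono_set (Ioc_subset_Ioc_left ht0.le))]
  have e4 : |∫ v in Ioc t u, bb lam c v * (1 / v + 1 / v ^ 2)| ≤ 2 / t * (1 + M) := by
    obtain ⟨i1, i2⟩ := hM.abs_int hbm t
    have i3 : ∫ v in Ioc t u, |bb lam c v| ≤ 1 + M := by
      refine le_trans (setIntegral_mono_set i1 (Eventually.of_forall fun _ => abs_nonneg _) ?_) i2
      exact (Ioc_subset_Icc_self.trans (Icc_subset_Icc_right hu2)).eventuallyLE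
    have i4 : IntegrableOn (fun v => |bb lam c v|) (Ioc t u) :=
      i1.mono_set (Ioc_subset_Icc_self.trans (Icc_subset_Icc_right hu2))
    rw [← Real.norm_eq_abs]
    refine (norm_integral_le_integral_norm _).trans ?_
    have i5 : ∫ v in Ioc t u, ‖bb lam c v * (1 / v + 1 / v ^ 2)‖ ≤
        ∫ v in Ioc t u, |bb lam c v| * (2 / t) := by
      refine setIntegral_mono_on ?_ (i4.mul_const _) measurableSet_Ioc fun v hv => ?_
      · exact ((abel_int D u).mono_set (Ioc_subset_Ioc_left ht0.le)).norm
      · have hv1 : t < v := hv.1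
        have hv0 : 0 < v := by linarith
        rw [norm_mul, Real.norm_eq_abs, Real.norm_of_nonneg (by positivity)]
        refine mul_le_mul_of_nonneg_left ?_ (abs_nonneg _)
        have h1 : 1 / v ≤ 1 / t := one_div_le_one_div_of_le ht0 hv1.le
        have h2 : 1 / v ^ 2 ≤ 1 / t := by
          apply one_div_le_one_div_of_le ht0
          nlinarith
        have h3 : 2 / t = 1 / t + 1 / t := by ring
        linarith
    refine i5.trans ?_
    rw [integral_mul_const, mul_comm]
    exact mul_le_mul_of_nonneg_left i3 (by positivity)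
  have e5 : |Real.log u - Real.log t| ≤ 1 / t := by
    rw [abs_of_nonneg (sub_nonneg.2 (Real.log_le_log ht0 hu1)), ← Real.log_div hu0.ne' ht0.ne']
    refine (Real.log_le_sub_one_of_pos (by positivity)).trans ?_
    rw [div_sub_one ht0.ne']
    exact div_le_div_of_nonneg_right (by linarith) ht0.le
  have e6 : -(r * (Real.log u - Real.log t)) ≤ |r| * (1 / t) := by
    refine (neg_le_abs _).trans ?_
    rw [abs_mul]
    exact mul_le_mul_of_nonneg_left e5 (abs_nonneg _)
  have e7 := (abs_le.1 e4).2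
  have e8 : (|r| + 2 * (1 + M)) / t = |r| * (1 / t) + 2 / t * (1 + M) := by ring
  rw [e8] at ht
  rw [e1, e2, e3]
  linarith

end Pool.Agent.Q195.CR
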