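import Mathlib

/-! A kernel whose Fourier transform has compact support. -/

set_option autoImplicit false

open MeasureTheory Filter Topology Set Complex
open scoped ENNReal

namespace Pool.Agent.Q195.CR

/-- the weight -/
noncomputable def vv (y : ℝ) : ℝ := y * (1 - y)

/-- its Fourier transform -/
noncomputable def ww (u : ℝ) : ℂ := ∫ y in (0 : ℝ)..1, (vv y : ℂ) * exp (I * (y * u))

lemma vv_nonneg {y : ℝ} (h0 : 0 ≤ y) (h1 : y ≤ 1) : 0 ≤ vv y :=
  mul_nonneg h0 (by linarith)

lemma vv_le {y : ℝ} (h0 : 0 ≤ y) (h1 : y ≤ 1) : vv y ≤ 1 := by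
  unfold vv
  nlinarith

lemma vv_norm {y : ℝ} (h0 : 0 ≤ y) (h1 : y ≤ 1) : ‖(vv y : ℂ)‖ ≤ 1 := by
  rw [Complex.norm_real, Real.norm_of_nonneg (vv_nonneg h0 h1)]
  exact vv_le h0 h1

lemma vv_cont : Continuous vv := by
  unfold vv
  fun_prop

lemma norm_exp_I (x : ℝ) : ‖exp (I * x)‖ = 1 := by
  rw [mul_comm]
  exact Complex.norm_exp_ofReal_mul_I x

lemma ww_norm_le_one (u : ℝ) : ‖ww u‖ ≤ 1 := by
  unfold ww
  refine (intervalIntegral.norm_integral_le_of_norm_le_const (C := 1) fun y hy => ?_).trans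
    (by norm_num)
  rw [uIoc_of_le zero_le_one] at hy
  rw [norm_mul, ← Complex.ofReal_mul, norm_exp_I, mul_one]
  exact vv_norm hy.1.le hy.2

lemma ww_cont : Continuous ww := by
  unfold ww
  apply intervalIntegral.continuous_parametric_intervalIntegral_of_continuous'
  have := vv_cont
  simp only [Function.uncurry_def]
  fun_prop

lemma ww_eq {u : ℝ} (hu : u ≠ 0) :
    ww u = (exp (I * u) + 1) / (I * u) ^ 2 - 2 * (exp (I * u) - 1) / (I * u) ^ 3 := by
  have huc : (u : ℂ) ≠ 0 := by exact_mod_cast hu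
  have hIu : I * (u : ℂ) ≠ 0 := mul_ne_zero I_ne_zero huc
  set A : ℝ → ℂ := fun y => exp (I * u * y) * (y * (1 - y) / (I * u) - (1 - 2 * y) / (I * u) ^ 2 -
    2 / (I * u) ^ 3) with hA
  have hd : ∀ y ∈ uIcc (0 : ℝ) 1, HasDerivAt A ((vv y : ℂ) * exp (I * (y * u))) y := by
    intro y _
    have h1 : HasDerivAt (fun y : ℝ => (y : ℂ)) 1 y := Complex.ofRealCLM.hasDerivAt
    have h2 : HasDerivAt (fun y : ℝ => I * (u : ℂ) * y) (I * u) y := by
      simpa using h1.const_mul (I * (u : ℂ))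
    have h3 := h2.cexp
    have h4 : HasDerivAt (fun y : ℝ => (y : ℂ) * (1 - y) / (I * u) - (1 - 2 * y) / (I * u) ^ 2 -
        2 / (I * u) ^ 3) ((1 * (1 - (y : ℂ)) + y * (0 - 1)) / (I * u) - (0 - 2 * 1) / (I * u) ^ 2 -
          0) y := by
      refine HasDerivAt.sub (HasDerivAt.sub ?_ ?_) (hasDerivAt_const _ _)
      · exact (h1.mul ((hasDerivAt_const y (1 : ℂ)).sub h1)).div_const _
      · exact ((hasDerivAt_const y (1 : ℂ)).sub (h1.const_mul 2)).div_const _
    refine (h3.mul h4).congr_deriv ?_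
    have e1 : I * ((y : ℂ) * u) = I * u * y := by ring
    unfold vv
    push_cast
    rw [e1]
    field_simp
    ring
  have hi : IntervalIntegrable (fun y : ℝ => (vv y : ℂ) * exp (I * (y * u))) volume 0 1 := by
    have := vv_cont
    exact Continuous.intervalIntegrable (by fun_prop) _ _
  unfold ww
  rw [intervalIntegral.integral_eq_sub_of_hasDerivAt hd hi, hA]
  simp only [Complex.ofReal_one, Complex.ofReal_zero, mul_one, mul_zero, exp_zero, sub_self,
    sub_zero, zero_div]
  field_simp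
  ring

lemma ww_far {u : ℝ} (hu : 1 ≤ |u|) : ‖ww u‖ ≤ 6 / u ^ 2 := by
  have hu0 : u ≠ 0 := by
    rintro rfl
    rw [abs_zero] at hu
    linarith
  have hp : 0 < |u| := by linarith
  rw [ww_eq hu0]
  have e1 : ‖I * (u : ℂ)‖ = |u| := by
    rw [norm_mul, norm_I, one_mul, Complex.norm_real, Real.norm_eq_abs]
  have e2 := norm_exp_I u
  refine (norm_sub_le _ _).trans ?_
  rw [norm_div, norm_div, norm_pow, norm_pow, e1, norm_mul, Complex.norm_ofNat]
  have h1 : ‖exp (I * u) + 1‖ ≤ 2 := by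
    refine (norm_add_le _ _).trans ?_
    rw [e2, norm_one]
    norm_num
  have h2 : ‖exp (I * u) - 1‖ ≤ 2 := by
    refine (norm_sub_le _ _).trans ?_
    rw [e2, norm_one]
    norm_num
  have h3 : |u| ^ 2 ≤ |u| ^ 3 := pow_le_pow_right₀ hu (by norm_num)
  calc ‖exp (I * u) + 1‖ / |u| ^ 2 + 2 * ‖exp (I * u) - 1‖ / |u| ^ 3
      ≤ 2 / |u| ^ 2 + 2 * 2 / |u| ^ 2 := by
        refine add_le_add (div_le_div_of_nonneg_right h1 (by positivity)) ?_
        exact div_le_div₀ (by norm_num) (by linarith) (by positivity) h3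
    _ = 6 / u ^ 2 := by rw [sq_abs]; ring

lemma ww_le (u : ℝ) : ‖ww u‖ ≤ 12 * (1 + u ^ 2)⁻¹ := by
  rw [← div_eq_mul_inv]
  rcases le_or_gt 1 |u| with h | h
  · refine (ww_far h).trans ?_
    have h1 : 1 ≤ u ^ 2 := by
      rw [← sq_abs]
      exact one_le_pow₀ h
    rw [div_le_div_iff₀ (by linarith) (by linarith)]
    nlinarith
  · refine (ww_norm_le_one u).trans ?_
    have h1 : u ^ 2 ≤ 1 := by
      rw [← sq_abs]
      exact pow_le_one₀ (abs_nonneg _) h.le
    rw [le_div_iff₀ (by positivity)]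
    linarith

lemma ww_low {u : ℝ} (hu : |u| ≤ 1) : 1 / 12 ≤ ‖ww u‖ := by
  have h0 : (ww u).re = ∫ y in (0 : ℝ)..1, vv y * Real.cos (y * u) := by
    unfold ww
    have h1 := intervalIntegral.intervalIntegral_re (f := fun y : ℝ => (vv y : ℂ) *
      exp (I * (y * u))) (a := 0) (b := 1) (μ := volume) (by
        have := vv_cont
        exact Continuous.intervalIntegrable (by fun_prop) _ _)
    have h2 : (∫ y in (0 : ℝ)..1, (vv y : ℂ) * exp (I * (y * u))).re =
        ∫ y in (0 : ℝ)..1, ((vv y : ℂ) * exp (I * (y * u))).re := h1.symm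
    rw [h2]
    refine intervalIntegral.integral_congr fun y _ => ?_
    rw [Complex.re_ofReal_mul, ← Complex.ofReal_mul, mul_comm I, Complex.exp_ofReal_mul_I_re]
  have h1 : (∫ y in (0 : ℝ)..1, vv y * (1 / 2)) ≤ ∫ y in (0 : ℝ)..1, vv y * Real.cos (y * u) := by
    have := vv_cont
    refine intervalIntegral.integral_mono_on zero_le_one
      (Continuous.intervalIntegrable (by fun_prop) _ _)
      (Continuous.intervalIntegrable (by fun_prop) _ _) fun y hy => ?_
    refine mul_le_mul_of_nonneg_left ?_ (vv_nonneg hy.1 hy.2)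
    have h2 := Real.one_sub_sq_div_two_le_cos (x := y * u)
    have h3 : (y * u) ^ 2 ≤ 1 := by
      rw [← sq_abs, abs_mul, abs_of_nonneg hy.1]
      exact pow_le_one₀ (by have := hy.1; positivity) (mul_le_one₀ hy.2 (abs_nonneg _) hu)
    linarith
  have h2 : (∫ y in (0 : ℝ)..1, vv y * (1 / 2)) = 1 / 12 := by
    unfold vv
    have hd : ∀ y ∈ uIcc (0 : ℝ) 1, HasDerivAt (fun y : ℝ => y ^ 2 / 4 - y ^ 3 / 6)
        (y * (1 - y) * (1 / 2)) y := by
      intro y _
      refine ((((hasDerivAt_id y).pow 2).div_const 4).sub (((hasDerivAt_id y).pow 3).div_const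
        6)).congr_deriv ?_
      simp only [id_eq]
      norm_num
      ring
    rw [intervalIntegral.integral_eq_sub_of_hasDerivAt hd
      (Continuous.intervalIntegrable (by fun_prop) _ _)]
    norm_num
  have h3 := Complex.re_le_norm (ww u)
  rw [h0] at h3
  linarith

/-- the shifted kernel is integrable -/
lemma ww_int {h : ℝ} (hh : 0 < h) (T : ℝ) :
    Integrable (fun x : ℝ => 12 * (1 + (h * (x - T)) ^ 2)⁻¹) ∧
      ∫ x : ℝ, 12 * (1 + (h * (x - T)) ^ 2)⁻¹ = 12 * Real.pi / h := by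
  have h1 : Integrable (fun x : ℝ => (1 + (h * (x - T)) ^ 2)⁻¹) :=
    ((integrable_inv_one_add_sq.comp_mul_left' hh.ne').comp_sub_right T)
  refine ⟨h1.const_mul 12, ?_⟩
  rw [integral_const_mul]
  have h2 : ∫ x : ℝ, (1 + (h * (x - T)) ^ 2)⁻¹ = ∫ x : ℝ, (1 + (h * x) ^ 2)⁻¹ :=
    integral_sub_right_eq_self (fun x : ℝ => (1 + (h * x) ^ 2)⁻¹) T
  have h3 := Measure.integral_comp_mul_left (fun x : ℝ => (1 + x ^ 2)⁻¹) h
  rw [h2, h3, integral_univ_inv_one_add_sq, smul_eq_mul, abs_of_pos (by positivity)]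
  field_simp

/-- **The kernel removes simple poles in the closed left half plane.** -/
theorem kern_pole {z : ℂ} (hz : 0 < z.re) {h : ℝ} (hh : 0 < h) (T : ℝ) :
    ‖∫ y in (0 : ℝ)..1, (vv y : ℂ) * exp (-(I * (h * y * T))) * (z - I * (h * y))⁻¹‖ ≤
      12 * Real.pi / h := by
  have hlap : ∀ y : ℝ, (z - I * (h * y))⁻¹ = ∫ x in Ioi (0 : ℝ), exp (-(z - I * (h * y)) * x) := by
    intro y
    have hre : (-(z - I * (h * y))).re < 0 := by
      simp
      exact hz
    rw [integral_exp_mul_complex_Ioi hre 0]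
    simp only [Complex.ofReal_zero, mul_zero, exp_zero]
    rw [neg_div_neg_eq, one_div]
  have hint : Integrable (Function.uncurry fun (y x : ℝ) => (vv y : ℂ) *
      exp (-(I * (h * y * T))) * exp (-(z - I * (h * y)) * x))
      ((volume.restrict (Ioc (0 : ℝ) 1)).prod (volume.restrict (Ioi (0 : ℝ)))) := by
    have i1 : Integrable (fun _ : ℝ => (1 : ℝ)) (volume.restrict (Ioc (0 : ℝ) 1)) :=
      integrable_const _
    have i2 : Integrable (fun x : ℝ => Real.exp (-z.re * x)) (volume.restrict (Ioi (0 : ℝ))) :=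
      integrableOn_exp_mul_Ioi (by linarith) 0
    have hm : AEStronglyMeasurable (Function.uncurry fun (y x : ℝ) => (vv y : ℂ) *
        exp (-(I * (h * y * T))) * exp (-(z - I * (h * y)) * x))
        ((volume.restrict (Ioc (0 : ℝ) 1)).prod (volume.restrict (Ioi (0 : ℝ)))) := by
      have := vv_cont
      refine Continuous.aestronglyMeasurable ?_
      simp only [Function.uncurry_def]
      fun_prop
    refine (i1.mul_prod i2).mono' hm ?_
    have hy : ∀ᵐ q : ℝ × ℝ ∂((volume.restrict (Ioc (0 : ℝ) 1)).prod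
        (volume.restrict (Ioi (0 : ℝ)))), q.1 ∈ Ioc (0 : ℝ) 1 := by
      have h1 : ∀ᵐ y : ℝ ∂(volume.restrict (Ioc (0 : ℝ) 1)), y ∈ Ioc (0 : ℝ) 1 :=
        ae_restrict_mem measurableSet_Ioc
      exact (Measure.quasiMeasurePreserving_fst).ae h1
    filter_upwards [hy] with q hq
    simp only [Function.uncurry]
    rw [norm_mul, norm_mul, Complex.norm_exp (-(z - _) * _)]
    have e1 : ‖exp (-(I * (h * q.1 * T)))‖ = 1 := by
      have : -(I * ((h : ℂ) * q.1 * T)) = I * ((-(h * q.1 * T) : ℝ) : ℂ) := by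
        push_cast
        ring
      rw [this, norm_exp_I]
    have e2 : (-(z - I * (h * q.1)) * q.2).re = -z.re * q.2 := by
      simp
    rw [e1, e2, mul_one]
    exact mul_le_mul_of_nonneg_right (vv_norm hq.1.le hq.2) (Real.exp_pos _).le
  have hsw : ∫ y in (0 : ℝ)..1, (vv y : ℂ) * exp (-(I * (h * y * T))) * (z - I * (h * y))⁻¹ =
      ∫ x in Ioi (0 : ℝ), exp (-(z * x)) * ww (h * (x - T)) := by
    rw [intervalIntegral.integral_of_le zero_le_one]
    have e1 : ∀ y : ℝ, (vv y : ℂ) * exp (-(I * (h * y * T))) * (z - I * (h * y))⁻¹ =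
        ∫ x in Ioi (0 : ℝ), (vv y : ℂ) * exp (-(I * (h * y * T))) *
          exp (-(z - I * (h * y)) * x) := by
      intro y
      rw [hlap y, ← integral_const_mul]
    simp only [e1]
    rw [integral_integral_swap hint]
    refine setIntegral_congr_fun measurableSet_Ioi fun x _ => ?_
    unfold ww
    rw [← intervalIntegral.integral_const_mul, intervalIntegral.integral_of_le zero_le_one]
    refine integral_congr_ae (Eventually.of_forall fun y => ?_)
    simp only
    have : exp (-(I * (h * y * T))) * exp (-(z - I * (h * y)) * x) =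
        exp (-(z * x)) * exp (I * (y * ((h * (x - T) : ℝ) : ℂ))) := by
      rw [← exp_add, ← exp_add]
      congr 1
      push_cast
      ring
    rw [mul_assoc, this]
    ring
  rw [hsw, ← (ww_int hh T).2]
  refine (norm_integral_le_integral_norm _).trans ?_
  have hb : ∀ x ∈ Ioi (0 : ℝ), ‖exp (-(z * x)) * ww (h * (x - T))‖ ≤
      12 * (1 + (h * (x - T)) ^ 2)⁻¹ := by
    intro x hx
    rw [norm_mul, Complex.norm_exp]
    have e2 : (-(z * x)).re = -(z.re * x) := by simp
    have e3 : Real.exp (-(z.re * x)) ≤ 1 := by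
      rw [Real.exp_le_one_iff]
      have : (0 : ℝ) < x := hx
      have := mul_pos hz this
      linarith
    rw [e2]
    calc Real.exp (-(z.re * x)) * ‖ww (h * (x - T))‖ ≤ 1 * ‖ww (h * (x - T))‖ :=
          mul_le_mul_of_nonneg_right e3 (norm_nonneg _)
      _ ≤ _ := by
        rw [one_mul]
        exact ww_le _
  have hnn : ∀ x : ℝ, 0 ≤ 12 * (1 + (h * (x - T)) ^ 2)⁻¹ := fun x => by positivity
  have hm2 : AEStronglyMeasurable (fun x : ℝ => exp (-(z * x)) * ww (h * (x - T)))
      (volume.restrict (Ioi 0)) := by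
    have := ww_cont
    exact Continuous.aestronglyMeasurable (by fun_prop)
  have hi1 : IntegrableOn (fun x : ℝ => 12 * (1 + (h * (x - T)) ^ 2)⁻¹) (Ioi 0) :=
    (ww_int hh T).1.integrableOn
  have hi2 : IntegrableOn (fun x : ℝ => exp (-(z * x)) * ww (h * (x - T))) (Ioi 0) := by
    refine Integrable.mono' hi1 hm2 ?_
    filter_upwards [ae_restrict_mem measurableSet_Ioi] with x hx
    exact hb x hx
  refine (setIntegral_mono_on hi2.norm hi1 measurableSet_Ioi hb).trans ?_
  exact setIntegral_le_integral (ww_int hh T).1 (Eventually.of_forall hnn)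

end Pool.Agent.Q195.CR
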