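import Pool.Agent.TH270.MS.PW
import Pool.Agent.Q195.CR.Kern

/-! A local mean square bound for a function whose Laplace transform has few poles near every point of
the imaginary axis. -/

set_option autoImplicit false

open MeasureTheory Filter Topology Set Complex
open scoped ENNReal

namespace Pool.Agent.Q195.CR

variable {H : ℂ → ℂ} {k : ℝ → ℂ} {h T a : ℝ}

/-- the mean of `H` over a vertical segment -/
noncomputable def av (H : ℂ → ℂ) (h T : ℝ) (s : ℂ) : ℂ :=
  ∫ y in (0 : ℝ)..1, (vv y : ℂ) * exp (-(I * (h * y * T))) * H (s - I * (h * y))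

lemma re_seg (s : ℂ) (h y : ℝ) : (s - I * (h * y)).re = s.re := by
  simp

lemma norm_e (h y T : ℝ) : ‖exp (-(I * ((h : ℂ) * y * T)))‖ = 1 := by
  have : -(I * ((h : ℂ) * y * T)) = I * ((-(h * y * T) : ℝ) : ℂ) := by
    push_cast
    ring
  rw [this, norm_exp_I]

lemma seg_cont (hd : ∀ s : ℂ, 0 < s.re → DifferentiableAt ℂ H s) {s : ℂ} (hs : 0 < s.re) (h : ℝ) :
    Continuous fun y : ℝ => H (s - I * (h * y)) := by
  rw [continuous_iff_continuousAt]
  intro y
  have h1 : ContinuousAt H (s - I * (h * y)) := (hd _ (by rw [re_seg]; exact hs)).continuousAt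
  exact ContinuousAt.comp (f := fun y : ℝ => s - I * ((h : ℂ) * y)) h1 (by fun_prop)

lemma av_diff (hd : ∀ s : ℂ, 0 < s.re → DifferentiableAt ℂ H s) {s : ℂ} (hs : 0 < s.re) :
    DifferentiableAt ℂ (av H h T) s := by
  have hU : IsOpen {s : ℂ | 0 < s.re} := isOpen_lt continuous_const Complex.continuous_re
  have hH : DifferentiableOn ℂ H {s : ℂ | 0 < s.re} := fun z hz => (hd z hz).differentiableWithinAt
  have hH' : DifferentiableOn ℂ (deriv H) {s : ℂ | 0 < s.re} := hH.deriv hU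
  set ρ : ℝ := s.re / 2 with hρ
  have hρ0 : 0 < ρ := by rw [hρ]; linarith
  have hre : ∀ z ∈ Metric.closedBall s ρ, ∀ y : ℝ, 0 < (z - I * (h * y)).re := by
    intro z hz y
    rw [re_seg]
    rw [mem_closedBall_iff_norm] at hz
    have h1 := (Complex.abs_re_le_norm (z - s)).trans hz
    rw [Complex.sub_re] at h1
    have h2 := (abs_le.1 h1).1
    rw [hρ] at h2
    linarith
  -- a bound for the derivative
  obtain ⟨B, hB⟩ : ∃ B : ℝ, ∀ z ∈ Metric.closedBall s ρ, ∀ y ∈ Icc (0 : ℝ) 1,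
      ‖deriv H (z - I * (h * y))‖ ≤ B := by
    have hc : IsCompact (Metric.closedBall s ρ ×ˢ Icc (0 : ℝ) 1) :=
      (isCompact_closedBall s ρ).prod isCompact_Icc
    have hcont : ContinuousOn (fun q : ℂ × ℝ => deriv H (q.1 - I * (h * q.2)))
        (Metric.closedBall s ρ ×ˢ Icc (0 : ℝ) 1) := by
      refine hH'.continuousOn.comp (by fun_prop) ?_
      rintro ⟨z, y⟩ ⟨hz, -⟩
      exact hre z hz y
    obtain ⟨B, hB⟩ := hc.exists_bound_of_continuousOn hcont
    exact ⟨B, fun z hz y hy => hB (z, y) ⟨hz, hy⟩⟩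
  have hdc : Continuous fun y : ℝ => deriv H (s - I * (h * y)) := by
    rw [continuous_iff_continuousAt]
    intro y
    have h1 : ContinuousAt (deriv H) (s - I * (h * y)) :=
      (hH'.continuousOn).continuousAt (hU.mem_nhds (by
        show 0 < (s - I * (h * y)).re
        rw [re_seg]
        exact hs))
    exact ContinuousAt.comp (f := fun y : ℝ => s - I * ((h : ℂ) * y)) h1 (by fun_prop)
  have hv := vv_cont
  have key := intervalIntegral.hasDerivAt_integral_of_dominated_loc_of_deriv_le (μ := volume)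
    (𝕜 := ℂ) (a := 0) (b := 1)
    (F := fun (z : ℂ) (y : ℝ) => (vv y : ℂ) * exp (-(I * (h * y * T))) * H (z - I * (h * y)))
    (F' := fun (z : ℂ) (y : ℝ) => (vv y : ℂ) * exp (-(I * (h * y * T))) *
      deriv H (z - I * (h * y)))
    (x₀ := s) (s := Metric.ball s ρ) (bound := fun _ => B)
    (Metric.ball_mem_nhds s hρ0) ?_ ?_ ?_ ?_ intervalIntegrable_const ?_
  · exact key.2.differentiableAt
  · filter_upwards [Metric.ball_mem_nhds s hρ0] with z hz
    have hz0 : 0 < z.re := by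
      have := hre z (Metric.ball_subset_closedBall hz) 0
      rwa [re_seg] at this
    have h5 := seg_cont hd hz0 h
    exact Continuous.aestronglyMeasurable (Continuous.mul (by fun_prop) h5)
  · have h5 := seg_cont hd hs h
    exact Continuous.intervalIntegrable (Continuous.mul (by fun_prop) h5) _ _
  · exact Continuous.aestronglyMeasurable (by fun_prop)
  · refine Eventually.of_forall fun y hy z hz => ?_
    rw [uIoc_of_le zero_le_one] at hy
    rw [norm_mul, norm_mul, norm_e, mul_one]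
    have h1 := hB z (Metric.ball_subset_closedBall hz) y ⟨hy.1.le, hy.2⟩
    calc ‖(vv y : ℂ)‖ * ‖deriv H (z - I * (h * y))‖ ≤ 1 * B :=
          mul_le_mul (vv_norm hy.1.le hy.2) h1 (norm_nonneg _) zero_le_one
      _ = B := one_mul _
  · refine Eventually.of_forall fun y _ z hz => ?_
    have h1 : HasDerivAt H (deriv H (z - I * (h * y))) (z - I * (h * y)) :=
      (hd _ (hre z (Metric.ball_subset_closedBall hz) y)).hasDerivAt
    have h2 : HasDerivAt (fun z : ℂ => z - I * ((h : ℂ) * y)) 1 z :=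
      (hasDerivAt_id z).sub_const _
    have h3 : HasDerivAt (fun z : ℂ => H (z - I * ((h : ℂ) * y)))
        (deriv H (z - I * (h * y)) * 1) z := HasDerivAt.comp z h1 h2
    rw [mul_one] at h3
    exact h3.const_mul _

lemma av_le {B : ℝ} {s : ℂ} (hB : ∀ y ∈ Icc (0 : ℝ) 1, ‖H (s - I * (h * y))‖ ≤ B) :
    ‖av H h T s‖ ≤ B := by
  unfold av
  have hB0 : 0 ≤ B := (norm_nonneg _).trans (hB 0 ⟨le_rfl, zero_le_one⟩)
  refine (intervalIntegral.norm_integral_le_of_norm_le_const (C := B) fun y hy => ?_).trans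
    (by norm_num)
  rw [uIoc_of_le zero_le_one] at hy
  rw [norm_mul, norm_mul, norm_e, mul_one]
  calc ‖(vv y : ℂ)‖ * ‖H (s - I * (h * y))‖ ≤ 1 * B :=
        mul_le_mul (vv_norm hy.1.le hy.2) (hB y ⟨hy.1.le, hy.2⟩) (norm_nonneg _) zero_le_one
    _ = B := one_mul _

/-- poles -/
lemma av_pole (hd : ∀ s : ℂ, 0 < s.re → DifferentiableAt ℂ H s) {s : ℂ} (hs : 0 < s.re)
    (hh : 0 < h) {M : ℝ} {n : ℕ} {c z : Fin n → ℂ} (hz : ∀ i, (z i).re ≤ 0)
    (hc : ∑ i, ‖c i‖ ≤ M)
    (hb : ∀ y ∈ Icc (0 : ℝ) 1, ‖H (s - I * (h * y)) - ∑ i, c i * (s - I * (h * y) - z i)⁻¹‖ ≤ M) :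
    ‖av H h T s‖ ≤ (12 * Real.pi / h + 1) * M := by
  have hv := vv_cont
  have hpre : ∀ i, 0 < (s - z i).re := fun i => by
    rw [Complex.sub_re]
    linarith [hz i]
  have hne : ∀ i, ∀ y : ℝ, s - I * ((h : ℂ) * y) - z i ≠ 0 := by
    intro i y h0
    have h1 := congrArg Complex.re h0
    rw [Complex.sub_re, re_seg, Complex.zero_re] at h1
    linarith [hz i]
  have hpc : ∀ i, Continuous fun y : ℝ => (s - I * ((h : ℂ) * y) - z i)⁻¹ := fun i =>
    Continuous.inv₀ (by fun_prop) (hne i)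
  have hHc := seg_cont hd hs h
  have hsum : Continuous fun y : ℝ => ∑ i, c i * (s - I * ((h : ℂ) * y) - z i)⁻¹ :=
    continuous_finsetSum _ fun i _ => (hpc i).const_mul _
  have e1 : av H h T s = (∫ y in (0 : ℝ)..1, (vv y : ℂ) * exp (-(I * (h * y * T))) *
      ∑ i, c i * (s - I * (h * y) - z i)⁻¹) +
      ∫ y in (0 : ℝ)..1, (vv y : ℂ) * exp (-(I * (h * y * T))) *
        (H (s - I * (h * y)) - ∑ i, c i * (s - I * (h * y) - z i)⁻¹) := by
    have j1 : IntervalIntegrable (fun y : ℝ => (vv y : ℂ) * exp (-(I * (h * y * T))) *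
        ∑ i, c i * (s - I * (h * y) - z i)⁻¹) volume 0 1 :=
      Continuous.intervalIntegrable (Continuous.mul (by fun_prop) hsum) _ _
    have j2 : IntervalIntegrable (fun y : ℝ => (vv y : ℂ) * exp (-(I * (h * y * T))) *
        (H (s - I * (h * y)) - ∑ i, c i * (s - I * (h * y) - z i)⁻¹)) volume 0 1 :=
      Continuous.intervalIntegrable (Continuous.mul (by fun_prop) (hHc.sub hsum)) _ _
    unfold av
    rw [← intervalIntegral.integral_add j1 j2]
    refine intervalIntegral.integral_congr fun y _ => ?_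
    ring
  have e2 : ∫ y in (0 : ℝ)..1, (vv y : ℂ) * exp (-(I * (h * y * T))) *
      ∑ i, c i * (s - I * (h * y) - z i)⁻¹ =
      ∑ i, c i * ∫ y in (0 : ℝ)..1, (vv y : ℂ) * exp (-(I * (h * y * T))) *
        (s - z i - I * (h * y))⁻¹ := by
    have h1 : ∀ y : ℝ, (vv y : ℂ) * exp (-(I * (h * y * T))) *
        ∑ i, c i * (s - I * (h * y) - z i)⁻¹ = ∑ i, c i * ((vv y : ℂ) *
          exp (-(I * (h * y * T))) * (s - z i - I * (h * y))⁻¹) := by
      intro y
      rw [Finset.mul_sum]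
      refine Finset.sum_congr rfl fun i _ => ?_
      rw [show s - I * ((h : ℂ) * y) - z i = s - z i - I * (h * y) by ring]
      ring
    simp only [h1]
    rw [intervalIntegral.integral_finsetSum]
    · refine Finset.sum_congr rfl fun i _ => ?_
      rw [intervalIntegral.integral_const_mul]
    · intro i _
      have h2 : Continuous fun y : ℝ => (s - z i - I * ((h : ℂ) * y))⁻¹ := by
        refine (hpc i).congr fun y => ?_
        rw [show s - I * ((h : ℂ) * y) - z i = s - z i - I * (h * y) by ring]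
      exact Continuous.intervalIntegrable (by fun_prop) _ _
  have h12 : 0 ≤ 12 * Real.pi / h := by positivity
  have e3 : ‖∑ i, c i * ∫ y in (0 : ℝ)..1, (vv y : ℂ) * exp (-(I * (h * y * T))) *
        (s - z i - I * (h * y))⁻¹‖ ≤ 12 * Real.pi / h * M := by
    refine (norm_sum_le _ _).trans ?_
    have h1 : ∀ i ∈ Finset.univ, ‖c i * ∫ y in (0 : ℝ)..1, (vv y : ℂ) *
        exp (-(I * (h * y * T))) * (s - z i - I * (h * y))⁻¹‖ ≤ ‖c i‖ * (12 * Real.pi / h) := by
      intro i _
      rw [norm_mul]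
      exact mul_le_mul_of_nonneg_left (kern_pole (hpre i) hh T) (norm_nonneg _)
    refine (Finset.sum_le_sum h1).trans ?_
    rw [← Finset.sum_mul, mul_comm]
    exact mul_le_mul_of_nonneg_left hc h12
  have e4 : ‖∫ y in (0 : ℝ)..1, (vv y : ℂ) * exp (-(I * (h * y * T))) *
        (H (s - I * (h * y)) - ∑ i, c i * (s - I * (h * y) - z i)⁻¹)‖ ≤ M := by
    have hM0 : 0 ≤ M := (norm_nonneg _).trans (hb 0 ⟨le_rfl, zero_le_one⟩)
    refine (intervalIntegral.norm_integral_le_of_norm_le_const (C := M) fun y hy => ?_).trans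
      (by norm_num)
    rw [uIoc_of_le zero_le_one] at hy
    rw [norm_mul, norm_mul, norm_e, mul_one]
    calc _ ≤ 1 * M := mul_le_mul (vv_norm hy.1.le hy.2) (hb y ⟨hy.1.le, hy.2⟩)
          (norm_nonneg _) zero_le_one
      _ = M := one_mul _
  rw [e1, e2]
  refine (norm_add_le _ _).trans ?_
  linarith

/-- the mean is a Laplace transform -/
lemma av_lap (hk : ∀ x : ℝ, a < x → Integrable fun u : ℝ => k u * exp (-(x * u)))
    (hH : ∀ s : ℂ, a < s.re → H s = ∫ u : ℝ, k u * exp (-(s * u))) {s : ℂ} (hs : a < s.re) :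
    av H h T s = ∫ u : ℝ, (k u * ww (h * (u - T))) * exp (-(s * u)) := by
  have hv := vv_cont
  have hks := hk s.re hs
  have hkm : AEStronglyMeasurable (fun u : ℝ => k u * exp (-(s * u))) volume := by
    have h1 : (fun u : ℝ => k u * exp (-(s * u))) =
        fun u : ℝ => (k u * exp (-((s.re : ℂ) * u))) * exp (-((s - s.re) * u)) := by
      ext u
      rw [mul_assoc, ← exp_add]
      congr 2
      ring
    rw [h1]
    exact hks.aestronglyMeasurable.mul (Continuous.aestronglyMeasurable (by fun_prop))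
  have hint : Integrable (Function.uncurry fun (y u : ℝ) => (vv y : ℂ) *
      exp (-(I * (h * y * T))) * (k u * exp (-((s - I * (h * y)) * u))))
      ((volume.restrict (Ioc (0 : ℝ) 1)).prod volume) := by
    have i1 : Integrable (fun _ : ℝ => (1 : ℝ)) (volume.restrict (Ioc (0 : ℝ) 1)) :=
      integrable_const _
    have i2 := hks.norm
    have hm : AEStronglyMeasurable (Function.uncurry fun (y u : ℝ) => (vv y : ℂ) *
        exp (-(I * (h * y * T))) * (k u * exp (-((s - I * (h * y)) * u))))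
        ((volume.restrict (Ioc (0 : ℝ) 1)).prod volume) := by
      have h1 : (Function.uncurry fun (y u : ℝ) => (vv y : ℂ) *
          exp (-(I * (h * y * T))) * (k u * exp (-((s - I * (h * y)) * u)))) =
          fun q : ℝ × ℝ => ((vv q.1 : ℂ) * exp (-(I * (h * q.1 * T))) *
            exp (I * (h * q.1) * q.2)) * (k q.2 * exp (-(s * q.2))) := by
        ext ⟨y, u⟩
        simp only [Function.uncurry]
        have : exp (-((s - I * (h * y)) * u)) = exp (I * (h * y) * u) * exp (-(s * u)) := by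
          rw [← exp_add]
          congr 1
          ring
        rw [this]
        ring
      rw [h1]
      refine AEStronglyMeasurable.mul (Continuous.aestronglyMeasurable (by fun_prop)) ?_
      exact hkm.comp_snd
    refine (i1.mul_prod i2).mono' hm ?_
    have hy : ∀ᵐ q : ℝ × ℝ ∂((volume.restrict (Ioc (0 : ℝ) 1)).prod volume),
        q.1 ∈ Ioc (0 : ℝ) 1 := by
      have h1 : ∀ᵐ y : ℝ ∂(volume.restrict (Ioc (0 : ℝ) 1)), y ∈ Ioc (0 : ℝ) 1 :=
        ae_restrict_mem measurableSet_Ioc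
      exact (Measure.quasiMeasurePreserving_fst).ae h1
    filter_upwards [hy] with q hq
    simp only [Function.uncurry]
    rw [norm_mul, norm_mul, norm_e, mul_one]
    refine mul_le_mul (vv_norm hq.1.le hq.2) (le_of_eq ?_) (norm_nonneg _) zero_le_one
    rw [norm_mul, norm_mul, Complex.norm_exp, Complex.norm_exp]
    congr 2
    simp
  unfold av
  rw [intervalIntegral.integral_of_le zero_le_one]
  have e1 : ∀ y : ℝ, (vv y : ℂ) * exp (-(I * (h * y * T))) * H (s - I * (h * y)) =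
      ∫ u : ℝ, (vv y : ℂ) * exp (-(I * (h * y * T))) *
        (k u * exp (-((s - I * (h * y)) * u))) := by
    intro y
    rw [hH _ (by rw [re_seg]; exact hs), ← integral_const_mul]
  simp only [e1]
  rw [integral_integral_swap hint]
  refine integral_congr_ae (Eventually.of_forall fun u => ?_)
  simp only
  unfold ww
  have e2 : ∀ y : ℝ, (vv y : ℂ) * exp (-(I * (h * y * T))) *
      (k u * exp (-((s - I * (h * y)) * u))) = (k u * exp (-(s * u))) *
        ((vv y : ℂ) * exp (I * (y * ((h * (u - T) : ℝ) : ℂ)))) := by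
    intro y
    have : exp (-(I * (h * y * T))) * exp (-((s - I * (h * y)) * u)) =
        exp (-(s * u)) * exp (I * (y * ((h * (u - T) : ℝ) : ℂ))) := by
      rw [← exp_add, ← exp_add]
      congr 1
      push_cast
      ring
    calc _ = (vv y : ℂ) * k u * (exp (-(I * (h * y * T))) *
          exp (-((s - I * (h * y)) * u))) := by ring
      _ = _ := by
        rw [this]
        ring
  simp only [e2]
  rw [integral_const_mul, intervalIntegral.integral_of_le zero_le_one]
  ring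

/-- **The local form of the theorem of Paley and Wiener.** -/
theorem local_pw {δ₀ : ℝ} {M : ℝ → ℝ} (ha : 0 ≤ a) (hδ₀ : 0 < δ₀) (hh : 0 < h)
    (hk1 : ∀ x : ℝ, a < x → Integrable fun u : ℝ => k u * exp (-(x * u)))
    (hk2 : ∀ x : ℝ, a < x → MemLp (fun u : ℝ => k u * exp (-(x * u))) 2)
    (hH : ∀ s : ℂ, a < s.re → H s = ∫ u : ℝ, k u * exp (-(s * u)))
    (hd : ∀ s : ℂ, 0 < s.re → DifferentiableAt ℂ H s)
    (hb : ∀ δ : ℝ, 0 < δ → ∃ B : ℝ, ∀ s : ℂ, δ ≤ s.re → s.re ≤ a + 1 → ‖H s‖ ≤ B)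
    (hloc : ∀ δ : ℝ, 0 < δ → δ < δ₀ → ∀ t : ℝ, ∃ (n : ℕ) (c z : Fin n → ℂ), (∀ i, (z i).re ≤ 0) ∧
      ∑ i, ‖c i‖ ≤ M t ∧ ∀ y ∈ Icc (0 : ℝ) 1, ‖H (δ + t * I - I * (h * y)) -
        ∑ i, c i * (δ + t * I - I * (h * y) - z i)⁻¹‖ ≤ M t) (T : ℝ) :
    ∫⁻ u : ℝ, ‖k u * ww (h * (u - T))‖ₑ ^ 2 ≤
      ENNReal.ofReal ((12 * Real.pi / h + 1) ^ 2) * ∫⁻ t : ℝ, ENNReal.ofReal (M t ^ 2) := by
  have hwc : Continuous fun u : ℝ => ww (h * (u - T)) := ww_cont.comp (by fun_prop)
  have hc0 : 0 ≤ 12 * Real.pi / h + 1 := by positivity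
  refine Pool.Agent.TH270.MS.paley_wiener (k := fun u => k u * ww (h * (u - T)))
    (H := av H h T) (a := a) (δ₀ := δ₀) ha hδ₀ ?_ ?_ ?_ ?_ ?_ ?_
  · intro x hx
    have h1 : (fun u : ℝ => k u * ww (h * (u - T)) * exp (-((x : ℂ) * u))) =
        fun u : ℝ => ww (h * (u - T)) * (k u * exp (-((x : ℂ) * u))) := by
      ext u
      ring
    rw [h1]
    refine (hk1 x hx).bdd_mul hwc.aestronglyMeasurable (c := 1) ?_
    exact Eventually.of_forall fun u => ww_norm_le_one _
  · intro x hx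
    have h1 : (fun u : ℝ => k u * ww (h * (u - T)) * exp (-((x : ℂ) * u))) =
        fun u : ℝ => (k u * exp (-((x : ℂ) * u))) * ww (h * (u - T)) := by
      ext u
      ring
    rw [h1]
    refine (hk2 x hx).of_le ((hk2 x hx).1.mul hwc.aestronglyMeasurable)
      (Eventually.of_forall fun u => ?_)
    rw [norm_mul]
    exact mul_le_of_le_one_right (norm_nonneg _) (ww_norm_le_one _)
  · intro s hs
    exact av_lap hk1 hH hs
  · intro s hs
    exact av_diff hd hs
  · intro δ hδ
    obtain ⟨B, hB⟩ := hb δ hδ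
    refine ⟨B, fun s h1 h2 => av_le fun y _ => hB _ ?_ ?_⟩
    · rwa [re_seg]
    · rwa [re_seg]
  · intro δ hδ hδ1
    rw [← lintegral_const_mul' _ _ ENNReal.ofReal_ne_top]
    refine lintegral_mono fun t => ?_
    obtain ⟨n, c, z, h1, h2, h3⟩ := hloc δ hδ hδ1 t
    have h4 := av_pole (T := T) hd (s := (δ : ℂ) + t * I) (by simpa using hδ) hh h1 h2 h3
    have hM0 : 0 ≤ M t := (Finset.sum_nonneg fun i _ => norm_nonneg _).trans h2
    rw [← ofReal_norm, ← ENNReal.ofReal_pow (norm_nonneg _), ← ENNReal.ofReal_mul (by positivity),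
      ← mul_pow]
    exact ENNReal.ofReal_le_ofReal (pow_le_pow_left₀ (norm_nonneg _) h4 2)

/-- the bound on an interval -/
theorem local_bound {K : ℝ≥0∞} (hh : 0 < h) (hh1 : h ≤ 1) {T : ℝ}
    (hk : ∫⁻ u : ℝ, ‖k u * ww (h * (u - T))‖ₑ ^ 2 ≤ K) :
    ∫⁻ u in Icc T (T + 1), ‖k u‖ₑ ^ 2 ≤ 144 * K := by
  have h1 : ∫⁻ u in Icc T (T + 1), ‖k u‖ₑ ^ 2 ≤
      ∫⁻ u in Icc T (T + 1), 144 * ‖k u * ww (h * (u - T))‖ₑ ^ 2 := by
    refine setLIntegral_mono_ae' measurableSet_Icc (Eventually.of_forall fun u hu => ?_)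
    have h2 : |h * (u - T)| ≤ 1 := by
      rw [abs_of_nonneg (mul_nonneg hh.le (by linarith [hu.1]))]
      have : u - T ≤ 1 := by linarith [hu.2]
      have h0 : 0 ≤ u - T := by linarith [hu.1]
      nlinarith
    have h3 := ww_low h2
    rw [← ofReal_norm, ← ofReal_norm, ← ENNReal.ofReal_pow (norm_nonneg _),
      ← ENNReal.ofReal_pow (norm_nonneg _), norm_mul]
    rw [show (144 : ℝ≥0∞) = ENNReal.ofReal 144 by norm_num, ← ENNReal.ofReal_mul (by norm_num)]
    apply ENNReal.ofReal_le_ofReal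
    have h4 : 1 ≤ 144 * ‖ww (h * (u - T))‖ ^ 2 := by nlinarith
    nlinarith [sq_nonneg ‖k u‖]
  refine h1.trans ?_
  rw [lintegral_const_mul' _ _ (by norm_num)]
  gcongr
  exact (setLIntegral_le_lintegral _ _).trans hk

end Pool.Agent.Q195.CR
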