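import Pool.Agent.Q195.CR.Struct

/-! The Laplace transform near a point of the imaginary axis. -/

set_option autoImplicit false

open MeasureTheory Filter Topology Set Complex
open scoped ENNReal

namespace Pool.Agent.Q195.CR

open Pool.Agent.TH270.MS

/-- `1 + log (1 + |t|)` -/
noncomputable def el (t : ℝ) : ℝ := 1 + Real.log (1 + |t|)

lemma el_one (t : ℝ) : 1 ≤ el t := by
  unfold el
  have : 0 ≤ Real.log (1 + |t|) := Real.log_nonneg (by linarith [abs_nonneg t])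
  linarith

/-- the Laplace transform -/
noncomputable def KK (G₀ : ℂ → ℂ) (k : ℕ) (r : ℝ) (s : ℂ) : ℂ :=
  (deriv G₀ s / G₀ s - k / s) / (1 + s) - r / s

/-- the data -/
structure Gd (G₀ : ℂ → ℂ) (η a C B : ℝ) (κ : ℕ) : Prop where
  hη : 0 < η
  hη1 : η ≤ 1
  ha : 1 ≤ a
  hG : ∀ s : ℂ, -η < s.re → DifferentiableAt ℂ G₀ s
  hgrow : ∀ s : ℂ, -η < s.re → ‖G₀ s‖ ≤ C * (1 + ‖s‖) ^ κ
  hne : ∀ s : ℂ, 0 < s.re → G₀ s ≠ 0
  hB : 0 ≤ B
  hlow : ∀ t : ℝ, Real.exp (-(B * el t)) ≤ ‖G₀ (a + t * I)‖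

variable {G₀ : ℂ → ℂ} {η a C B : ℝ} {κ : ℕ}

theorem Gd.zeros (H : Gd G₀ η a C B κ) : ∃ A : ℝ, 0 ≤ A ∧ ∀ t : ℝ, ∃ (n : ℕ) (ρ : Fin n → ℂ),
    (n : ℝ) ≤ A * el t ∧ (∀ i, (ρ i).re ≤ 0 ∧ -(1 / 2) ≤ (ρ i).re ∧ |(ρ i).im - t| ≤ a + 1) ∧
    ∀ s : ℂ, 0 < s.re → s.re < 1 → |s.im - t| ≤ η / 5 →
      ‖deriv G₀ s / G₀ s - ∑ i, (s - ρ i)⁻¹‖ ≤ A * el t := by
  have hη := H.hη
  have hη1 := H.hη1
  have ha := H.ha
  have hB := H.hB
  have hC0 : 0 ≤ C := by
    have := (norm_nonneg _).trans (H.hgrow 0 (by simpa using hη))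
    simpa using this
  set r : ℝ := a + η / 5 with hr
  set R' : ℝ := a + 2 * η / 5 with hR'
  set R : ℝ := a + 3 * η / 5 with hR
  set R₁ : ℝ := a + 4 * η / 5 with hR₁
  have hr0 : 0 < r := by rw [hr]; linarith
  have h1 : r < R' := by rw [hr, hR']; linarith
  have h2 : R' < R := by rw [hR, hR']; linarith
  have h3 : R < R₁ := by rw [hR, hR₁]; linarith
  have hR'0 : 0 < R' := by linarith
  have hR0 : 0 < R := by linarith
  set A₀ : ℝ := Real.log (C + 1) + κ * (Real.log (2 * a + 2) + 1) with hA₀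
  have hlC : 0 ≤ Real.log (C + 1) := Real.log_nonneg (by linarith)
  have hla : 0 ≤ Real.log (2 * a + 2) := Real.log_nonneg (by linarith)
  have hA₀0 : 0 ≤ A₀ := by positivity
  have hq : 0 < Real.log (R / R') := Real.log_pos ((one_lt_div hR'0).2 h2)
  have hD : 0 < R ^ 2 - R' * r := by nlinarith
  have hc := c1_nonneg hr0 h1
  set A₁ : ℝ := (A₀ + B) / Real.log (R / R') with hA₁
  have hA₁0 : 0 ≤ A₁ := by positivity
  refine ⟨A₁ + A₁ * (R' / (R ^ 2 - R' * r)) + c1 r R' * (A₀ + B + 1), by positivity, fun t => ?_⟩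
  have hel := el_one t
  have hlt : 0 ≤ Real.log (1 + |t|) := Real.log_nonneg (by linarith [abs_nonneg t])
  set z₀ : ℂ := a + t * I with hz₀
  set M : ℝ := (C + 1) * ((2 * a + 2) * (1 + |t|)) ^ κ with hM
  have hbase : 0 < (2 * a + 2) * (1 + |t|) := by
    have := abs_nonneg t
    positivity
  have hlogM : Real.log M ≤ A₀ * el t := by
    rw [hM, Real.log_mul (by positivity) (by positivity), Real.log_pow,
      Real.log_mul (by positivity) (by positivity), hA₀]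
    have hk0 : (0 : ℝ) ≤ κ := Nat.cast_nonneg κ
    unfold el
    nlinarith [mul_nonneg hk0 hla, mul_nonneg hlC hlt, mul_nonneg (mul_nonneg hk0 hla) hlt,
      mul_nonneg hk0 hlt]
  have hre : ∀ z : ℂ, ‖z‖ < a + η → -η < (z₀ + z).re := by
    intro z hz
    have e1 := (abs_le.1 (Complex.abs_re_le_norm z)).1
    rw [hz₀]
    simp
    linarith
  obtain ⟨n, ρ, k1, k2, k3⟩ := disc_deriv (f := fun z => G₀ (z₀ + z)) (M := M) (m := B * el t)
    hr0 h1 h2 h3 (by
      intro z hz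
      rw [mem_ball_zero_iff] at hz
      have e1 : DifferentiableAt ℂ G₀ (z₀ + z) := H.hG _ (hre z (by rw [hR₁] at hz; linarith))
      exact (DifferentiableAt.comp (f := fun z : ℂ => z₀ + z) z e1
        (by fun_prop)).differentiableWithinAt) (by
      intro z hz
      refine (H.hgrow _ (hre z (by rw [hR] at hz; linarith))).trans ?_
      have e1 : ‖z₀ + z‖ ≤ a + |t| + R := by
        refine (norm_add_le _ _).trans (add_le_add ?_ hz)
        rw [hz₀]
        refine (norm_add_le _ _).trans ?_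
        rw [norm_mul, norm_I, mul_one, Complex.norm_real, Complex.norm_real, Real.norm_eq_abs,
          Real.norm_eq_abs, abs_of_nonneg (by linarith : 0 ≤ a)]
      have e2 : 1 + ‖z₀ + z‖ ≤ (2 * a + 2) * (1 + |t|) := by
        have := abs_nonneg t
        rw [hR] at e1
        nlinarith
      rw [hM]
      exact mul_le_mul (by linarith) (pow_le_pow_left₀ (by positivity) e2 κ) (by positivity)
        (by linarith)) (by
      simp only [add_zero]
      rw [hz₀]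
      exact H.hlow t)
  have hn : (n : ℝ) ≤ A₁ * el t := by
    rw [hA₁, div_mul_eq_mul_div, le_div_iff₀ hq]
    nlinarith
  refine ⟨n, fun i => z₀ + ρ i, ?_, fun i => ?_, fun s hs0 hs1 hst => ?_⟩
  · refine hn.trans (mul_le_mul_of_nonneg_right ?_ (by linarith))
    have e1 : 0 ≤ A₁ * (R' / (R ^ 2 - R' * r)) := by positivity
    have e2 : 0 ≤ c1 r R' * (A₀ + B + 1) := by positivity
    linarith
  · obtain ⟨e1, e2⟩ := k2 i
    have e3 := abs_le.1 (Complex.abs_re_le_norm (ρ i))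
    have e4 := Complex.abs_im_le_norm (ρ i)
    refine ⟨?_, ?_, ?_⟩
    · by_contra hcon
      exact H.hne _ (not_le.1 hcon) e2
    · rw [hz₀]
      simp
      rw [hR'] at e1
      linarith [e3.1]
    · rw [hz₀]
      simp
      rw [hR'] at e1
      linarith
  · have e1 : ‖s - z₀‖ ≤ r := by
      have e2 : ‖s - z₀‖ ≤ |(s - z₀).re| + |(s - z₀).im| := Complex.norm_le_abs_re_add_abs_im _
      rw [hz₀] at e2 ⊢
      simp at e2
      have e3 : |s.re - a| ≤ a := by
        rw [abs_le]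
        constructor <;> linarith
      rw [hr]
      linarith
    have e4 := k3 (s - z₀) e1 (by
      simp only [add_sub_cancel]
      exact H.hne s hs0)
    have e5 : deriv (fun z => G₀ (z₀ + z)) (s - z₀) = deriv G₀ s := by
      rw [deriv_comp_const_add, add_sub_cancel]
    simp only [add_sub_cancel] at e4
    rw [e5] at e4
    have e6 : ∑ i, (s - (z₀ + ρ i))⁻¹ = ∑ i, (s - z₀ - ρ i)⁻¹ :=
      Finset.sum_congr rfl fun i _ => by rw [sub_sub]
    rw [e6]
    refine e4.trans ?_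
    have e7 : (n : ℝ) * (R' / (R ^ 2 - R' * r)) ≤ A₁ * el t * (R' / (R ^ 2 - R' * r)) :=
      mul_le_mul_of_nonneg_right hn (by positivity)
    have e8 : c1 r R' * (Real.log M + B * el t + 1) ≤ c1 r R' * ((A₀ + B + 1) * el t) := by
      refine mul_le_mul_of_nonneg_left ?_ hc
      nlinarith
    have e9 : 0 ≤ A₁ * el t := by positivity
    nlinarith

/-- **The structure of the transform near the imaginary axis.** -/
theorem Gd.struct (H : Gd G₀ η a C B κ) (k : ℕ) {r p : ℝ} (hp : 0 ≤ p) (hr : r = p - k) :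
    ∃ A' : ℝ, 0 ≤ A' ∧ ∀ δ : ℝ, 0 < δ → δ < 1 → ∀ t : ℝ, ∃ (n : ℕ) (c z : Fin n → ℂ),
      (∀ i, (z i).re ≤ 0) ∧ ∑ i, ‖c i‖ ≤ A' * el t / (1 + |t|) ∧ ∀ y ∈ Icc (0 : ℝ) 1,
      ‖KK G₀ k r (δ + t * I - I * ((η / 5 : ℝ) * y)) -
        ∑ i, c i * (δ + t * I - I * ((η / 5 : ℝ) * y) - z i)⁻¹‖ ≤ A' * el t / (1 + |t|) := by
  have hη := H.hη
  have hη1 := H.hη1
  have ha := H.ha
  obtain ⟨A, hA, hz⟩ := H.zeros
  set D : ℝ := 4 * a + 6 with hD
  have hD0 : 0 < D := by rw [hD]; linarith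
  have hk0 : (0 : ℝ) ≤ k := Nat.cast_nonneg k
  refine ⟨A * D + 3 * p + 3 * k + A * D + 3 * A + 3 * p, by positivity, fun δ hδ hδ1 t => ?_⟩
  obtain ⟨n, ρ, h1, h2, h3⟩ := hz t
  have hel := el_one t
  have ht0 := abs_nonneg t
  have ht1 : 0 < 1 + |t| := by linarith
  have hρ1 : ∀ i, (1 + |t|) / D ≤ ‖1 + ρ i‖ := by
    intro i
    obtain ⟨e1, e2, e3⟩ := h2 i
    rw [div_le_iff₀ hD0]
    rcases le_or_gt (2 * (a + 1)) |t| with h | h
    · have e4 : |t| / 2 ≤ ‖1 + ρ i‖ := by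
        have e5 := Complex.abs_im_le_norm (1 + ρ i)
        rw [Complex.add_im, Complex.one_im, zero_add] at e5
        have e6 := abs_sub_abs_le_abs_sub t (ρ i).im
        rw [abs_sub_comm t] at e6
        linarith
      rw [hD]
      nlinarith
    · have e4 : 1 / 2 ≤ ‖1 + ρ i‖ := by
        have e5 := Complex.re_le_norm (1 + ρ i)
        rw [Complex.add_re, Complex.one_re] at e5
        linarith
      rw [hD]
      nlinarith
  have hρ0 : ∀ i, (1 : ℂ) + ρ i ≠ 0 := by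
    intro i h0
    have := hρ1 i
    rw [h0, norm_zero] at this
    have h4 : 0 < (1 + |t|) / D := by positivity
    linarith
  have hinv : ∀ i, ‖(1 + ρ i)⁻¹‖ ≤ D / (1 + |t|) := by
    intro i
    rw [norm_inv]
    have h4 : 0 < (1 + |t|) / D := by positivity
    have h5 := inv_anti₀ h4 (hρ1 i)
    rwa [inv_div] at h5
  have hsum : ∑ i, ‖(1 + ρ i)⁻¹‖ ≤ A * D * el t / (1 + |t|) := by
    refine (Finset.sum_le_sum fun i _ => hinv i).trans ?_
    rw [Finset.sum_const, Finset.card_univ, Fintype.card_fin, nsmul_eq_mul]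
    calc (n : ℝ) * (D / (1 + |t|)) ≤ (A * el t) * (D / (1 + |t|)) :=
          mul_le_mul_of_nonneg_right h1 (by positivity)
      _ = _ := by ring
  set q : ℂ := if |t| < 2 then -(p : ℂ) else 0 with hq
  have hqn : ‖q‖ ≤ 3 * p * el t / (1 + |t|) := by
    rw [hq]
    split_ifs with h
    · rw [norm_neg, Complex.norm_real, Real.norm_of_nonneg hp, le_div_iff₀ ht1]
      nlinarith [mul_nonneg hp (by linarith : (0 : ℝ) ≤ el t - 1)]
    · rw [norm_zero]
      positivity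
  refine ⟨n + 1, Fin.cons q fun i => (1 + ρ i)⁻¹, Fin.cons 0 ρ, fun i => ?_, ?_, fun y hy => ?_⟩
  · refine Fin.cases ?_ (fun j => ?_) i
    · simp
    · simp only [Fin.cons_succ]
      exact (h2 j).1
  · rw [Fin.sum_univ_succ]
    simp only [Fin.cons_zero, Fin.cons_succ]
    have e1 : (A * D + 3 * p + 3 * k + A * D + 3 * A + 3 * p) * el t / (1 + |t|) =
        3 * p * el t / (1 + |t|) + A * D * el t / (1 + |t|) +
        (3 * k + A * D + 3 * A + 3 * p) * el t / (1 + |t|) := by ring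
    have e2 : 0 ≤ (3 * k + A * D + 3 * A + 3 * p) * el t / (1 + |t|) := by positivity
    rw [e1]
    linarith
  · set s : ℂ := δ + t * I - I * ((η / 5 : ℝ) * y) with hs
    have hsre : s.re = δ := by
      rw [hs]
      simp
    have hsim : s.im = t - η / 5 * y := by
      rw [hs]
      simp
    have hs0 : s ≠ 0 := by
      intro h0
      rw [h0, Complex.zero_re] at hsre
      linarith
    have hst : |s.im - t| ≤ η / 5 := by
      rw [hsim, sub_sub_cancel_left, abs_neg, abs_of_nonneg (by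
        have := hy.1
        positivity)]
      nlinarith [hy.1, hy.2]
    have h1s : (1 : ℂ) + s ≠ 0 := by
      intro h0
      have := congrArg Complex.re h0
      rw [Complex.add_re, Complex.one_re, hsre, Complex.zero_re] at this
      linarith
    have hsρ : ∀ i, s - ρ i ≠ 0 := by
      intro i h0
      have := congrArg Complex.re h0
      rw [Complex.sub_re, hsre, Complex.zero_re] at this
      linarith [(h2 i).1]
    have him : |t| - 1 ≤ |s.im| := by
      have e1 := abs_sub_abs_le_abs_sub t s.im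
      rw [abs_sub_comm] at e1
      linarith
    have hn1 : (1 + |t|) / 3 ≤ ‖1 + s‖ := by
      have e1 := Complex.re_le_norm (1 + s)
      rw [Complex.add_re, Complex.one_re, hsre] at e1
      have e2 := Complex.abs_im_le_norm (1 + s)
      rw [Complex.add_im, Complex.one_im, zero_add] at e2
      rcases le_or_gt 2 |t| with h | h <;> linarith
    have hi1 : ‖(1 + s)⁻¹‖ ≤ 3 / (1 + |t|) := by
      rw [norm_inv]
      have h5 := inv_anti₀ (by positivity : 0 < (1 + |t|) / 3) hn1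
      rwa [inv_div] at h5
    have hi2 : ‖(1 + s)⁻¹‖ ≤ 1 := by
      rw [norm_inv]
      apply inv_le_one_of_one_le₀
      have e1 := Complex.re_le_norm (1 + s)
      rw [Complex.add_re, Complex.one_re, hsre] at e1
      linarith
    -- the difference
    set e : ℂ := deriv G₀ s / G₀ s - ∑ i, (s - ρ i)⁻¹ with he
    have hen : ‖e‖ ≤ A * el t := h3 s (by rw [hsre]; exact hδ) (by rw [hsre]; exact hδ1) hst
    have hpf : ∀ i, (s - ρ i)⁻¹ * (1 + s)⁻¹ = (1 + ρ i)⁻¹ * (s - ρ i)⁻¹ -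
        (1 + ρ i)⁻¹ * (1 + s)⁻¹ := by
      intro i
      have i1 := hsρ i
      have i2 := hρ0 i
      field_simp
      ring
    have hK : KK G₀ k r s = (∑ i, (1 + ρ i)⁻¹ * (s - ρ i)⁻¹) - (p : ℂ) * s⁻¹ +
        (k * (1 + s)⁻¹ - (∑ i, (1 + ρ i)⁻¹) * (1 + s)⁻¹ + e * (1 + s)⁻¹) := by
      have i1 : deriv G₀ s / G₀ s = (∑ i, (s - ρ i)⁻¹) + e := by rw [he]; ring
      have i2 : (∑ i, (s - ρ i)⁻¹) * (1 + s)⁻¹ = (∑ i, (1 + ρ i)⁻¹ * (s - ρ i)⁻¹) -
          (∑ i, (1 + ρ i)⁻¹) * (1 + s)⁻¹ := by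
        rw [Finset.sum_mul, Finset.sum_mul, ← Finset.sum_sub_distrib]
        exact Finset.sum_congr rfl fun i _ => hpf i
      have i3 : (k : ℂ) / s / (1 + s) = k * s⁻¹ - k * (1 + s)⁻¹ := by
        field_simp
        ring
      unfold KK
      rw [i1, hr]
      push_cast
      calc ((∑ i, (s - ρ i)⁻¹) + e - k / s) / (1 + s) - ((p : ℂ) - k) / s
          = (∑ i, (s - ρ i)⁻¹) * (1 + s)⁻¹ + e * (1 + s)⁻¹ - k / s / (1 + s) -
              ((p : ℂ) - k) / s := by ring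
        _ = _ := by
          rw [i2, i3]
          ring
    have hfs : ∑ i, (Fin.cons q fun i => (1 + ρ i)⁻¹ : Fin (n + 1) → ℂ) i *
        (s - (Fin.cons 0 ρ : Fin (n + 1) → ℂ) i)⁻¹ =
        q * s⁻¹ + ∑ i, (1 + ρ i)⁻¹ * (s - ρ i)⁻¹ := by
      rw [Fin.sum_univ_succ]
      simp only [Fin.cons_zero, Fin.cons_succ, sub_zero]
    rw [hfs, hK]
    have e1 : (∑ i, (1 + ρ i)⁻¹ * (s - ρ i)⁻¹) - (p : ℂ) * s⁻¹ +
        (k * (1 + s)⁻¹ - (∑ i, (1 + ρ i)⁻¹) * (1 + s)⁻¹ + e * (1 + s)⁻¹) -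
        (q * s⁻¹ + ∑ i, (1 + ρ i)⁻¹ * (s - ρ i)⁻¹) =
        -((p : ℂ) + q) * s⁻¹ + (k * (1 + s)⁻¹ - (∑ i, (1 + ρ i)⁻¹) * (1 + s)⁻¹ +
          e * (1 + s)⁻¹) := by ring
    rw [e1]
    have f1 : ‖-((p : ℂ) + q) * s⁻¹‖ ≤ 3 * p * el t / (1 + |t|) := by
      rw [hq]
      split_ifs with h
      · rw [add_neg_cancel, neg_zero, zero_mul, norm_zero]
        positivity
      · rw [add_zero, norm_mul, norm_neg, Complex.norm_real, Real.norm_of_nonneg hp, norm_inv]
        have g1 : (1 + |t|) / 3 ≤ ‖s‖ := by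
          have g2 := Complex.abs_im_le_norm s
          linarith
        have g3 : ‖s‖⁻¹ ≤ 3 / (1 + |t|) := by
          have h5 := inv_anti₀ (by positivity : 0 < (1 + |t|) / 3) g1
          rwa [inv_div] at h5
        calc p * ‖s‖⁻¹ ≤ p * (3 / (1 + |t|)) := mul_le_mul_of_nonneg_left g3 hp
          _ = 3 * p * 1 / (1 + |t|) := by ring
          _ ≤ 3 * p * el t / (1 + |t|) := by gcongr
    have f2 : ‖(k : ℂ) * (1 + s)⁻¹‖ ≤ 3 * k * el t / (1 + |t|) := by
      rw [norm_mul, Complex.norm_natCast]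
      calc (k : ℝ) * ‖(1 + s)⁻¹‖ ≤ k * (3 / (1 + |t|)) := mul_le_mul_of_nonneg_left hi1 hk0
        _ = 3 * k * 1 / (1 + |t|) := by ring
        _ ≤ 3 * k * el t / (1 + |t|) := by gcongr
    have f3 : ‖(∑ i, (1 + ρ i)⁻¹) * (1 + s)⁻¹‖ ≤ A * D * el t / (1 + |t|) := by
      rw [norm_mul]
      calc ‖∑ i, (1 + ρ i)⁻¹‖ * ‖(1 + s)⁻¹‖ ≤ (A * D * el t / (1 + |t|)) * 1 :=
            mul_le_mul ((norm_sum_le _ _).trans hsum) hi2 (norm_nonneg _) (by positivity)
        _ = _ := mul_one _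
    have f4 : ‖e * (1 + s)⁻¹‖ ≤ 3 * A * el t / (1 + |t|) := by
      rw [norm_mul]
      calc ‖e‖ * ‖(1 + s)⁻¹‖ ≤ (A * el t) * (3 / (1 + |t|)) :=
            mul_le_mul hen hi1 (norm_nonneg _) (by positivity)
        _ = _ := by ring
    have f5 : 0 ≤ A * D * el t / (1 + |t|) := by positivity
    have f6 : 0 ≤ 3 * p * el t / (1 + |t|) := by positivity
    have f7 : (A * D + 3 * p + 3 * k + A * D + 3 * A + 3 * p) * el t / (1 + |t|) =
        A * D * el t / (1 + |t|) + 3 * p * el t / (1 + |t|) + 3 * k * el t / (1 + |t|) +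
          A * D * el t / (1 + |t|) + 3 * A * el t / (1 + |t|) + 3 * p * el t / (1 + |t|) := by
      ring
    rw [f7]
    refine (norm_add_le _ _).trans ?_
    have f8 := norm_add_le ((k : ℂ) * (1 + s)⁻¹ - (∑ i, (1 + ρ i)⁻¹) * (1 + s)⁻¹) (e * (1 + s)⁻¹)
    have f9 := norm_sub_le ((k : ℂ) * (1 + s)⁻¹) ((∑ i, (1 + ρ i)⁻¹) * (1 + s)⁻¹)
    linarith

/-- the bound is square integrable -/
theorem el_fin (A' : ℝ) : ∫⁻ t : ℝ, ENNReal.ofReal ((A' * el t / (1 + |t|)) ^ 2) < ⊤ := by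
  have h1 : ∀ t : ℝ, ENNReal.ofReal ((A' * el t / (1 + |t|)) ^ 2) ≤
      ENNReal.ofReal (A' ^ 2) * (wq t * ENNReal.ofReal ((1 + Real.log (1 + |t|)) ^ 2)) := by
    intro t
    unfold wq
    rw [← ENNReal.ofReal_mul (by positivity), ← ENNReal.ofReal_mul (by positivity)]
    apply ENNReal.ofReal_le_ofReal
    have h2 : (A' * el t / (1 + |t|)) ^ 2 = A' ^ 2 * (el t ^ 2 / (1 + |t|) ^ 2) := by
      rw [div_pow, mul_pow, mul_div_assoc]
    rw [h2]
    refine mul_le_mul_of_nonneg_left ?_ (sq_nonneg _)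
    rw [div_mul_eq_mul_div, one_mul]
    unfold el
    refine div_le_div_of_nonneg_left (sq_nonneg _) (by positivity) ?_
    have := abs_nonneg t
    nlinarith [sq_abs t]
  refine (lintegral_mono h1).trans_lt ?_
  rw [lintegral_const_mul' _ _ ENNReal.ofReal_ne_top]
  exact ENNReal.mul_lt_top ENNReal.ofReal_lt_top wq_log_fin

end Pool.Agent.Q195.CR
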