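import Pool.Agent.TH270.MS.Fwd
import Pool.Agent.Q195.CR.LocPW
import Pool.Agent.Q195.CR.Struct2

/-! The mean square of the weighted sums in intervals of bounded length. -/

set_option autoImplicit false

open MeasureTheory Filter Topology Set Complex
open scoped ENNReal
open Pool.Agent.TH942.LS (Dat P)
open Pool.Agent.TH942.SL
open Pool.Agent.TH942.RZ (LD log_near)

namespace Pool.Agent.Q195.CR

open Pool.Agent.TH270.MS

variable {lam c : ℕ → ℝ} {δ σ : ℝ}

/-- the coefficients of `ψ` -/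
noncomputable def cE (lam c : ℕ → ℝ) (n : ℕ) : ℝ := c n * lam n * Real.exp (lam n)

lemma datE (D : Dat lam c δ σ) : Dat lam (cE lam c) δ (σ + 2) where
  δ0 := D.δ0
  σ0 := by linarith [D.σ0]
  lam_ge := D.lam_ge
  sum := by
    refine Summable.of_nonneg_of_le (fun n => by positivity) (fun n => ?_) D.sum
    have hl := D.lam0 n
    unfold cE
    rw [abs_mul, abs_mul, abs_of_pos hl, abs_of_pos (Real.exp_pos _)]
    have h1 : Real.exp (lam n) * Real.exp (-((σ + 2) * lam n)) =
        Real.exp (-(σ * lam n)) * Real.exp (-lam n) := by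
      rw [← Real.exp_add, ← Real.exp_add]
      congr 1
      ring
    have h2 : lam n * Real.exp (-lam n) ≤ 1 := by
      have h3 := Real.add_one_le_exp (lam n)
      rw [Real.exp_neg, ← div_eq_mul_inv, div_le_one (Real.exp_pos _)]
      linarith
    calc |c n| * lam n * Real.exp (lam n) * Real.exp (-((σ + 2) * lam n))
        = |c n| * Real.exp (-(σ * lam n)) * (lam n * Real.exp (-lam n)) := by
          rw [mul_assoc, h1]
          ring
      _ ≤ |c n| * Real.exp (-(σ * lam n)) * 1 := by gcongr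
      _ = _ := mul_one _

/-- `e^{-u} ψ(u)` -/
noncomputable def bb (lam c : ℕ → ℝ) (u : ℝ) : ℝ := Real.exp (-u) * Sh lam (cE lam c) u

lemma bb_meas (D : Dat lam c δ σ) : Measurable (bb lam c) := by
  unfold bb
  exact (by fun_prop : Measurable fun u : ℝ => Real.exp (-u)).mul (sh_meas (datE D))

lemma bb_zero (D : Dat lam c δ σ) {u : ℝ} (hu : u ≤ 0) : bb lam c u = 0 := by
  unfold bb
  rw [sh_zero (datE D) (by linarith [D.δ0]), mul_zero]

lemma bb_le (D : Dat lam c δ σ) : ∃ C : ℝ, 0 ≤ C ∧ ∀ u : ℝ,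
    |bb lam c u| ≤ C * Real.exp ((σ + 1) * u) := by
  refine ⟨∑' n, |cE lam c n| * Real.exp (-((σ + 2) * lam n)),
    tsum_nonneg fun n => by positivity, fun u => ?_⟩
  have h1 := sh_le (datE D) u
  unfold bb
  rw [abs_mul, abs_of_pos (Real.exp_pos _)]
  calc Real.exp (-u) * |Sh lam (cE lam c) u| ≤ Real.exp (-u) * (Real.exp ((σ + 2) * u) *
        ∑' n, |cE lam c n| * Real.exp (-((σ + 2) * lam n))) :=
        mul_le_mul_of_nonneg_left h1 (Real.exp_pos _).le
    _ = (∑' n, |cE lam c n| * Real.exp (-((σ + 2) * lam n))) *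
        (Real.exp (-u) * Real.exp ((σ + 2) * u)) := by ring
    _ = _ := by
      rw [← Real.exp_add]
      ring_nf

/-- the Laplace transform -/
lemma bb_lap (D : Dat lam c δ σ) {s : ℂ} (hs : σ + 1 < s.re) :
    ∫ u : ℝ, (bb lam c u : ℂ) * exp (-(s * u)) = P lam c s / (1 + s) := by
  have h1 := sh_lap (datE D) (s := 1 + s) (by
    rw [Complex.add_re, Complex.one_re]
    linarith)
  have h2 : DD lam (cE lam c) (1 + s) = P lam c s := by
    unfold DD P cE
    refine tsum_congr fun n => ?_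
    push_cast
    rw [mul_assoc ((c n : ℂ) * lam n), ← exp_add]
    congr 2
    ring
  rw [h2] at h1
  rw [← h1]
  refine integral_congr_ae (Eventually.of_forall fun u => ?_)
  simp only
  unfold bb
  push_cast
  rw [show -((1 + s) * (u : ℂ)) = -u + -(s * u) by ring, exp_add]
  ring

/-- **The mean square in intervals of length one is bounded.** -/
theorem cramer {G₀ : ℂ → ℂ} {k κ : ℕ} {η C : ℝ} (D : Dat lam c δ σ) (hη : 0 < η)
    (hG : ∀ s : ℂ, -η < s.re → DifferentiableAt ℂ G₀ s)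
    (hgrow : ∀ s : ℂ, -η < s.re → ‖G₀ s‖ ≤ C * (1 + ‖s‖) ^ κ)
    (hexp : ∀ s : ℂ, σ < s.re → s ^ k * exp (-DD lam c s) = G₀ s)
    (hne : ∀ s : ℂ, 0 < s.re → G₀ s ≠ 0) :
    ∃ K : ℝ≥0∞, K < ⊤ ∧ ∀ T : ℝ,
      ∫⁻ u in Icc T (T + 1), ENNReal.ofReal (bb lam c u ^ 2) ≤ K := by
  have hσ := D.σ0
  have hs0 : ∀ s : ℂ, 0 < s.re → s ≠ 0 := fun s hs => by rintro rfl; simp at hs
  have hC0 : 0 ≤ C := by
    have := (norm_nonneg _).trans (hgrow 0 (by simpa using hη))
    simpa using this
  -- the logarithm of `Ψ = G₀ / s^k`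
  set Ψ : ℂ → ℂ := fun s => G₀ s / s ^ k with hΨ
  have hΨd : ∀ s : ℂ, 0 < s.re → DifferentiableAt ℂ Ψ s := fun s hs =>
    (hG s (by linarith)).div (differentiableAt_id.pow k) (pow_ne_zero _ (hs0 s hs))
  have hΨn : ∀ s : ℂ, 0 < s.re → Ψ s ≠ 0 := fun s hs =>
    div_ne_zero (hne s hs) (pow_ne_zero _ (hs0 s hs))
  have hΨg : ∀ s : ℂ, 0 < s.re → ‖Ψ s‖ ≤ C * (1 + ‖s‖) ^ (κ + k) * (1 + 1 / s.re) ^ (κ + k) := by
    intro s hs
    rw [hΨ]
    simp only
    rw [norm_div, norm_pow, div_eq_mul_inv]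
    have e1 := hgrow s (by linarith)
    have e2 : (‖s‖ ^ k)⁻¹ ≤ (1 + 1 / s.re) ^ k := by
      rw [← inv_pow]
      apply pow_le_pow_left₀ (by positivity)
      have : ‖s‖⁻¹ ≤ s.re⁻¹ := inv_anti₀ hs (Complex.re_le_norm s)
      rw [one_div]
      linarith
    have e3 : (1 + ‖s‖) ^ κ ≤ (1 + ‖s‖) ^ (κ + k) :=
      pow_le_pow_right₀ (by linarith [norm_nonneg s]) (by omega)
    have e4 : (1 + 1 / s.re) ^ k ≤ (1 + 1 / s.re) ^ (κ + k) := by
      refine pow_le_pow_right₀ ?_ (by omega)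
      have : 0 ≤ 1 / s.re := by positivity
      linarith
    exact mul_le_mul (e1.trans (mul_le_mul_of_nonneg_left e3 hC0)) (e2.trans e4) (by positivity)
      (by positivity)
  have hΨe : ∀ s : ℂ, σ < s.re → exp ((fun _ : ℂ => (0 : ℂ)) s - DD lam c s) = Ψ s := by
    intro s hs
    have h1 : s ≠ 0 := hs0 s (hσ.trans hs)
    rw [hΨ]
    simp only
    rw [← hexp s hs, zero_sub]
    field_simp
  obtain ⟨L, A₀, hLD, hLd, hLe, hLf⟩ := Pool.Agent.TH270.RS.exists_LD (G := fun _ => 0) (A' := 0)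
    D hΨd hΨn (fun s _ => differentiableAt_const _) hΨe hΨg (fun s _ => by simp)
  -- the logarithmic derivative
  have hlog : ∀ s : ℂ, 0 < s.re → deriv Ψ s / Ψ s = deriv G₀ s / G₀ s - k / s := by
    intro s hs
    have h1 := hs0 s hs
    have h2 := hne s hs
    rw [← logDeriv_apply, hΨ, logDeriv_div (f := G₀) (g := fun s : ℂ => s ^ k) s h2
      (pow_ne_zero _ h1) (hG s (by linarith)) (differentiableAt_id.pow k), logDeriv_apply,
      logDeriv_apply]
    congr 1
    rcases Nat.eq_zero_or_pos k with hk | hk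
    · subst hk
      simp
    · have h3 : deriv (fun s : ℂ => s ^ k) s = k * s ^ (k - 1) := by
        simp
      rw [h3]
      obtain ⟨j, rfl⟩ : ∃ j, k = j + 1 := ⟨k - 1, by omega⟩
      rw [Nat.add_sub_cancel, pow_succ]
      field_simp
  have hKL : ∀ s : ℂ, 0 < s.re → KK G₀ k 0 s = deriv L s / (1 + s) := by
    intro s hs
    unfold KK
    rw [← hlog s hs, (hLd s hs).deriv]
    simp
  have hP : ∀ s : ℂ, σ < s.re → deriv L s = P lam c s := by
    intro s hs
    have hU : IsOpen {s : ℂ | σ < s.re} := isOpen_lt continuous_const Complex.continuous_re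
    have h1 : L =ᶠ[𝓝 s] fun s => (0 : ℂ) - DD lam c s := by
      filter_upwards [hU.mem_nhds hs] with w hw
      exact hLf w hw
    rw [h1.deriv_eq, deriv_const_sub, (dd_deriv D hs).deriv, neg_neg]
  -- the transform
  have hHk : ∀ s : ℂ, σ + 1 < s.re → KK G₀ k 0 s = ∫ u : ℝ, (bb lam c u : ℂ) * exp (-(s * u)) := by
    intro s hs
    rw [bb_lap D hs, hKL s (by linarith), hP s (by linarith)]
  have hLdd : DifferentiableOn ℂ (deriv L) {s : ℂ | 0 < s.re} := by
    have hU : IsOpen {s : ℂ | 0 < s.re} := isOpen_lt continuous_const Complex.continuous_re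
    have h1 : DifferentiableOn ℂ L {s : ℂ | 0 < s.re} := fun s hs =>
      (hLd s hs).differentiableAt.differentiableWithinAt
    exact h1.deriv hU
  have h1s : ∀ s : ℂ, 0 < s.re → (1 : ℂ) + s ≠ 0 := by
    intro s hs h0
    have := congrArg Complex.re h0
    rw [Complex.add_re, Complex.one_re, Complex.zero_re] at this
    linarith
  have hHd : ∀ s : ℂ, 0 < s.re → DifferentiableAt ℂ (KK G₀ k 0) s := by
    intro s hs
    have hU : IsOpen {s : ℂ | 0 < s.re} := isOpen_lt continuous_const Complex.continuous_re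
    have h1 : KK G₀ k 0 =ᶠ[𝓝 s] fun s => deriv L s / (1 + s) := by
      filter_upwards [hU.mem_nhds hs] with w hw
      exact hKL w hw
    rw [h1.differentiableAt_iff]
    exact (hLdd.differentiableAt (hU.mem_nhds hs)).div (by fun_prop) (h1s s hs)
  have hbd : ∀ δ' : ℝ, 0 < δ' → ∃ B : ℝ, ∀ s : ℂ, δ' ≤ s.re → s.re ≤ σ + 1 + 1 →
      ‖KK G₀ k 0 s‖ ≤ B := by
    intro δ' hδ'
    obtain ⟨B, hB, hBB⟩ := hLD.pow (half_pos hδ') (ε := 1) one_pos
    refine ⟨B * (2 + δ' / 2) / (δ' / 2), fun s hs _ => ?_⟩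
    have hs1 : 0 < s.re := hδ'.trans_le hs
    rw [hKL s hs1, norm_div]
    have hre : ∀ w : ℂ, ‖w - s‖ ≤ δ' / 2 → δ' / 2 ≤ w.re ∧ |w.im| ≤ |s.im| + δ' / 2 := by
      intro w hw
      have e1 := (abs_le.1 ((Complex.abs_re_le_norm (w - s)).trans hw)).1
      have e2 := (Complex.abs_im_le_norm (w - s)).trans hw
      rw [Complex.sub_re] at e1
      rw [Complex.sub_im] at e2
      refine ⟨by linarith, ?_⟩
      have := abs_sub_abs_le_abs_sub w.im s.im
      linarith
    have e1 := Complex.norm_deriv_le_of_forall_mem_sphere_norm_le (c := s) (f := L)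
      (C := B * (1 + (|s.im| + δ' / 2))) (half_pos hδ') (by
        apply DifferentiableOn.diffContOnCl
        rw [closure_ball _ (half_pos hδ').ne']
        intro w hw
        rw [mem_closedBall_iff_norm] at hw
        exact ((hLd w (by linarith [(hre w hw).1])).differentiableAt).differentiableWithinAt) (by
        intro w hw
        rw [mem_sphere_iff_norm] at hw
        obtain ⟨f1, f2⟩ := hre w hw.le
        have f3 := hBB w f1
        rw [Real.rpow_one] at f3
        refine f3.trans (mul_le_mul_of_nonneg_left (by linarith) hB))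
    have e2 : |s.im| ≤ ‖1 + s‖ := by
      have := Complex.abs_im_le_norm (1 + s)
      rwa [Complex.add_im, Complex.one_im, zero_add] at this
    have e3 : 1 ≤ ‖1 + s‖ := by
      have := Complex.re_le_norm (1 + s)
      rw [Complex.add_re, Complex.one_re] at this
      linarith
    rw [div_le_iff₀ (by linarith)]
    refine e1.trans ?_
    rw [div_mul_eq_mul_div]
    refine div_le_div_of_nonneg_right ?_ (half_pos hδ').le
    have e4 : 1 + (|s.im| + δ' / 2) ≤ (2 + δ' / 2) * ‖1 + s‖ := by nlinarith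
    calc B * (1 + (|s.im| + δ' / 2)) ≤ B * ((2 + δ' / 2) * ‖1 + s‖) :=
          mul_le_mul_of_nonneg_left e4 hB
      _ = _ := by ring
  -- integrability
  obtain ⟨C₁, hC₁, hkb⟩ := bb_le D
  have hkx : ∀ x : ℝ, σ + 1 < x → ∀ u : ℝ, ‖(bb lam c u : ℂ) * exp (-(x * u))‖ ≤
      (Ici (0 : ℝ)).indicator (fun u => C₁ * Real.exp (-((x - (σ + 1)) * u))) u := by
    intro x hx u
    have e0 : ‖exp (-((x : ℂ) * u))‖ = Real.exp (-(x * u)) := by
      rw [norm_exp_neg, Complex.ofReal_re]
    rcases lt_or_ge u 0 with hu | hu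
    · rw [bb_zero D hu.le, Complex.ofReal_zero, zero_mul, norm_zero,
        indicator_of_notMem (by simpa using hu)]
    · rw [indicator_of_mem (show u ∈ Ici (0 : ℝ) from hu), norm_mul, e0, Complex.norm_real,
        Real.norm_eq_abs]
      calc |bb lam c u| * Real.exp (-(x * u)) ≤ (C₁ * Real.exp ((σ + 1) * u)) *
            Real.exp (-(x * u)) := mul_le_mul_of_nonneg_right (hkb u) (Real.exp_pos _).le
        _ = C₁ * (Real.exp ((σ + 1) * u) * Real.exp (-(x * u))) := by ring
        _ = _ := by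
          rw [← Real.exp_add]
          ring_nf
  have hkme : ∀ x : ℝ, Measurable fun u : ℝ => (bb lam c u : ℂ) * exp (-(x * u)) := fun x =>
    (Complex.measurable_ofReal.comp (bb_meas D)).mul (by fun_prop)
  have hI : ∀ {y : ℝ}, 0 < y → ∀ C₂ : ℝ,
      Integrable ((Ici (0 : ℝ)).indicator (fun u => C₂ * Real.exp (-(y * u)))) := by
    intro y hy C₂
    rw [integrable_indicator_iff measurableSet_Ici, integrableOn_Ici_iff_integrableOn_Ioi]
    have h1 : IntegrableOn (fun u : ℝ => Real.exp (-y * u)) (Ioi 0) :=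
      integrableOn_exp_mul_Ioi (a := -y) (by linarith) 0
    have h2 : IntegrableOn (fun u : ℝ => C₂ * Real.exp (-y * u)) (Ioi 0) := h1.const_mul C₂
    refine h2.congr_fun (fun u _ => ?_) measurableSet_Ioi
    simp only [neg_mul]
  have hk1 : ∀ x : ℝ, σ + 1 < x → Integrable fun u : ℝ => (bb lam c u : ℂ) * exp (-(x * u)) :=
    fun x hx => (hI (by linarith : 0 < x - (σ + 1)) C₁).mono' (hkme x).aestronglyMeasurable
      (Eventually.of_forall (hkx x hx))
  have hk2 : ∀ x : ℝ, σ + 1 < x → MemLp (fun u : ℝ => (bb lam c u : ℂ) * exp (-(x * u))) 2 := by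
    intro x hx
    rw [memLp_two_iff_integrable_sq_norm (hkme x).aestronglyMeasurable]
    refine (hI (by linarith : 0 < 2 * (x - (σ + 1))) (C₁ ^ 2)).mono'
      ((hkme x).norm.pow_const 2).aestronglyMeasurable (Eventually.of_forall fun u => ?_)
    rw [Real.norm_of_nonneg (by positivity)]
    refine (pow_le_pow_left₀ (norm_nonneg _) (hkx x hx u) 2).trans (le_of_eq ?_)
    by_cases hu : u ∈ Ici (0 : ℝ)
    · rw [indicator_of_mem hu, indicator_of_mem hu, mul_pow, ← Real.exp_nat_mul]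
      congr 2
      push_cast
      ring
    · rw [indicator_of_notMem hu, indicator_of_notMem hu]
      norm_num
  -- the structure
  set S₀ : ℝ := ∑' n, |c n| * Real.exp (-(σ * lam n)) with hS₀
  have hS0 : 0 ≤ S₀ := tsum_nonneg fun n => by positivity
  have hDDn : ∀ s : ℂ, σ ≤ s.re → ‖DD lam c s‖ ≤ S₀ := by
    intro s hs
    unfold DD
    refine tsum_of_norm_bounded D.sum.hasSum fun n => ?_
    rw [norm_mul, Complex.norm_real, Real.norm_eq_abs, norm_exp_neg]
    refine mul_le_mul_of_nonneg_left (Real.exp_le_exp.2 ?_) (abs_nonneg _)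
    have := D.lam0 n
    nlinarith
  set η₁ : ℝ := min η 1 with hη₁
  have hη10 : 0 < η₁ := lt_min hη one_pos
  have Hd : Gd G₀ η₁ (σ + 1) C S₀ κ := by
    refine ⟨hη10, min_le_right _ _, by linarith, fun s hs => hG s ?_, fun s hs => hgrow s ?_, hne,
      hS0, fun t => ?_⟩
    · have := min_le_left η 1
      rw [hη₁] at hs
      linarith
    · have := min_le_left η 1
      rw [hη₁] at hs
      linarith
    · have e1 : ((σ + 1 : ℝ) : ℂ) + t * I ≠ 0 := by
        intro h0
        have := congrArg Complex.re h0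
        simp at this
        linarith
      rw [← hexp _ (by simp), norm_mul, norm_pow, Complex.norm_exp]
      have e2 : 1 ≤ ‖((σ + 1 : ℝ) : ℂ) + t * I‖ := by
        have := Complex.re_le_norm (((σ + 1 : ℝ) : ℂ) + t * I)
        simp at this
        push_cast
        linarith
      have e3 : 1 ≤ ‖((σ + 1 : ℝ) : ℂ) + t * I‖ ^ k := one_le_pow₀ e2
      have e4 : -(S₀ * el t) ≤ (-DD lam c (((σ + 1 : ℝ) : ℂ) + t * I)).re := by
        have f1 := hDDn (((σ + 1 : ℝ) : ℂ) + t * I) (by simp)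
        have f2 := Complex.re_le_norm (DD lam c (((σ + 1 : ℝ) : ℂ) + t * I))
        rw [Complex.neg_re]
        have f3 := el_one t
        nlinarith
      have e5 := Real.exp_le_exp.2 e4
      have e6 := Real.exp_pos (-DD lam c (((σ + 1 : ℝ) : ℂ) + t * I)).re
      nlinarith
  obtain ⟨A', hA', hst⟩ := Hd.struct k (r := 0) (p := k) (Nat.cast_nonneg k) (by ring)
  have hh : 0 < η₁ / 5 := by linarith
  have hh1 : η₁ / 5 ≤ 1 := by
    have := min_le_right η 1
    rw [← hη₁] at this
    linarith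
  refine ⟨144 * (ENNReal.ofReal ((12 * Real.pi / (η₁ / 5) + 1) ^ 2) *
    ∫⁻ t : ℝ, ENNReal.ofReal ((A' * el t / (1 + |t|)) ^ 2)), ?_, fun T => ?_⟩
  · exact ENNReal.mul_lt_top (by norm_num) (ENNReal.mul_lt_top ENNReal.ofReal_lt_top (el_fin A'))
  · have h1 := local_pw (k := fun u => (bb lam c u : ℂ)) (H := KK G₀ k 0) (a := σ + 1)
      (h := η₁ / 5) (δ₀ := 1) (M := fun t => A' * el t / (1 + |t|)) (by linarith) one_pos hh hk1 hk2
      hHk hHd hbd (fun δ' h1 h2 t => hst δ' h1 h2 t) T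
    have h2 := local_bound hh hh1 h1
    refine le_trans (le_of_eq ?_) h2
    refine lintegral_congr fun u => ?_
    rw [← ofReal_norm, ← ENNReal.ofReal_pow (norm_nonneg _), Complex.norm_real, Real.norm_eq_abs,
      sq_abs]

end Pool.Agent.Q195.CR
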