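import Pool.Agent.Q195.CR.RateE

/-! A zero on the line makes the mean deviation at least `c log T`. -/

set_option autoImplicit false

open MeasureTheory Filter Topology Set Complex
open Pool.Agent.TH942.LS (Dat)
open Pool.Agent.TH942.SL
open Pool.Agent.W263.BSD (LInt lap lapC lapC_ofReal lapC_differentiableAt)

namespace Pool.Agent.Q195.CR

open Pool.Agent.TH270.MS

variable {lam c : ℕ → ℝ} {δ σ : ℝ}

/-- the transform of the logarithm on `[1, ∞)` -/
lemma log_tr {s : ℂ} (hs : 0 < s.re) :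
    IntegrableOn (fun u : ℝ => (Real.log u : ℂ) * exp (-(s * u))) (Ioi 1) ∧
      ‖∫ u in Ioi (1 : ℝ), (Real.log u : ℂ) * exp (-(s * u))‖ ≤ 2 / ‖s‖ ^ 2 := by
  have hs0 : s ≠ 0 := by rintro rfl; simp at hs
  have hi : IntegrableOn (fun u : ℝ => (Real.log u : ℂ) * exp (-(s * u))) (Ioi 1) := by
    have h1 : IntegrableOn (fun u : ℝ => ‖(u : ℂ) * exp (-(s * u))‖) (Ioi 1) :=
      IntegrableOn.mono_set (lap_id hs).1.norm (Ioi_subset_Ioi zero_le_one)
    refine Integrable.mono' h1 ?_ ?_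
    · exact ((Complex.measurable_ofReal.comp Real.measurable_log).mul
        (by fun_prop)).aestronglyMeasurable
    · filter_upwards [ae_restrict_mem measurableSet_Ioi] with u hu
      have hu1 : (1 : ℝ) < u := hu
      rw [norm_mul, norm_mul, Complex.norm_real, Complex.norm_real]
      refine mul_le_mul_of_nonneg_right ?_ (norm_nonneg _)
      rw [Real.norm_of_nonneg (Real.log_nonneg hu1.le), Real.norm_of_nonneg (by linarith)]
      have := Real.log_le_sub_one_of_pos (by linarith : 0 < u)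
      linarith
  refine ⟨hi, ?_⟩
  -- the integral of `e^{-su}/u²`
  have hb : ∀ u : ℝ, 1 ≤ u → ‖exp (-(s * u)) * (1 / (u : ℂ) ^ 2)‖ ≤ u ^ (-2 : ℝ) := by
    intro u hu
    have hu0 : 0 < u := by linarith
    rw [norm_mul, norm_exp_neg, norm_div, norm_one, norm_pow, Complex.norm_real,
      Real.norm_of_nonneg hu0.le, Real.rpow_neg hu0.le]
    have h1 : Real.exp (-(s.re * u)) ≤ 1 := by
      rw [Real.exp_le_one_iff]
      nlinarith
    norm_num
    calc Real.exp (-(s.re * u)) * (u ^ 2)⁻¹ ≤ 1 * (u ^ 2)⁻¹ := by gcongr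
      _ = _ := one_mul _
  have i2 : IntegrableOn (fun u : ℝ => u ^ (-2 : ℝ)) (Ioi 1) :=
    integrableOn_Ioi_rpow_of_lt (by norm_num) one_pos
  have i3 : IntegrableOn (fun u : ℝ => exp (-(s * u)) * (1 / (u : ℂ) ^ 2)) (Ioi 1) := by
    refine Integrable.mono' i2 (by fun_prop) ?_
    filter_upwards [ae_restrict_mem measurableSet_Ioi] with u hu
    exact hb u (le_of_lt hu)
  have n3 : ‖∫ u in Ioi (1 : ℝ), exp (-(s * u)) * (1 / (u : ℂ) ^ 2)‖ ≤ 1 := by
    refine (norm_integral_le_of_norm_le i2 ?_).trans (le_of_eq ?_)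
    · filter_upwards [ae_restrict_mem measurableSet_Ioi] with u hu
      exact hb u (le_of_lt hu)
    · rw [integral_Ioi_rpow_of_lt (by norm_num) one_pos]
      norm_num
  have hd : ∀ u ∈ Ici (1 : ℝ), HasDerivAt (fun u : ℝ => -(exp (-(s * u)) *
      ((Real.log u : ℂ) / s + 1 / (s ^ 2 * u))))
      ((Real.log u : ℂ) * exp (-(s * u)) + (1 / s ^ 2) * (exp (-(s * u)) * (1 / (u : ℂ) ^ 2))) u := by
    intro u hu
    have hu0 : (0 : ℝ) < u := by
      have : (1 : ℝ) ≤ u := hu
      linarith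
    have huc : (u : ℂ) ≠ 0 := by exact_mod_cast hu0.ne'
    have h1 : HasDerivAt (fun u : ℝ => (u : ℂ)) 1 u := Complex.ofRealCLM.hasDerivAt
    have h2 : HasDerivAt (fun u : ℝ => -(s * (u : ℂ))) (-(s * 1)) u := (h1.const_mul s).neg
    have h3 := h2.cexp
    have h4 : HasDerivAt (fun u : ℝ => (Real.log u : ℂ)) ((u⁻¹ : ℝ) : ℂ) u :=
      (Real.hasDerivAt_log hu0.ne').ofReal_comp
    have h5 : HasDerivAt (fun u : ℝ => 1 / (s ^ 2 * (u : ℂ))) (-(1 / s ^ 2) * (1 / (u : ℂ) ^ 2)) u := by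
      have h6 := (h1.const_mul (s ^ 2)).inv (mul_ne_zero (pow_ne_zero 2 hs0) huc)
      simp only [one_div]
      refine h6.congr_deriv ?_
      field_simp
    have h7 := (h3.mul ((h4.div_const s).add h5)).neg
    refine h7.congr_deriv ?_
    simp only [Pi.add_apply]
    push_cast
    field_simp
    ring
  have hlim : Tendsto (fun u : ℝ => -(exp (-(s * u)) *
      ((Real.log u : ℂ) / s + 1 / (s ^ 2 * u)))) atTop (𝓝 0) := by
    rw [tendsto_zero_iff_norm_tendsto_zero]
    have h1 : Tendsto (fun u : ℝ => u * Real.exp (-(s.re * u))) atTop (𝓝 0) := by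
      have h2 := (Real.tendsto_pow_mul_exp_neg_atTop_nhds_zero 1).comp
        (tendsto_id.const_mul_atTop hs)
      have h3 := h2.const_mul (1 / s.re)
      rw [mul_zero] at h3
      refine h3.congr fun u => ?_
      simp only [Function.comp_apply, id_eq, pow_one]
      field_simp
    have h2 : Tendsto (fun u : ℝ => (1 / ‖s‖ + 1 / ‖s‖ ^ 2) * (u * Real.exp (-(s.re * u))))
        atTop (𝓝 0) := by
      have := h1.const_mul (1 / ‖s‖ + 1 / ‖s‖ ^ 2)
      rwa [mul_zero] at this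
    refine squeeze_zero' (Eventually.of_forall fun u => norm_nonneg _) ?_ h2
    filter_upwards [eventually_ge_atTop 1] with u hu
    have hu0 : 0 < u := by linarith
    have hsn : 0 < ‖s‖ := norm_pos_iff.2 hs0
    rw [norm_neg, norm_mul, norm_exp_neg]
    have h3 : ‖(Real.log u : ℂ) / s + 1 / (s ^ 2 * u)‖ ≤ (1 / ‖s‖ + 1 / ‖s‖ ^ 2) * u := by
      refine (norm_add_le _ _).trans ?_
      rw [norm_div, norm_div, norm_one, norm_mul, norm_pow, Complex.norm_real, Complex.norm_real,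
        Real.norm_of_nonneg (Real.log_nonneg hu), Real.norm_of_nonneg hu0.le, add_mul]
      have h4 := Real.log_le_sub_one_of_pos hu0
      refine add_le_add ?_ ?_
      · rw [div_mul_eq_mul_div, one_mul]
        exact div_le_div_of_nonneg_right (by linarith) hsn.le
      · have h5 : 1 / (‖s‖ ^ 2 * u) ≤ 1 / ‖s‖ ^ 2 :=
          one_div_le_one_div_of_le (by positivity) (by nlinarith [sq_nonneg ‖s‖])
        refine h5.trans ?_
        have h6 : 0 < 1 / ‖s‖ ^ 2 := by positivity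
        nlinarith
    calc Real.exp (-(s.re * u)) * ‖(Real.log u : ℂ) / s + 1 / (s ^ 2 * u)‖ ≤
          Real.exp (-(s.re * u)) * ((1 / ‖s‖ + 1 / ‖s‖ ^ 2) * u) :=
          mul_le_mul_of_nonneg_left h3 (Real.exp_pos _).le
      _ = _ := by ring
  have i4 : IntegrableOn (fun u : ℝ => (1 / s ^ 2) * (exp (-(s * u)) * (1 / (u : ℂ) ^ 2)))
      (Ioi 1) := i3.const_mul _
  have h1 := integral_Ioi_of_hasDerivAt_of_tendsto' hd (hi.add i4) hlim
  rw [integral_add hi i4, integral_const_mul] at h1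
  have h2 : ∫ u in Ioi (1 : ℝ), (Real.log u : ℂ) * exp (-(s * u)) =
      exp (-s) * (1 / s ^ 2) -
        (1 / s ^ 2) * ∫ u in Ioi (1 : ℝ), exp (-(s * u)) * (1 / (u : ℂ) ^ 2) := by
    have h3 : (0 : ℂ) - -(exp (-(s * ((1 : ℝ) : ℂ))) * ((Real.log 1 : ℂ) / s +
        1 / (s ^ 2 * ((1 : ℝ) : ℂ)))) = exp (-s) * (1 / s ^ 2) := by
      simp
    rw [h3] at h1
    rw [← h1]
    ring
  have hsn : 0 < ‖s‖ := norm_pos_iff.2 hs0
  have h4 : ‖exp (-s)‖ ≤ 1 := by
    rw [Complex.norm_exp, Real.exp_le_one_iff, Complex.neg_re]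
    linarith
  rw [h2]
  refine (norm_sub_le _ _).trans ?_
  rw [norm_mul, norm_mul, norm_div, norm_one, norm_pow]
  have h5 : 0 < 1 / ‖s‖ ^ 2 := by positivity
  have h6 : 2 / ‖s‖ ^ 2 = 1 / ‖s‖ ^ 2 + 1 / ‖s‖ ^ 2 := by ring
  rw [h6]
  refine add_le_add ?_ ?_
  · nlinarith
  · nlinarith

/-- the transform of `1` on `[1, ∞)` -/
lemma one_tr {s : ℂ} (hs : 0 < s.re) :
    IntegrableOn (fun u : ℝ => exp (-(s * u))) (Ioi 1) ∧
      ‖∫ u in Ioi (1 : ℝ), exp (-(s * u))‖ ≤ 1 / ‖s‖ := by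
  have hs0 : s ≠ 0 := by rintro rfl; simp at hs
  have h1 := integrableOn_exp_mul_complex_Ioi (a := -s) (by simpa using hs) 1
  have h2 := integral_exp_mul_complex_Ioi (a := -s) (by simpa using hs) 1
  simp only [neg_mul] at h1 h2
  refine ⟨h1, ?_⟩
  rw [h2, norm_div, norm_neg, norm_neg]
  refine div_le_div_of_nonneg_right ?_ (norm_nonneg _)
  rw [Complex.norm_exp, Real.exp_le_one_iff]
  simp
  linarith

/-- **A zero on the line and the transform of the absolute value.** -/
theorem low_lap (D : Dat lam c δ σ) {G₀ : ℂ → ℂ} {k : ℕ} {η : ℝ} (hη : 0 < η)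
    (hG : ∀ s : ℂ, -η < s.re → DifferentiableAt ℂ G₀ s)
    (hexp : ∀ s : ℂ, σ < s.re → s ^ k * exp (-DD lam c s) = G₀ s) {r q : ℝ}
    (hE : IntegrableOn (fun T : ℝ => (Sh lam c T - r * Real.log T - q) ^ 2) (Ioi 1)) {γ : ℝ}
    (hγ : γ ≠ 0) (hz : G₀ (γ * I) = 0) :
    ∃ c₁ A x₀ : ℝ, 0 < c₁ ∧ 0 < x₀ ∧ ∀ x : ℝ, 0 < x → x < x₀ →
      IntegrableOn (fun u => |Sh lam c u - r * Real.log u - q| * Real.exp (-(x * u))) (Ioi 1) ∧
      c₁ * Real.log (1 / x) - A ≤
        ∫ u in Ioi (1 : ℝ), |Sh lam c u - r * Real.log u - q| * Real.exp (-(x * u)) := by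
  have hσ := D.σ0
  set f : ℝ → ℝ := fun u => Sh lam c u - r * Real.log u - q with hf
  have hSm := sh_meas D
  have hfm : Measurable f := (hSm.sub (Real.measurable_log.const_mul r)).sub_const q
  have hexi : ∀ x : ℝ, 0 < x → IntegrableOn (fun u : ℝ => Real.exp (-(x * u))) (Ioi 1) := by
    intro x hx
    have h1 : IntegrableOn (fun u : ℝ => Real.exp (-x * u)) (Ioi 1) :=
      integrableOn_exp_mul_Ioi (a := -x) (by linarith) 1
    refine h1.congr_fun (fun u _ => ?_) measurableSet_Ioi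
    simp only [neg_mul]
  -- integrability
  have hfi : ∀ x : ℝ, 0 < x → IntegrableOn (fun u => |f u| * Real.exp (-(x * u))) (Ioi 1) := by
    intro x hx
    refine Integrable.mono' (hE.add (hexi (2 * x) (by linarith)))
      (hfm.abs.mul (by fun_prop)).aestronglyMeasurable (Eventually.of_forall fun u => ?_)
    rw [Real.norm_of_nonneg (by positivity)]
    simp only [Pi.add_apply]
    have e1 : Real.exp (-(2 * x * u)) = Real.exp (-(x * u)) ^ 2 := by
      rw [← Real.exp_nat_mul]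
      congr 1
      push_cast
      ring
    rw [e1]
    have e2 : (Sh lam c u - r * Real.log u - q) ^ 2 = |f u| ^ 2 := by
      rw [sq_abs]
    rw [e2]
    nlinarith [sq_nonneg (|f u| - Real.exp (-(x * u))), sq_nonneg (|f u| + Real.exp (-(x * u)))]
  have hS1 : IntegrableOn (fun u => |Sh lam c u|) (Ioc 0 1) := by
    have hS0 : 0 ≤ ∑' n, |c n| * Real.exp (-(σ * lam n)) := tsum_nonneg fun n => by positivity
    refine Measure.integrableOn_of_bounded
      (M := Real.exp (σ * 1) * ∑' n, |c n| * Real.exp (-(σ * lam n))) (by simp)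
      hSm.abs.aestronglyMeasurable ?_
    filter_upwards [ae_restrict_mem measurableSet_Ioc] with u hu
    rw [Real.norm_eq_abs, abs_abs]
    refine (sh_le D u).trans (mul_le_mul_of_nonneg_right (Real.exp_le_exp.2 ?_) hS0)
    exact mul_le_mul_of_nonneg_left hu.2 hσ.le
  have hsplit : Ioi (0 : ℝ) = Ioc 0 1 ∪ Ioi 1 := (Ioc_union_Ioi_eq_Ioi zero_le_one).symm
  have hdisj : Disjoint (Ioc (0 : ℝ) 1) (Ioi 1) := Set.disjoint_left.2 (by
    rintro x ⟨-, h1⟩ h2
    have : (1 : ℝ) < x := h2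
    linarith)
  -- complex integrability
  have j1 : ∀ s : ℂ, 0 < s.re →
      IntegrableOn (fun u : ℝ => (Sh lam c u : ℂ) * exp (-(s * u))) (Ioc 0 1) := by
    intro s hs
    refine Integrable.mono' hS1 ((Complex.measurable_ofReal.comp hSm).mul
      (by fun_prop)).aestronglyMeasurable ?_
    filter_upwards [ae_restrict_mem measurableSet_Ioc] with u hu
    rw [norm_mul, norm_exp_neg, Complex.norm_real, Real.norm_eq_abs]
    have : Real.exp (-(s.re * u)) ≤ 1 := by
      rw [Real.exp_le_one_iff]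
      have := mul_pos hs hu.1
      linarith
    calc _ ≤ |Sh lam c u| * 1 := mul_le_mul_of_nonneg_left this (abs_nonneg _)
      _ = _ := mul_one _
  have j2 : ∀ s : ℂ, 0 < s.re → IntegrableOn (fun u : ℝ => (f u : ℂ) * exp (-(s * u))) (Ioi 1) := by
    intro s hs
    refine Integrable.mono' (hfi s.re hs) ((Complex.measurable_ofReal.comp hfm).mul
      (by fun_prop)).aestronglyMeasurable (Eventually.of_forall fun u => ?_)
    rw [norm_mul, norm_exp_neg, Complex.norm_real, Real.norm_eq_abs]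
  have j3 : ∀ s : ℂ, 0 < s.re → IntegrableOn (fun u : ℝ => (f u : ℂ) * exp (-(s * u)) +
      (r : ℂ) * ((Real.log u : ℂ) * exp (-(s * u))) + (q : ℂ) * exp (-(s * u))) (Ioi 1) := by
    intro s hs
    exact ((j2 s hs).add ((log_tr hs).1.const_mul _)).add ((one_tr hs).1.const_mul _)
  have hsum : ∀ (s : ℂ) (u : ℝ), (Sh lam c u : ℂ) * exp (-(s * u)) =
      (f u : ℂ) * exp (-(s * u)) +
      (r : ℂ) * ((Real.log u : ℂ) * exp (-(s * u))) + (q : ℂ) * exp (-(s * u)) := by
    intro s u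
    rw [hf]
    push_cast
    ring
  have j4 : ∀ s : ℂ, 0 < s.re →
      IntegrableOn (fun u : ℝ => (Sh lam c u : ℂ) * exp (-(s * u))) (Ioi 1) := by
    intro s hs
    simp only [hsum]
    exact j3 s hs
  have hLI : ∀ x : ℝ, 0 < x → LInt (Sh lam c) x := by
    intro x hx
    have h1 := (j1 x (by simpa using hx)).union (j4 x (by simpa using hx))
    rw [← hsplit] at h1
    unfold LInt
    have h2 := h1.re
    refine h2.congr (Eventually.of_forall fun u => ?_)
    simp only [RCLike.re_to_complex]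
    have e1 : exp (-((x : ℂ) * u)) = ((Real.exp (-(x * u)) : ℝ) : ℂ) := by
      push_cast
      rfl
    rw [e1, ← Complex.ofReal_mul, Complex.ofReal_re]
  -- the transform
  set L : ℂ → ℂ := lapC (Sh lam c) with hL
  have hLd : ∀ s : ℂ, 0 < s.re → DifferentiableAt ℂ L s := fun s hs =>
    lapC_differentiableAt hSm (fun w hw => hLI w hw) hs
  have hLe : ∀ s : ℂ, σ < s.re → L s = DD lam c s / s := by
    intro s hs
    rw [← sh_lap D hs, hL]
    unfold lapC
    refine setIntegral_eq_integral_of_forall_compl_eq_zero fun u hu => ?_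
    rw [sh_zero D (by
      have : u ≤ 0 := by simpa using hu
      linarith [D.δ0])]
    simp
  set Q : ℂ → ℂ := fun s => s ^ k * exp (-(s * L s)) with hQ
  have hQd : ∀ s : ℂ, 0 < s.re → DifferentiableAt ℂ Q s := fun s hs =>
    (differentiableAt_id.pow k).mul (((differentiableAt_id.mul (hLd s hs)).neg).cexp)
  have hU : IsOpen {s : ℂ | 0 < s.re} := isOpen_lt continuous_const Complex.continuous_re
  have hUc : Convex ℝ {s : ℂ | 0 < s.re} := convex_halfSpace_re_gt 0
  have a1 : AnalyticOnNhd ℂ G₀ {s : ℂ | 0 < s.re} :=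
    DifferentiableOn.analyticOnNhd (fun z hz => (hG z (by
      have : 0 < z.re := hz
      linarith)).differentiableWithinAt) hU
  have a2 : AnalyticOnNhd ℂ Q {s : ℂ | 0 < s.re} :=
    DifferentiableOn.analyticOnNhd (fun z hz => (hQd z hz).differentiableWithinAt) hU
  have hfar : ∀ s : ℂ, σ < s.re → G₀ s = Q s := by
    intro s hs
    have hs0 : 0 < s.re := hσ.trans hs
    have hs1 : s ≠ 0 := by rintro rfl; simp at hs0
    rw [← hexp s hs, hQ]
    simp only
    rw [hLe s hs]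
    congr 2
    field_simp
  have hEq := a1.eqOn_of_preconnected_of_eventuallyEq a2 hUc.isPreconnected
    (z₀ := ((σ + 1 : ℝ) : ℂ)) (by
      show (0 : ℝ) < (((σ + 1 : ℝ) : ℂ)).re
      rw [Complex.ofReal_re]
      linarith) (by
    have ho : IsOpen {s : ℂ | σ < s.re} := isOpen_lt continuous_const Complex.continuous_re
    filter_upwards [ho.mem_nhds (show σ < (((σ + 1 : ℝ) : ℂ)).re by
      rw [Complex.ofReal_re]; linarith)] with s hs
    exact hfar s hs)
  -- the bound of the transform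
  set A₁ : ℝ := (∫ u in Ioc (0 : ℝ) 1, |Sh lam c u|) + |r| * (2 / γ ^ 2) + |q| * (1 / |γ|) with hA₁
  have hγ0 : 0 < |γ| := abs_pos.2 hγ
  have hbound : ∀ x : ℝ, 0 < x → ‖L (x + γ * I)‖ ≤
      A₁ + ∫ u in Ioi (1 : ℝ), |f u| * Real.exp (-(x * u)) := by
    intro x hx
    set s : ℂ := x + γ * I with hs
    have hsre : s.re = x := by rw [hs]; simp
    have hs0 : 0 < s.re := by rw [hsre]; exact hx
    have hsn : |γ| ≤ ‖s‖ := by
      have := Complex.abs_im_le_norm s
      rw [hs] at this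
      simpa using this
    have e1 : L s = (∫ u in Ioc (0 : ℝ) 1, (Sh lam c u : ℂ) * exp (-(s * u))) +
        ((∫ u in Ioi (1 : ℝ), (f u : ℂ) * exp (-(s * u))) +
          r * (∫ u in Ioi (1 : ℝ), (Real.log u : ℂ) * exp (-(s * u))) +
          q * ∫ u in Ioi (1 : ℝ), exp (-(s * u))) := by
      rw [hL]
      unfold lapC
      rw [hsplit, setIntegral_union hdisj measurableSet_Ioi (j1 s hs0) (j4 s hs0)]
      congr 1
      simp only [hsum]
      have k1 : IntegrableOn (fun u : ℝ => (r : ℂ) * ((Real.log u : ℂ) * exp (-(s * u)))) (Ioi 1) :=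
        (log_tr hs0).1.const_mul _
      have k2 : IntegrableOn (fun u : ℝ => (q : ℂ) * exp (-(s * u))) (Ioi 1) :=
        (one_tr hs0).1.const_mul _
      have k3 : IntegrableOn (fun u : ℝ => (f u : ℂ) * exp (-(s * u)) +
          (r : ℂ) * ((Real.log u : ℂ) * exp (-(s * u)))) (Ioi 1) := (j2 s hs0).add k1
      rw [integral_add k3 k2, integral_add (j2 s hs0) k1, integral_const_mul, integral_const_mul]
    have n1 : ‖∫ u in Ioc (0 : ℝ) 1, (Sh lam c u : ℂ) * exp (-(s * u))‖ ≤
        ∫ u in Ioc (0 : ℝ) 1, |Sh lam c u| := by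
      refine norm_integral_le_of_norm_le hS1 ?_
      filter_upwards [ae_restrict_mem measurableSet_Ioc] with u hu
      rw [norm_mul, norm_exp_neg, Complex.norm_real, Real.norm_eq_abs]
      have : Real.exp (-(s.re * u)) ≤ 1 := by
        rw [Real.exp_le_one_iff]
        have := mul_pos hs0 hu.1
        linarith
      calc _ ≤ |Sh lam c u| * 1 := mul_le_mul_of_nonneg_left this (abs_nonneg _)
        _ = _ := mul_one _
    have n2 : ‖∫ u in Ioi (1 : ℝ), (f u : ℂ) * exp (-(s * u))‖ ≤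
        ∫ u in Ioi (1 : ℝ), |f u| * Real.exp (-(x * u)) := by
      refine norm_integral_le_of_norm_le (hfi x hx) (Eventually.of_forall fun u => ?_)
      rw [norm_mul, norm_exp_neg, Complex.norm_real, Real.norm_eq_abs, hsre]
    have n3 : ‖(r : ℂ) * ∫ u in Ioi (1 : ℝ), (Real.log u : ℂ) * exp (-(s * u))‖ ≤
        |r| * (2 / γ ^ 2) := by
      rw [norm_mul, Complex.norm_real, Real.norm_eq_abs]
      refine mul_le_mul_of_nonneg_left ((log_tr hs0).2.trans ?_) (abs_nonneg _)
      rw [← sq_abs γ]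
      exact div_le_div_of_nonneg_left (by norm_num) (by positivity)
        (pow_le_pow_left₀ (abs_nonneg _) hsn 2)
    have n4 : ‖(q : ℂ) * ∫ u in Ioi (1 : ℝ), exp (-(s * u))‖ ≤ |q| * (1 / |γ|) := by
      rw [norm_mul, Complex.norm_real, Real.norm_eq_abs]
      refine mul_le_mul_of_nonneg_left ((one_tr hs0).2.trans ?_) (abs_nonneg _)
      exact one_div_le_one_div_of_le hγ0 hsn
    rw [e1]
    have m1 := norm_add_le (∫ u in Ioc (0 : ℝ) 1, (Sh lam c u : ℂ) * exp (-(s * u)))
      ((∫ u in Ioi (1 : ℝ), (f u : ℂ) * exp (-(s * u))) +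
          r * (∫ u in Ioi (1 : ℝ), (Real.log u : ℂ) * exp (-(s * u))) +
          q * ∫ u in Ioi (1 : ℝ), exp (-(s * u)))
    have m2 := norm_add_le ((∫ u in Ioi (1 : ℝ), (f u : ℂ) * exp (-(s * u))) +
          r * (∫ u in Ioi (1 : ℝ), (Real.log u : ℂ) * exp (-(s * u))))
          (q * ∫ u in Ioi (1 : ℝ), exp (-(s * u)))
    have m3 := norm_add_le (∫ u in Ioi (1 : ℝ), (f u : ℂ) * exp (-(s * u)))
          (r * (∫ u in Ioi (1 : ℝ), (Real.log u : ℂ) * exp (-(s * u))))
    rw [hA₁]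
    linarith
  -- the bound of `G₀`
  have hGd : DifferentiableAt ℂ G₀ (γ * I) := hG _ (by simpa using hη)
  have hO := hGd.isBigO_sub
  obtain ⟨C₂, hC₂⟩ := hO.bound
  obtain ⟨x₁, hx₁, hx₁b⟩ := Metric.eventually_nhds_iff.1 hC₂
  set C₃ : ℝ := |C₂| + 1 with hC₃
  have hC₃0 : 0 < C₃ := by positivity
  set R : ℝ := |γ| + 1 with hR
  have hR0 : 0 < R := by positivity
  refine ⟨1 / R, A₁ - (k * Real.log |γ| - Real.log C₃) / R, min x₁ 1, by positivity,
    lt_min hx₁ one_pos, fun x hx hx2 => ⟨hfi x hx, ?_⟩⟩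
  have hxx1 : x < x₁ := hx2.trans_le (min_le_left _ _)
  have hx1 : x < 1 := hx2.trans_le (min_le_right _ _)
  set s : ℂ := x + γ * I with hs
  have hsre : s.re = x := by rw [hs]; simp
  have hs0 : 0 < s.re := by rw [hsre]; exact hx
  have hsn : |γ| ≤ ‖s‖ := by
    have := Complex.abs_im_le_norm s
    rw [hs] at this
    simpa using this
  have hsn2 : ‖s‖ ≤ R := by
    rw [hs, hR]
    refine (norm_add_le _ _).trans ?_
    rw [norm_mul, Complex.norm_I, mul_one, Complex.norm_real, Complex.norm_real,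
      Real.norm_eq_abs, Real.norm_eq_abs, abs_of_pos hx]
    linarith
  have g1 : ‖G₀ s‖ ≤ C₃ * x := by
    have e1 : s - γ * I = (x : ℂ) := by rw [hs]; ring
    have e2 := hx₁b (y := s) (by
      rw [dist_eq_norm, e1, Complex.norm_real, Real.norm_of_nonneg hx.le]
      exact hxx1)
    rw [hz, sub_zero, e1, Complex.norm_real, Real.norm_of_nonneg hx.le] at e2
    refine e2.trans (mul_le_mul_of_nonneg_right ?_ hx.le)
    rw [hC₃]
    linarith [le_abs_self C₂]
  have g2 : |γ| ^ k * Real.exp (-(R * ‖L s‖)) ≤ ‖G₀ s‖ := by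
    rw [hEq hs0, hQ]
    simp only
    rw [norm_mul, norm_pow, Complex.norm_exp]
    refine mul_le_mul (pow_le_pow_left₀ (abs_nonneg _) hsn k) (Real.exp_le_exp.2 ?_)
      (Real.exp_pos _).le (by positivity)
    rw [Complex.neg_re]
    have e1 := Complex.re_le_norm (s * L s)
    rw [norm_mul] at e1
    have e2 := mul_le_mul_of_nonneg_right hsn2 (norm_nonneg (L s))
    linarith
  have g3 : k * Real.log |γ| - R * ‖L s‖ ≤ Real.log C₃ + Real.log x := by
    have e1 := Real.log_le_log (by positivity) (g2.trans g1)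
    rw [Real.log_mul (by positivity) (Real.exp_pos _).ne', Real.log_pow, Real.log_exp,
      Real.log_mul hC₃0.ne' hx.ne'] at e1
    linarith
  have g4 := hbound x hx
  rw [← hs] at g4
  have g5 : Real.log (1 / x) = -Real.log x := by
    rw [one_div, Real.log_inv]
  rw [g5]
  have g6 : (-Real.log x + (k * Real.log |γ| - Real.log C₃)) / R ≤ ‖L s‖ := by
    rw [div_le_iff₀ hR0]
    linarith
  have g7 : (-Real.log x + (k * Real.log |γ| - Real.log C₃)) / R =
      1 / R * -Real.log x + (k * Real.log |γ| - Real.log C₃) / R := by ring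
  linarith

end Pool.Agent.Q195.CR
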