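import Pool.Agent.Q195.CR.Low

/-! The lower bound for the means. -/

set_option autoImplicit false

open MeasureTheory Filter Topology Set
open Pool.Agent.TH942.LS (Dat)
open Pool.Agent.TH942.SL
open Pool.Agent.TH942.ES
open Pool.Agent.TH270.RS (cS')
open Pool.Agent.W263.BSD (GoodPrime pointCount IsLSeries bsdProduct bsdStar bsdProduct_pos
  bsdStar_pos rsSum corr_tendsto)

namespace Pool.Agent.Q195.CR

open Pool.Agent.TH270.MS
open Pool.Agent.TH270.MS.EQ

section series

variable {lam c : ℕ → ℝ} {δ σ : ℝ}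

/-- **The mean of the absolute value is at least `c log T`.** -/
theorem low_mean (D : Dat lam c δ σ) {G₀ : ℂ → ℂ} {k : ℕ} {η : ℝ} (hη : 0 < η)
    (hG : ∀ s : ℂ, -η < s.re → DifferentiableAt ℂ G₀ s)
    (hexp : ∀ s : ℂ, σ < s.re → s ^ k * Complex.exp (-DD lam c s) = G₀ s) {r q K : ℝ}
    (hE : IntegrableOn (fun T : ℝ => (Sh lam c T - r * Real.log T - q) ^ 2) (Ioi 1))
    (hK : ∀ T : ℝ, 1 ≤ T → ∫ t in T..T + 1, (t * (Sh lam c t - r * Real.log t - q)) ^ 2 ≤ K)
    {γ : ℝ} (hγ : γ ≠ 0) (hz : G₀ (γ * Complex.I) = 0) :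
    ∃ c₁ : ℝ, 0 < c₁ ∧ ∀ᶠ T : ℝ in atTop,
      c₁ * Real.log T ≤ ∫ u in (1 : ℝ)..T, |Sh lam c u - r * Real.log u - q| := by
  obtain ⟨c₁, A, x₀, hc₁, hx₀, hlow⟩ := low_lap D hη hG hexp hE hγ hz
  set f : ℝ → ℝ := fun u => Sh lam c u - r * Real.log u - q with hf
  have hfm : Measurable f := ((sh_meas D).sub (Real.measurable_log.const_mul r)).sub_const q
  set b : ℝ → ℝ := (Ici (1 : ℝ)).indicator fun u => u * f u with hb
  have hbm : Measurable b := (measurable_id.mul hfm).indicator measurableSet_Ici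
  -- local mean squares
  have hint : ∀ T : ℝ, 1 ≤ T → IntegrableOn (fun u => (u * f u) ^ 2) (Icc T (T + 1)) := by
    intro T hT
    rw [integrableOn_Icc_iff_integrableOn_Ioc]
    have h1 : IntegrableOn (fun u => (T + 1) ^ 2 * f u ^ 2) (Ioc T (T + 1)) :=
      (IntegrableOn.mono_set hE (Ioc_subset_Ioi_self.trans (Ioi_subset_Ioi hT))).const_mul _
    refine Integrable.mono' h1 ((measurable_id.mul hfm).pow_const 2).aestronglyMeasurable ?_
    filter_upwards [ae_restrict_mem measurableSet_Ioc] with u hu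
    have hu0 : 0 < u := by linarith [hu.1]
    rw [Real.norm_of_nonneg (sq_nonneg _), mul_pow]
    exact mul_le_mul_of_nonneg_right (pow_le_pow_left₀ hu0.le hu.2 2) (sq_nonneg _)
  have hLB : LB b |K| := by
    intro T
    set T' : ℝ := max T 1 with hT'
    have hT1 : 1 ≤ T' := le_max_right _ _
    have hsub : Icc T (T + 1) ∩ Ici 1 ⊆ Icc T' (T' + 1) := by
      rintro u ⟨⟨h1, h2⟩, h3⟩
      exact ⟨max_le h1 h3, by linarith [le_max_left T 1]⟩
    have hsq : (fun u => b u ^ 2) = (Ici (1 : ℝ)).indicator fun u => (u * f u) ^ 2 := by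
      funext u
      rw [hb]
      by_cases hu : u ∈ Ici (1 : ℝ)
      · rw [indicator_of_mem hu, indicator_of_mem hu]
      · rw [indicator_of_notMem hu, indicator_of_notMem hu]
        norm_num
    have i1 := hint T' hT1
    refine ⟨?_, ?_⟩
    · rw [hsq, integrableOn_indicator_iff measurableSet_Ici, inter_comm]
      exact i1.mono_set hsub
    · rw [hsq, setIntegral_indicator measurableSet_Ici]
      refine (setIntegral_mono_set i1 (Eventually.of_forall fun _ => sq_nonneg _)
        hsub.eventuallyLE).trans ?_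
      have h1 := hK T' hT1
      rw [intervalIntegral.integral_of_le (by linarith), ← integral_Icc_eq_integral_Ioc] at h1
      exact h1.trans (le_abs_self K)
  set B : ℝ := 2 * (1 + |K|) with hB
  have hB0 : 0 < B := by positivity
  have hloc : ∀ T : ℝ, 1 ≤ T → IntegrableOn (fun u => |f u|) (Ioc 1 T) := by
    intro T hT
    have h1 : IntegrableOn (fun u => 1 + f u ^ 2) (Ioc 1 T) :=
      (integrableOn_const (by simp)).add (IntegrableOn.mono_set hE Ioc_subset_Ioi_self)
    refine Integrable.mono' h1 hfm.abs.aestronglyMeasurable (Eventually.of_forall fun u => ?_)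
    rw [Real.norm_eq_abs, abs_abs]
    have := sq_abs (f u)
    nlinarith [sq_nonneg (|f u| - 1)]
  -- the comparison
  have hcmp : ∀ T : ℝ, 1 ≤ T → 1 / T < x₀ →
      c₁ * Real.log T - A - B ≤ ∫ u in (1 : ℝ)..T, |f u| := by
    intro T hT hTx
    have hT0 : 0 < T := by linarith
    obtain ⟨h1, h2⟩ := hlow (1 / T) (by positivity) hTx
    rw [one_div_one_div] at h2
    have h3 : ∀ᶠ U : ℝ in atTop, ∫ u in (1 : ℝ)..U, |f u| * Real.exp (-(1 / T * u)) ≤
        (∫ u in (1 : ℝ)..T, |f u|) + B := by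
      filter_upwards [eventually_ge_atTop T] with U hU
      have i1 : IntegrableOn (fun u => |f u| * Real.exp (-(1 / T * u))) (Ioc 1 T) :=
        h1.mono_set Ioc_subset_Ioi_self
      have i2 : IntegrableOn (fun u => |f u| * Real.exp (-(1 / T * u))) (Ioc T U) :=
        h1.mono_set (Ioc_subset_Ioi_self.trans (Ioi_subset_Ioi hT))
      rw [intervalIntegral.integral_of_le (hT.trans hU), intervalIntegral.integral_of_le hT,
        ← Ioc_union_Ioc_eq_Ioc hT hU, setIntegral_union (Set.disjoint_left.2 (by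
          rintro x ⟨-, h1⟩ ⟨h2, -⟩
          linarith)) measurableSet_Ioc i1 i2]
      refine add_le_add ?_ ?_
      · refine setIntegral_mono_on i1 (hloc T hT) measurableSet_Ioc fun u hu => ?_
        have hu0 : 0 < u := by linarith [hu.1]
        have : Real.exp (-(1 / T * u)) ≤ 1 := by
          rw [Real.exp_le_one_iff]
          have : 0 < 1 / T * u := by positivity
          linarith
        calc _ ≤ |f u| * 1 := mul_le_mul_of_nonneg_left this (abs_nonneg _)
          _ = _ := mul_one _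
      · obtain ⟨j1, j2⟩ := hLB.tail hbm (u := U) hT
        have j3 : ∫ u in Ioc T U, |f u| * Real.exp (-(1 / T * u)) ≤
            ∫ u in Ioc T U, T * (|b u| * (1 / u ^ 2)) := by
          refine setIntegral_mono_on i2 (j1.const_mul T) measurableSet_Ioc fun u hu => ?_
          have hu1 : T < u := hu.1
          have hu0 : 0 < u := by linarith
          have e1 : b u = u * f u := by
            rw [hb, indicator_of_mem (show u ∈ Ici (1 : ℝ) from by
              show (1 : ℝ) ≤ u
              linarith)]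
          have e2 : Real.exp (-(1 / T * u)) ≤ T / u := by
            have e3 := Real.add_one_le_exp (1 / T * u)
            rw [Real.exp_neg, ← one_div, div_le_div_iff₀ (Real.exp_pos _) hu0]
            have e4 : T * (1 / T * u) = u := by field_simp
            nlinarith
          rw [e1, abs_mul, abs_of_pos hu0]
          calc |f u| * Real.exp (-(1 / T * u)) ≤ |f u| * (T / u) :=
                mul_le_mul_of_nonneg_left e2 (abs_nonneg _)
            _ = _ := by
              field_simp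
        refine j3.trans ?_
        rw [integral_const_mul]
        calc T * _ ≤ T * (2 * (1 + |K|) / T) := mul_le_mul_of_nonneg_left j2 hT0.le
          _ = B := by
            rw [hB]
            field_simp
    have h4 := intervalIntegral_tendsto_integral_Ioi 1 h1 tendsto_id
    have h5 := le_of_tendsto h4 h3
    linarith
  refine ⟨c₁ / 2, by positivity, ?_⟩
  have hl : Tendsto (fun T : ℝ => c₁ / 2 * Real.log T) atTop atTop :=
    Real.tendsto_log_atTop.const_mul_atTop (by positivity)
  filter_upwards [hl.eventually_ge_atTop (A + B), eventually_ge_atTop 1,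
    eventually_gt_atTop (1 / x₀)] with T h1 h2 h3
  have h4 : 1 / T < x₀ := by
    rw [div_lt_iff₀ (by linarith)]
    rw [div_lt_iff₀ hx₀] at h3
    linarith
  have := hcmp T h2 h4
  linarith

end series

variable {a b : ℤ} {F : ℂ → ℂ}

/-- **The lower bound for the curve.** -/
theorem curve_low (hF : IsLSeries a b F) {η C₀ : ℝ} {κ : ℕ} (hη : 0 < η)
    (hg : ∀ s : ℂ, 1 - η < s.re → ‖F s‖ ≤ C₀ * (1 + ‖s‖) ^ κ) (ρ : ℝ) {C : ℝ} (hC : 0 < C)
    (hsq : IntegrableOn (fun x : ℝ => devStar a b ρ C x ^ 2 / x) (Ioi (Real.exp 1)))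
    {γ : ℝ} (hγ : γ ≠ 0) (hz : F (1 + γ * Complex.I) = 0) :
    ∃ c : ℝ, 0 < c ∧ ∀ᶠ X : ℝ in atTop, c * Real.log (Real.log X) ≤
      ∫ x in Real.exp 1..X, |devStar a b ρ C x| / x := by
  obtain ⟨K, hK⟩ := star_close a b
  have H := curve_mc hF hη hg
  have r1 : ∀ x : ℝ, Real.exp 1 ≤ x →
      |devStar a b ρ C x - (-DvR (nQ a b) (alQ a b) ρ (AC ρ C) x)| ≤ K * x ^ (-(1 / 12 : ℝ)) := by
    intro x hx
    have h1 : devStar a b ρ C x - (-DvR (nQ a b) (alQ a b) ρ (AC ρ C) x) =
        Real.log (bsdStar a b x) + Pl (nQ a b) (alQ a b) x := by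
      rw [dvR_AC hC, devStar_eq hC hx]
      ring
    rw [h1]
    exact hK x hx
  have bmD : BM (DvR (nQ a b) (alQ a b) ρ (AC ρ C)) := by
    refine BM.congr (((bm_pl H).add ((BM.const ρ).mul BM.loglog)).add
      (BM.const (Real.log C - Real.log 2 / 2))) fun x _ => ?_
    rw [dvR_AC hC]
    ring
  have bmS := bm_devStar a b (ρ := ρ) hC
  have h5 : IntegrableOn (fun x : ℝ => DvR (nQ a b) (alQ a b) ρ (AC ρ C) x ^ 2 / x)
      (Ioi (Real.exp 1)) := by
    have h1 := sq_int_of_close (f := fun x => -DvR (nQ a b) (alQ a b) ρ (AC ρ C) x)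
      (g := devStar a b ρ C) (C := K) bmD.neg.1 (fun y hy => by
        rw [abs_sub_comm]
        exact r1 y hy) hsq
    simpa only [neg_sq] using h1
  obtain ⟨e, g, p, he, Q⟩ := H.cn
  have t := Q.tfae ρ (ρ * Real.eulerMascheroniConstant - Real.log (AC ρ C))
  have h6 := (dvR_sq H.E he ρ (AC ρ C)).1 h5
  obtain ⟨h7, h8, -⟩ := (t.out 0 1).2 h6
  obtain ⟨M, hM⟩ := cn_rate Q h7 h8 h6
  obtain ⟨c₁, hc₁, hlow⟩ := low_mean Q.D Q.hη Q.hG Q.hexp h6 hM hγ hz
  refine ⟨c₁ / 2, by positivity, ?_⟩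
  rw [eventually_exp_iff (f := fun X => c₁ / 2 * Real.log (Real.log X) ≤
      ∫ x in Real.exp 1..X, |devStar a b ρ C x| / x)]
  have hl : Tendsto (fun T : ℝ => c₁ / 2 * Real.log T) atTop atTop :=
    Real.tendsto_log_atTop.const_mul_atTop (by positivity)
  filter_upwards [hlow, eventually_ge_atTop 1, hl.eventually_ge_atTop (12 * |K|)] with T h1 h2 h3
  rw [Real.log_exp]
  have heT : Real.exp 1 ≤ Real.exp T := Real.exp_le_exp.2 h2
  rw [← dvR_abs H.E he ρ _ h2] at h1
  have i1 : IntervalIntegrable (fun x : ℝ => x ^ (-(13 / 12) : ℝ)) volume (Real.exp 1)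
      (Real.exp T) := by
    rw [intervalIntegrable_iff_integrableOn_Ioc_of_le heT]
    exact (integrableOn_Ioi_rpow_of_lt (by norm_num) (Real.exp_pos 1)).mono_set
      Ioc_subset_Ioi_self
  have h4 : ∫ x in Real.exp 1..Real.exp T, |DvR (nQ a b) (alQ a b) ρ (AC ρ C) x| / x ≤
      ∫ x in Real.exp 1..Real.exp T, (|devStar a b ρ C x| / x + |K| * x ^ (-(13 / 12) : ℝ)) := by
    refine intervalIntegral.integral_mono_on heT (bmD.li.abs.div _ heT)
      ((bmS.li.abs.div _ heT).add (i1.const_mul _)) fun x hx => ?_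
    have hx0 : 0 < x := (Real.exp_pos 1).trans_le hx.1
    have e1 := r1 x hx.1
    set d := devStar a b ρ C x
    set v := DvR (nQ a b) (alQ a b) ρ (AC ρ C) x
    have e2 : |v| ≤ |d| + |K| * x ^ (-(1 / 12 : ℝ)) := by
      have e3 : K * x ^ (-(1 / 12 : ℝ)) ≤ |K| * x ^ (-(1 / 12 : ℝ)) :=
        mul_le_mul_of_nonneg_right (le_abs_self K) (by positivity)
      have e4 : -v = d - (d - -v) := by ring
      rw [← abs_neg v, e4]
      refine (abs_sub _ _).trans ?_
      linarith
    have e5 : x ^ (-(13 / 12) : ℝ) = x ^ (-(1 / 12 : ℝ)) / x := by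
      rw [div_eq_mul_inv (x ^ (-(1 / 12 : ℝ))) x, ← Real.rpow_neg_one x, ← Real.rpow_add hx0]
      congr 1
      norm_num
    calc |v| / x ≤ (|d| + |K| * x ^ (-(1 / 12 : ℝ))) / x := by gcongr
      _ = _ := by
        rw [e5]
        ring
  rw [intervalIntegral.integral_add (bmS.li.abs.div _ heT) (i1.const_mul _),
    intervalIntegral.integral_const_mul] at h4
  have h5' : ∫ x in Real.exp 1..Real.exp T, x ^ (-(13 / 12) : ℝ) ≤ 12 := by
    rw [intervalIntegral.integral_of_le heT]
    refine (setIntegral_mono_set (integrableOn_Ioi_rpow_of_lt (by norm_num) (Real.exp_pos 1)) ?_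
      Ioc_subset_Ioi_self.eventuallyLE).trans ?_
    · filter_upwards [ae_restrict_mem measurableSet_Ioi] with x hx
      have : 0 < x := (Real.exp_pos 1).trans hx
      show 0 ≤ x ^ (-(13 / 12) : ℝ)
      positivity
    · rw [integral_Ioi_rpow_of_lt (by norm_num) (Real.exp_pos 1)]
      have e1 : Real.exp (-(1 / 12 : ℝ)) ≤ 1 := by
        rw [Real.exp_le_one_iff]
        norm_num
      norm_num
      rw [div_le_iff₀ (by norm_num)]
      linarith
  have h6' : |K| * ∫ x in Real.exp 1..Real.exp T, x ^ (-(13 / 12) : ℝ) ≤ |K| * 12 :=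
    mul_le_mul_of_nonneg_left h5' (abs_nonneg _)
  linarith

end Pool.Agent.Q195.CR
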