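import Pool.Agent.Q195.CR.Low2

/-! The weighted square is not integrable. -/

set_option autoImplicit false

open MeasureTheory Filter Topology Set

namespace Pool.Agent.Q195.CR

open Pool.Agent.TH270.MS

theorem int_loglog {X : ℝ} (hX : Real.exp 1 ≤ X) :
    ∫ x in Real.exp 1..X, 1 / Real.log x / x = Real.log (Real.log X) := by
  have hX0 : 0 < X := (Real.exp_pos 1).trans_le hX
  have hl := one_le_log hX
  have h1 := cov_gen (fun u => 1 / u) hl
  rw [Real.exp_log hX0, integral_one_div_of_pos one_pos (by linarith), div_one] at h1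
  exact h1

/-- a lower bound for the means excludes a weighted square integrability -/
theorem not_int {D : ℝ → ℝ} (hD : BM D) {c : ℝ} (hc : 0 < c)
    (h : ∀ᶠ X : ℝ in atTop, c * Real.log (Real.log X) ≤ ∫ x in Real.exp 1..X, |D x| / x) :
    ¬ IntegrableOn (fun x => Real.log x * D x ^ 2 / x) (Ioi (Real.exp 1)) := by
  intro hI
  set I : ℝ := ∫ x in Ioi (Real.exp 1), Real.log x * D x ^ 2 / x with hId
  have hl : Tendsto (fun X : ℝ => Real.log (Real.log X)) atTop atTop :=
    Real.tendsto_log_atTop.comp Real.tendsto_log_atTop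
  obtain ⟨X, h1, h2, h3⟩ := (h.and ((eventually_ge_atTop (Real.exp 1)).and
    (hl.eventually_gt_atTop (I / c ^ 2)))).exists
  have hinv : BM fun x => 1 / Real.log x := by
    refine ⟨(measurable_const.div Real.measurable_log).aestronglyMeasurable,
      fun Y => ⟨1, fun y h1 h2 => ?_⟩⟩
    have h3 := one_le_log h1
    rw [abs_of_nonneg (by positivity)]
    exact (div_le_one (by linarith)).2 h3
  have i1 : IntervalIntegrable (fun x : ℝ => 1 / Real.log x / x) volume (Real.exp 1) X :=
    hinv.li.div X h2
  have i2 : IntervalIntegrable (fun x : ℝ => Real.log x * D x ^ 2 / x) volume (Real.exp 1) X := by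
    rw [intervalIntegrable_iff_integrableOn_Ioc_of_le h2]
    exact hI.mono_set Ioc_subset_Ioi_self
  have h4 : ∫ x in Real.exp 1..X, |D x| / x ≤ ∫ x in Real.exp 1..X,
      (1 / (2 * c) * (Real.log x * D x ^ 2 / x) + c / 2 * (1 / Real.log x / x)) := by
    refine intervalIntegral.integral_mono_on h2 (hD.li.abs.div X h2)
      ((i2.const_mul _).add (i1.const_mul _)) fun x hx => ?_
    have hx0 : 0 < x := (Real.exp_pos 1).trans_le hx.1
    have hlx : 0 < Real.log x := by linarith [one_le_log hx.1]
    have e1 : |D x| ≤ 1 / (2 * c) * (Real.log x * D x ^ 2) + c / 2 * (1 / Real.log x) := by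
      have e2 : 1 / (2 * c) * (Real.log x * D x ^ 2) + c / 2 * (1 / Real.log x) - |D x| =
          (Real.log x * |D x| - c) ^ 2 / (2 * c * Real.log x) := by
        rw [← sq_abs (D x)]
        field_simp
        ring
      have e3 : 0 ≤ (Real.log x * |D x| - c) ^ 2 / (2 * c * Real.log x) := by positivity
      linarith
    calc |D x| / x ≤ (1 / (2 * c) * (Real.log x * D x ^ 2) + c / 2 * (1 / Real.log x)) / x := by
          gcongr
      _ = _ := by ring
  rw [intervalIntegral.integral_add (i2.const_mul _) (i1.const_mul _),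
    intervalIntegral.integral_const_mul, intervalIntegral.integral_const_mul,
    int_loglog h2] at h4
  have h5 : ∫ x in Real.exp 1..X, Real.log x * D x ^ 2 / x ≤ I := by
    rw [intervalIntegral.integral_of_le h2]
    refine setIntegral_mono_set hI ?_ Ioc_subset_Ioi_self.eventuallyLE
    filter_upwards [ae_restrict_mem measurableSet_Ioi] with x hx
    have hx1 : Real.exp 1 < x := hx
    have hx0 : 0 < x := (Real.exp_pos 1).trans hx1
    have hlx : 0 < Real.log x := by linarith [one_le_log hx1.le]
    show 0 ≤ Real.log x * D x ^ 2 / x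
    positivity
  rw [div_lt_iff₀ (by positivity)] at h3
  have h6 : 1 / (2 * c) * ∫ x in Real.exp 1..X, Real.log x * D x ^ 2 / x ≤ 1 / (2 * c) * I :=
    mul_le_mul_of_nonneg_left h5 (by positivity)
  have h7 : c / 2 * Real.log (Real.log X) ≤ 1 / (2 * c) * I := by linarith
  have h8 : c / 2 * Real.log (Real.log X) * (2 * c) ≤ 1 / (2 * c) * I * (2 * c) :=
    mul_le_mul_of_nonneg_right h7 (by positivity)
  have h9 : 1 / (2 * c) * I * (2 * c) = I := by field_simp
  rw [h9] at h8
  nlinarith

end Pool.Agent.Q195.CR
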