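import Pool.Agent.Q195.CR.Abel
import Pool.Agent.Q195.OSC.Main

/-! Very short windows. -/

set_option autoImplicit false

open MeasureTheory Filter Topology Set

namespace Pool.Agent.Q195.CR

open Pool.Agent.Q195.OSC

/-- a point at which `b` is small -/
lemma small_pt {b : ℝ → ℝ} {M : ℝ} (hb : LB b M) {s L κ : ℝ} (hL : 0 < L) (hL1 : L ≤ 1)
    (hκ : 0 ≤ κ) (h : M < L * κ ^ 2) : ∃ u, s ≤ u ∧ u ≤ s + L ∧ |b u| ≤ κ := by
  by_contra hcon
  push Not at hcon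
  obtain ⟨h1, h2⟩ := hb s
  have hsub : Icc s (s + L) ⊆ Icc s (s + 1) := Icc_subset_Icc_right (by linarith)
  have h3 : ∫ u in Icc s (s + L), b u ^ 2 ≤ M :=
    (setIntegral_mono_set h1 (Eventually.of_forall fun _ => sq_nonneg _) hsub.eventuallyLE).trans h2
  have h4 : ∫ _u in Icc s (s + L), κ ^ 2 ≤ ∫ u in Icc s (s + L), b u ^ 2 := by
    refine setIntegral_mono_on (by simp) (h1.mono_set hsub) measurableSet_Icc fun u hu => ?_
    have h5 := hcon u hu.1 hu.2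
    rw [← sq_abs (b u)]
    exact pow_le_pow_left₀ hκ h5.le 2
  have h5 : ∫ _u in Icc s (s + L), κ ^ 2 = L * κ ^ 2 := by
    rw [setIntegral_const, Measure.real, Real.volume_Icc, smul_eq_mul]
    congr 1
    rw [ENNReal.toReal_ofReal (by linarith)]
    ring
  linarith

/-- **Slow increase in very short windows.** -/
theorem taub2 {f b : ℝ → ℝ} {M : ℝ} (hb : LB b M)
    (hfb : Tendsto (fun t => f t - b t / t) atTop (𝓝 0))
    (hs : ∀ ε K : ℝ, 0 < ε → 0 < K → ∀ᶠ t : ℝ in atTop, ∀ u : ℝ, t ≤ u → u ≤ t + K / t ^ 2 →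
      f u ≤ f t + ε) : Tendsto f atTop (𝓝 0) := by
  have hM := hb.nonneg
  rw [Metric.tendsto_nhds]
  intro ε hε
  set K : ℝ := 64 * M / (ε / 4) ^ 2 + 1 with hK
  have hK0 : 0 < K := by rw [hK]; positivity
  have hKM : M < K * (ε / 4) ^ 2 / 64 := by
    rw [hK]
    have h1 : (64 * M / (ε / 4) ^ 2 + 1) * (ε / 4) ^ 2 / 64 = M + (ε / 4) ^ 2 / 64 := by
      field_simp
    rw [h1]
    have : 0 < (ε / 4) ^ 2 / 64 := by positivity
    linarith
  have hd : ∀ᶠ t : ℝ in atTop, |f t - b t / t| ≤ ε / 8 := by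
    have := (Metric.tendsto_nhds.1 hfb) (ε / 8) (by linarith)
    filter_upwards [this] with t ht
    rw [Real.dist_eq, sub_zero] at ht
    exact ht.le
  obtain ⟨t0, ht0⟩ := eventually_atTop.1 ((hs (ε / 4) K (by linarith) hK0).and hd)
  filter_upwards [eventually_ge_atTop (2 * |t0|), eventually_ge_atTop (2 : ℝ),
    eventually_ge_atTop K] with t h1 h2 h3
  have htp : 0 < t := by linarith
  have ht0' : t0 ≤ t / 2 := by linarith [le_abs_self t0]
  set L : ℝ := K / t ^ 2 with hL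
  have hL0 : 0 < L := by rw [hL]; positivity
  have hL1 : L ≤ 1 / 2 := by
    rw [hL, div_le_iff₀ (by positivity)]
    nlinarith
  have hLκ : M < L * (ε / 4 * (t / 2)) ^ 2 := by
    have e1 : L * (ε / 4 * (t / 2)) ^ 2 = K * (ε / 4) ^ 2 / 4 := by
      rw [hL]
      field_simp
      ring
    rw [e1]
    have e2 : 0 ≤ K * (ε / 4) ^ 2 := by positivity
    linarith
  -- the point on the left
  obtain ⟨u, u1, u2, u3⟩ := small_pt hb (s := t - L) hL0 (by linarith) (by positivity) hLκ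
  have hu0 : t / 2 ≤ u := by linarith
  have hup : 0 < u := by linarith
  have a1 := (ht0 u (by linarith)).1 t (by linarith) (by
    have e1 : L ≤ K / u ^ 2 := by
      rw [hL]
      exact div_le_div_of_nonneg_left hK0.le (by positivity)
        (pow_le_pow_left₀ hup.le (by linarith) 2)
    linarith)
  have a2 := abs_le.1 (ht0 u (by linarith)).2
  have a3 : |b u / u| ≤ ε / 4 := by
    rw [abs_div, abs_of_pos hup, div_le_iff₀ hup]
    refine u3.trans ?_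
    nlinarith
  have a4 := abs_le.1 a3
  -- the point on the right
  obtain ⟨v, v1, v2, v3⟩ := small_pt hb (s := t) hL0 (by linarith) (by positivity) hLκ
  have hvp : 0 < v := by linarith
  have b1 := (ht0 t (by linarith)).1 v v1 v2
  have b2 := abs_le.1 (ht0 v (by linarith)).2
  have b3 : |b v / v| ≤ ε / 4 := by
    rw [abs_div, abs_of_pos hvp, div_le_iff₀ hvp]
    refine v3.trans ?_
    nlinarith
  have b4 := abs_le.1 b3
  rw [Real.dist_eq, sub_zero, abs_lt]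
  constructor <;> linarith [a2.1, a2.2, a4.1, a4.2, b2.1, b2.2, b4.1, b4.2]

/-- polynomial growth -/
theorem cubic_of_slow {f : ℝ → ℝ} (hs : ∀ᶠ t : ℝ in atTop, ∀ u : ℝ, t ≤ u → u ≤ t + 1 / t ^ 2 →
      f u ≤ f t + 1) : ∃ K : ℝ, ∀ᶠ t : ℝ in atTop, f t ≤ K * t ^ 3 := by
  have hcube : ∀ x : ℝ, 0 ≤ x → (x ^ (1 / 3 : ℝ)) ^ 3 = x := by
    intro x hx
    rw [← Real.rpow_natCast, ← Real.rpow_mul hx]
    norm_num
  obtain ⟨K, hK⟩ := linear_of_slow (f := fun v : ℝ => f (v ^ (1 / 3 : ℝ))) one_pos (by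
    have ht : Tendsto (fun v : ℝ => v ^ (1 / 3 : ℝ)) atTop atTop := tendsto_rpow_atTop (by norm_num)
    filter_upwards [ht.eventually hs, eventually_gt_atTop 0] with v hv hv0 w hw1 hw2
    refine hv _ (Real.rpow_le_rpow hv0.le hw1 (by norm_num)) ?_
    set x : ℝ := v ^ (1 / 3 : ℝ) with hx
    set y : ℝ := w ^ (1 / 3 : ℝ) with hy
    have hx0 : 0 < x := Real.rpow_pos_of_pos hv0 _
    have hy0 : 0 ≤ y := Real.rpow_nonneg (by linarith) _
    have e1 : x ^ 3 = v := hcube v hv0.le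
    have e2 : y ^ 3 = w := hcube w (by linarith)
    by_contra hcon
    push Not at hcon
    have e3 : (x + 1 / x ^ 2) ^ 3 < y ^ 3 := pow_lt_pow_left₀ hcon (by positivity) (by norm_num)
    have e4 : x ^ 3 + 3 ≤ (x + 1 / x ^ 2) ^ 3 := by
      have e5 : (x + 1 / x ^ 2) ^ 3 = x ^ 3 + 3 + 3 * (1 / x ^ 3) + (1 / x ^ 2) ^ 3 := by
        field_simp
        ring
      rw [e5]
      have : 0 ≤ 3 * (1 / x ^ 3) + (1 / x ^ 2) ^ 3 := by positivity
      linarith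
    linarith)
  refine ⟨K, ?_⟩
  have ht : Tendsto (fun t : ℝ => t ^ 3) atTop atTop := tendsto_pow_atTop (by norm_num)
  filter_upwards [ht.eventually hK, eventually_gt_atTop 0] with t h1 h2
  have e1 : (t ^ 3) ^ (1 / 3 : ℝ) = t := by
    rw [← Real.rpow_natCast, ← Real.rpow_mul h2.le]
    norm_num
  rw [e1] at h1
  exact h1

open Pool.Agent.TH942.ES
open Pool.Agent.TH270.MS
open Pool.Agent.TH270.MS.EQ
open Pool.Agent.W263.BSD (GoodPrime pointCount IsLSeries bsdProduct bsdStar bsdProduct_pos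
  bsdStar_pos rsSum)

variable {a b : ℤ} {F : ℂ → ℂ}

lemma exp_mem3 {K t u : ℝ} (ht : 1 ≤ t) (hKt : K ≤ t) (hK : 0 < K) (h : u ≤ t + K / t ^ 2) :
    Real.exp u ≤ Real.exp t + 2 * K * Real.exp t / (Real.log (Real.exp t)) ^ 2 := by
  rw [Real.log_exp]
  have ht0 : 0 < t := by linarith
  have hz0 : 0 ≤ K / t ^ 2 := by positivity
  have hz1 : K / t ^ 2 ≤ 1 := by
    rw [div_le_one (by positivity)]
    nlinarith
  have h1 : Real.exp u ≤ Real.exp (t + K / t ^ 2) := Real.exp_le_exp.2 h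
  have h2 : Real.exp (K / t ^ 2) ≤ 1 + 2 * (K / t ^ 2) := by
    have h3 := Real.abs_exp_sub_one_le (x := K / t ^ 2) (by rwa [abs_of_nonneg hz0])
    rw [abs_of_nonneg hz0] at h3
    have := (abs_le.1 h3).2
    linarith
  rw [Real.exp_add] at h1
  have h4 := Real.exp_pos t
  calc Real.exp u ≤ Real.exp t * Real.exp (K / t ^ 2) := h1
    _ ≤ Real.exp t * (1 + 2 * (K / t ^ 2)) := mul_le_mul_of_nonneg_left h2 h4.le
    _ = _ := by ring

lemma win_le {K : ℝ} (hK : 0 < K) {x y : ℝ} (hx : Real.exp (2 * K + 2) ≤ x)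
    (hy : y ≤ x + 2 * K * x / (Real.log x) ^ 2) : y ≤ 2 * x := by
  have hx0 : 0 < x := (Real.exp_pos _).trans_le hx
  have hl : 2 * K + 2 ≤ Real.log x := by
    rw [Real.le_log_iff_exp_le hx0]
    exact hx
  have h1 : 2 * K * x / (Real.log x) ^ 2 ≤ x := by
    rw [div_le_iff₀ (by nlinarith)]
    have h2 : 2 * K ≤ (Real.log x) ^ 2 := by nlinarith
    nlinarith
  linarith

theorem slow3_low (hlow : ∀ ε K : ℝ, 0 < ε → 0 < K → ∀ᶠ x : ℝ in atTop, ∀ y : ℝ,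
      x ≤ y → y ≤ x + K * x / (Real.log x) ^ 2 → -(ε * x) ≤ inc a b ⌊x⌋₊ ⌊y⌋₊) :
    ∀ ε K : ℝ, 0 < ε → 0 < K → ∀ᶠ t : ℝ in atTop, ∀ u : ℝ, t ≤ u → u ≤ t + K / t ^ 2 →
      phi a b u ≤ phi a b t + ε := by
  classical
  intro ε K hε hK
  have h1 := hlow (ε / 2) (2 * K) (by linarith) (by linarith)
  have h2 := (recip_small 2).eventually (gt_mem_nhds (show (0 : ℝ) < ε / 40 by linarith))
  filter_upwards [Real.tendsto_exp_atTop.eventually h1, Real.tendsto_exp_atTop.eventually h2,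
    Real.tendsto_exp_atTop.eventually_ge_atTop 40,
    Real.tendsto_exp_atTop.eventually_ge_atTop (Real.exp (2 * K + 2)), eventually_ge_atTop 1,
    eventually_ge_atTop K] with t ht1 ht2 ht3 ht4 ht5 ht6 u hu1 hu2
  have hxy : Real.exp t ≤ Real.exp u := Real.exp_le_exp.2 hu1
  have hyl := exp_mem3 ht5 ht6 hK hu2
  have hy2 := win_le hK ht4 hyl
  have h3 := incr_near (a := a) (b := b) ht3 hxy
  have h4 := low_sum (a := a) (b := b) (x := Real.exp t) (y := Real.exp u) (K := ε / 2)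
    (by linarith) (by linarith) (fun z hz1 hz2 => ht1 z hz1 (hz2.trans hyl)) hxy
  have h5 : ∑ p ∈ (Finset.Ioc ⌊Real.exp t⌋₊ ⌊Real.exp u⌋₊).filter Nat.Prime, (1 : ℝ) / p ≤
      ∑ p ∈ (Finset.Ioc ⌊Real.exp t⌋₊ ⌊2 * Real.exp t⌋₊).filter Nat.Prime, (1 : ℝ) / p := by
    refine Finset.sum_le_sum_of_subset_of_nonneg ?_ fun p _ _ => by positivity
    refine Finset.filter_subset_filter _ (Finset.Ioc_subset_Ioc_right (Nat.floor_le_floor hy2))
  have h6 := (abs_le.1 h3).2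
  unfold phi
  linarith

open Classical in
/-- the sums with weights `1/p` -/
theorem up_sum {x y K : ℝ} (hx : 1 ≤ x) (hK : 0 ≤ K)
    (h : ∀ z : ℝ, x ≤ z → z ≤ y → inc a b ⌊x⌋₊ ⌊z⌋₊ ≤ K * x) (hxy : x ≤ y) :
    ∑ n ∈ Finset.Ioc ⌊x⌋₊ ⌊y⌋₊, (if GoodPrime a b n then ap a b n else 0) * (1 / (n : ℝ)) ≤ K := by
  have h1 := abel_low (c := fun n => -(if GoodPrime a b n then ap a b n else 0))
    (w := fun n => 1 / (n : ℝ)) (K := K * x) (m := ⌊x⌋₊) (fun n hn => by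
      have h0 : (0 : ℝ) < n := by exact_mod_cast (by omega : 0 < n)
      exact one_div_le_one_div_of_le h0 (by push_cast; linarith))
    (fun n _ => by positivity) ⌊y⌋₊ (Nat.floor_le_floor hxy) (fun j hj1 hj2 => by
      rw [Finset.sum_neg_distrib, ← inc_eq, neg_le_neg_iff]
      rcases eq_or_lt_of_le hj1 with h3 | h3
      · rw [← h3]
        exact h x le_rfl hxy
      · have h4 := h (j : ℝ) (by
          have : x < j := (Nat.floor_lt (by linarith)).1 h3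
          exact this.le) (by
          exact (Nat.le_floor_iff (by linarith)).1 hj2)
        rw [Nat.floor_natCast] at h4
        exact h4)
  have h2 : x < (⌊x⌋₊ : ℝ) + 1 := Nat.lt_floor_add_one x
  have h3 : x * (1 / (((⌊x⌋₊ + 1 : ℕ) : ℝ))) ≤ 1 := by
    rw [mul_one_div, div_le_one (by positivity)]
    push_cast
    exact h2.le
  have h4 : K * (x * (1 / (((⌊x⌋₊ + 1 : ℕ) : ℝ)))) ≤ K * 1 := mul_le_mul_of_nonneg_left h3 hK
  have h5 : -(K * x) * (1 / (((⌊x⌋₊ + 1 : ℕ) : ℝ))) = -(K * (x * (1 / (((⌊x⌋₊ + 1 : ℕ) : ℝ))))) := by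
    ring
  rw [h5] at h1
  simp only [neg_mul, Finset.sum_neg_distrib] at h1
  linarith

theorem slow3_up (hup : ∀ ε K : ℝ, 0 < ε → 0 < K → ∀ᶠ x : ℝ in atTop, ∀ y : ℝ,
      x ≤ y → y ≤ x + K * x / (Real.log x) ^ 2 → inc a b ⌊x⌋₊ ⌊y⌋₊ ≤ ε * x) :
    ∀ ε K : ℝ, 0 < ε → 0 < K → ∀ᶠ t : ℝ in atTop, ∀ u : ℝ, t ≤ u → u ≤ t + K / t ^ 2 →
      -phi a b u ≤ -phi a b t + ε := by
  classical
  intro ε K hε hK
  have h1 := hup (ε / 2) (2 * K) (by linarith) (by linarith)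
  have h2 := (recip_small 2).eventually (gt_mem_nhds (show (0 : ℝ) < ε / 40 by linarith))
  filter_upwards [Real.tendsto_exp_atTop.eventually h1, Real.tendsto_exp_atTop.eventually h2,
    Real.tendsto_exp_atTop.eventually_ge_atTop 40,
    Real.tendsto_exp_atTop.eventually_ge_atTop (Real.exp (2 * K + 2)), eventually_ge_atTop 1,
    eventually_ge_atTop K] with t ht1 ht2 ht3 ht4 ht5 ht6 u hu1 hu2
  have hxy : Real.exp t ≤ Real.exp u := Real.exp_le_exp.2 hu1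
  have hyl := exp_mem3 ht5 ht6 hK hu2
  have hy2 := win_le hK ht4 hyl
  have h3 := incr_near (a := a) (b := b) ht3 hxy
  have h4 := up_sum (a := a) (b := b) (x := Real.exp t) (y := Real.exp u) (K := ε / 2)
    (by linarith) (by linarith) (fun z hz1 hz2 => ht1 z hz1 (hz2.trans hyl)) hxy
  have h5 : ∑ p ∈ (Finset.Ioc ⌊Real.exp t⌋₊ ⌊Real.exp u⌋₊).filter Nat.Prime, (1 : ℝ) / p ≤
      ∑ p ∈ (Finset.Ioc ⌊Real.exp t⌋₊ ⌊2 * Real.exp t⌋₊).filter Nat.Prime, (1 : ℝ) / p := by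
    refine Finset.sum_le_sum_of_subset_of_nonneg ?_ fun p _ _ => by positivity
    refine Finset.filter_subset_filter _ (Finset.Ioc_subset_Ioc_right (Nat.floor_le_floor hy2))
  have h6 := (abs_le.1 h3).1
  unfold phi
  linarith

lemma log_cube_le {K c : ℝ} (hc : 0 < c) : ∀ᶠ x : ℝ in atTop, K * Real.log x ^ 3 ≤ x ^ c := by
  have h1 := (isLittleO_log_rpow_atTop (by positivity : 0 < c / 3)).bound
    (show (0 : ℝ) < 1 / (|K| + 1) by positivity)
  filter_upwards [h1, eventually_ge_atTop 1] with x hx hx1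
  have hl : 0 ≤ Real.log x := Real.log_nonneg hx1
  have hp : 0 ≤ x ^ (c / 3) := Real.rpow_nonneg (by linarith) _
  rw [Real.norm_of_nonneg hl, Real.norm_of_nonneg hp] at hx
  have h2 : (|K| + 1) * Real.log x ≤ x ^ (c / 3) := by
    calc (|K| + 1) * Real.log x ≤ (|K| + 1) * (1 / (|K| + 1) * x ^ (c / 3)) :=
          mul_le_mul_of_nonneg_left hx (by positivity)
      _ = x ^ (c / 3) := by field_simp
  have h3 : ((|K| + 1) * Real.log x) ^ 3 ≤ (x ^ (c / 3)) ^ 3 :=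
    pow_le_pow_left₀ (by positivity) h2 3
  have h4 : (x ^ (c / 3)) ^ 3 = x ^ c := by
    rw [← Real.rpow_natCast, ← Real.rpow_mul (by linarith)]
    norm_num
  rw [h4, mul_pow] at h3
  have h5 : K ≤ (|K| + 1) ^ 3 := by
    have h6 := le_abs_self K
    have h7 : (|K| + 1) ≤ (|K| + 1) ^ 3 := le_self_pow₀ (by linarith [abs_nonneg K]) (by norm_num)
    linarith
  have h8 : K * Real.log x ^ 3 ≤ (|K| + 1) ^ 3 * Real.log x ^ 3 :=
    mul_le_mul_of_nonneg_right h5 (by positivity)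
  linarith

theorem no_zero_up3 (hF : IsLSeries a b F) {K : ℝ}
    (h : ∀ᶠ t : ℝ in atTop, phi a b t ≤ K * t ^ 3) : ∀ s : ℂ, 1 < s.re → F s ≠ 0 := by
  intro s hs h0
  set c : ℝ := (s.re - 1) / 2 with hc
  have hc0 : 0 < c := by rw [hc]; linarith
  have h1 : ∀ᶠ x : ℝ in atTop, Real.log (bsdProduct a b x) ≤ K * Real.log x ^ 3 := by
    filter_upwards [Real.tendsto_log_atTop.eventually h, eventually_gt_atTop 0] with x hx hx0
    unfold phi at hx
    rwa [Real.exp_log hx0] at hx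
  obtain ⟨x0, hx0⟩ := eventually_atTop.1 (h1.and (log_cube_le (K := K) hc0))
  have h3 := Pool.Agent.TH949.TX.bsd_up hF (c := c) hc0.le (ρ := s) (by rw [hc]; linarith) h0
    (δ := 1 / 2) (C := 1) (by norm_num)
  have h4 : ∀ᶠ X : ℝ in atTop, x0 ≤ X ^ (1 - (1 / 2) : ℝ) :=
    (tendsto_rpow_atTop (by norm_num)).eventually_ge_atTop x0
  obtain ⟨X, hX1, hX2⟩ := (h3.and h4).exists
  obtain ⟨x, k1, -, -, k4⟩ := hX1
  have h5 := hx0 x (hX2.trans k1)
  linarith [h5.1, h5.2]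

theorem no_zero_down3 (hF : IsLSeries a b F) (hreal : ∀ s : ℝ, 1 < s → F s ≠ 0) {K : ℝ}
    (h : ∀ᶠ t : ℝ in atTop, -phi a b t ≤ K * t ^ 3) : ∀ s : ℂ, 1 < s.re → F s ≠ 0 := by
  intro s hs h0
  set c : ℝ := (s.re - 1) / 2 with hc
  have hc0 : 0 < c := by rw [hc]; linarith
  have h1 : ∀ᶠ x : ℝ in atTop, -Real.log (bsdProduct a b x) ≤ K * Real.log x ^ 3 := by
    filter_upwards [Real.tendsto_log_atTop.eventually h, eventually_gt_atTop 0] with x hx hx0
    unfold phi at hx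
    rwa [Real.exp_log hx0] at hx
  obtain ⟨x0, hx0⟩ := eventually_atTop.1 (h1.and (log_cube_le (K := K) hc0))
  have h3 := Pool.Agent.TH949.TX.bsd_down hF (c := c) hc0.le (fun s hs => hreal s (by linarith))
    (ρ := s) (by rw [hc]; linarith) h0 (δ := 1 / 2) (C := 1) (by norm_num)
  have h4 : ∀ᶠ X : ℝ in atTop, x0 ≤ X ^ (1 - (1 / 2) : ℝ) :=
    (tendsto_rpow_atTop (by norm_num)).eventually_ge_atTop x0
  obtain ⟨X, hX1, hX2⟩ := (h3.and h4).exists
  obtain ⟨x, k1, -, -, k4⟩ := hX1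
  have h5 := hx0 x (hX2.trans k1)
  linarith [h5.1, h5.2]

/-- the deviation of the product -/
theorem exists_dev3 (hΔ : 4 * a ^ 3 + 27 * b ^ 2 ≠ 0) (hF : IsLSeries a b F)
    (hrs : Tendsto (rsSum a b) atTop (𝓝 0)) {η C₀ : ℝ} {κ : ℕ} (hη : 0 < η)
    (hg : ∀ s : ℂ, 1 - η < s.re → ‖F s‖ ≤ C₀ * (1 + ‖s‖) ^ κ) {r : ℕ}
    (hr : analyticOrderAt F 1 = r) (hz : ∀ s : ℂ, 1 < s.re → F s ≠ 0) :
    ∃ C : ℝ, 0 < C ∧ ∃ (β : ℝ → ℝ) (M : ℝ), LB β M ∧
      Tendsto (fun t => (phi a b t - r * Real.log t - Real.log C) - β t / t) atTop (𝓝 0) := by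
  have H := curve_mc hF hη hg
  have h1 : (∀ s : ℂ, 0 < s.re → F (1 + s) ≠ 0) ∧ ∃ m : ℕ, (r : ℝ) = m ∧
      meromorphicOrderAt (fun s => F (1 + s)) 0 = (m : ℤ) :=
    ⟨fun s hs => hz _ (by simpa using hs), r, rfl, (mero_iff hF).2 hr⟩
  obtain ⟨A, hA, hI⟩ : ∃ A : ℝ, 0 < A ∧ IntegrableOn (fun Y : ℝ =>
    DvR (nQ a b) (alQ a b) r A Y ^ 2 / Y) (Ioi (Real.exp 1)) := ((H.tfae_order_real r).out 0 1).1 h1
  set C : ℝ := √2 * Real.exp (r * Real.eulerMascheroniConstant) / A with hC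
  have hC0 : 0 < C := by rw [hC]; positivity
  have hAC : AC r C = A := by
    unfold AC
    rw [hC]
    field_simp
  obtain ⟨e, g, p, he, Q⟩ := H.cn
  have hI2 := (dvR_sq H.E he r A).1 hI
  obtain ⟨K, hK, hKb⟩ := cramer Q.D Q.hη Q.hG Q.hgrow Q.hexp h1.1
  have hLB := lb_of (bb_meas Q.D) hK hKb
  have hdev := dev_bb Q.D hLB hI2
  refine ⟨C, hC0, bb (lamS (nQ a b) e) (Pool.Agent.TH270.RS.cS' (nQ a b) (alQ a b) e), K.toReal,
    hLB, ?_⟩
  obtain ⟨K', hK'⟩ := star_close a b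
  have h2 : Tendsto (fun x => Real.log (bsdStar a b x) + Pl (nQ a b) (alQ a b) x) atTop
      (𝓝 0) := by
    have h3 : Tendsto (fun x : ℝ => K' * x ^ (-(1 / 12 : ℝ))) atTop (𝓝 0) := by
      have := (tendsto_rpow_neg_atTop (y := 1 / 12) (by norm_num)).const_mul K'
      rwa [mul_zero] at this
    refine squeeze_zero_norm' ?_ h3
    filter_upwards [eventually_ge_atTop (Real.exp 1)] with x hx
    rw [Real.norm_eq_abs]
    exact hK' x hx
  have h4 := (h2.sub (corr_lim hΔ hrs)).sub (tendsto_const_nhds (x := Real.log 2 / 2))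
  rw [zero_sub, neg_neg, sub_self] at h4
  have h5 := h4.comp Real.tendsto_exp_atTop
  have h6 := h5.add hdev
  rw [add_zero] at h6
  refine h6.congr fun t => ?_
  have h7 := dvR_AC (a := a) (b := b) (ρ := r) hC0 (Real.exp t)
  rw [hAC, dvR_sh H.E he r A (Real.exp_pos t)] at h7
  simp only [Function.comp, phi, Real.log_exp] at h7 ⊢
  linarith

/-- **the lower condition in very short windows gives the limit** -/
theorem lim_of_low3 (hΔ : 4 * a ^ 3 + 27 * b ^ 2 ≠ 0) (hF : IsLSeries a b F)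
    (hrs : Tendsto (rsSum a b) atTop (𝓝 0)) {η C₀ : ℝ} {κ : ℕ} (hη : 0 < η)
    (hg : ∀ s : ℂ, 1 - η < s.re → ‖F s‖ ≤ C₀ * (1 + ‖s‖) ^ κ) {r : ℕ}
    (hr : analyticOrderAt F 1 = r)
    (hlow : ∀ ε K : ℝ, 0 < ε → 0 < K → ∀ᶠ x : ℝ in atTop, ∀ y : ℝ,
      x ≤ y → y ≤ x + K * x / (Real.log x) ^ 2 → -(ε * x) ≤ inc a b ⌊x⌋₊ ⌊y⌋₊) :
    ∃ C : ℝ, C ≠ 0 ∧ Tendsto (fun x => bsdProduct a b x / Real.log x ^ r) atTop (𝓝 C) := by
  have hs := slow3_low hlow
  obtain ⟨K, hK⟩ := cubic_of_slow (hs 1 1 one_pos one_pos)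
  obtain ⟨C, hC, β, M, hβ, h2⟩ := exists_dev3 hΔ hF hrs hη hg hr (no_zero_up3 hF hK)
  refine ⟨C, hC.ne', (phi_tendsto_iff hC).1 (taub2 hβ h2 fun ε K hε hK => ?_)⟩
  filter_upwards [hs ε K hε hK, eventually_gt_atTop 0] with t ht ht0 u hu1 hu2
  have h2 := ht u hu1 hu2
  have h3 : Real.log t ≤ Real.log u := Real.log_le_log ht0 hu1
  have h4 : (r : ℝ) * Real.log t ≤ r * Real.log u := mul_le_mul_of_nonneg_left h3 (Nat.cast_nonneg r)
  linarith

/-- **the upper condition gives the limit if there are no real zeros** -/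
theorem lim_of_up3 (hΔ : 4 * a ^ 3 + 27 * b ^ 2 ≠ 0) (hF : IsLSeries a b F)
    (hreal : ∀ s : ℝ, 1 < s → F s ≠ 0)
    (hrs : Tendsto (rsSum a b) atTop (𝓝 0)) {η C₀ : ℝ} {κ : ℕ} (hη : 0 < η)
    (hg : ∀ s : ℂ, 1 - η < s.re → ‖F s‖ ≤ C₀ * (1 + ‖s‖) ^ κ) {r : ℕ}
    (hr : analyticOrderAt F 1 = r)
    (hup : ∀ ε K : ℝ, 0 < ε → 0 < K → ∀ᶠ x : ℝ in atTop, ∀ y : ℝ,
      x ≤ y → y ≤ x + K * x / (Real.log x) ^ 2 → inc a b ⌊x⌋₊ ⌊y⌋₊ ≤ ε * x) :
    ∃ C : ℝ, C ≠ 0 ∧ Tendsto (fun x => bsdProduct a b x / Real.log x ^ r) atTop (𝓝 C) := by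
  have hs := slow3_up hup
  obtain ⟨K, hK⟩ := cubic_of_slow (f := fun t => -phi a b t) (hs 1 1 one_pos one_pos)
  obtain ⟨C, hC, β, M, hβ, h2⟩ := exists_dev3 hΔ hF hrs hη hg hr (no_zero_down3 hF hreal hK)
  refine ⟨C, hC.ne', (phi_tendsto_iff hC).1 ?_⟩
  have h3 : Tendsto (fun t => -(phi a b t - r * Real.log t - Real.log C)) atTop (𝓝 0) := by
    refine taub2 (b := fun t => -β t) (M := M) (fun T => by simpa only [neg_sq] using hβ T) ?_
      fun ε K hε hK => ?_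
    · have := h2.neg
      rw [neg_zero] at this
      refine this.congr fun t => ?_
      ring
    · have h4 : Tendsto (fun t : ℝ => r * ((K / t ^ 2) / t)) atTop (𝓝 0) := by
        have e1 : Tendsto (fun t : ℝ => K / t ^ 2) atTop (𝓝 0) :=
          tendsto_const_nhds.div_atTop (tendsto_pow_atTop (by norm_num))
        have := (e1.div_atTop tendsto_id).const_mul (r : ℝ)
        rwa [mul_zero] at this
      filter_upwards [hs (ε / 2) K (by linarith) hK, eventually_gt_atTop 0, h4.eventually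
        (gt_mem_nhds (show (0 : ℝ) < ε / 2 by linarith))] with t ht ht0 ht2 u hu1 hu2
      have h2 := ht u hu1 hu2
      have h5 : Real.log u - Real.log t ≤ (K / t ^ 2) / t := by
        rw [← Real.log_div (by linarith) ht0.ne']
        refine (Real.log_le_sub_one_of_pos (div_pos (by linarith) ht0)).trans ?_
        rw [div_sub_one ht0.ne']
        exact div_le_div_of_nonneg_right (by linarith) ht0.le
      have h6 : (r : ℝ) * (Real.log u - Real.log t) ≤ r * ((K / t ^ 2) / t) :=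
        mul_le_mul_of_nonneg_left h5 (Nat.cast_nonneg r)
      linarith
  have h4 := h3.neg
  rw [neg_zero] at h4
  refine h4.congr fun t => ?_
  ring

end Pool.Agent.Q195.CR
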