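import Pool.Agent.TH270.MS.Fwd
import Pool.Agent.Q195.CR.LocPW
import Pool.Agent.Q195.CR.Struct2

/-! The sums `∑ c(n) λ(n)`, their Laplace transform and its structure near the imaginary axis. -/

set_option autoImplicit false

open MeasureTheory Filter Topology Set Complex
open scoped ENNReal
open Pool.Agent.TH942.LS (Dat P)
open Pool.Agent.TH942.SL

namespace Pool.Agent.Q195.CR

open Pool.Agent.TH270.MS

variable {lam c : ℕ → ℝ} {δ σ : ℝ}

/-- the coefficients -/
noncomputable def cm (lam c : ℕ → ℝ) (n : ℕ) : ℝ := c n * lam n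

lemma datM (D : Dat lam c δ σ) : Dat lam (cm lam c) δ (σ + 1) where
  δ0 := D.δ0
  σ0 := by linarith [D.σ0]
  lam_ge := D.lam_ge
  sum := by
    refine Summable.of_nonneg_of_le (fun n => by positivity) (fun n => ?_) D.sum
    have hl := D.lam0 n
    unfold cm
    rw [abs_mul, abs_of_pos hl]
    have h1 : Real.exp (-((σ + 1) * lam n)) =
        Real.exp (-(σ * lam n)) * Real.exp (-lam n) := by
      rw [← Real.exp_add]
      congr 1
      ring
    have h2 : lam n * Real.exp (-lam n) ≤ 1 := by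
      have h3 := Real.add_one_le_exp (lam n)
      rw [Real.exp_neg, ← div_eq_mul_inv, div_le_one (Real.exp_pos _)]
      linarith
    calc |c n| * lam n * Real.exp (-((σ + 1) * lam n))
        = |c n| * Real.exp (-(σ * lam n)) * (lam n * Real.exp (-lam n)) := by
          rw [h1]
          ring
      _ ≤ |c n| * Real.exp (-(σ * lam n)) * 1 := by gcongr
      _ = _ := mul_one _

/-- `∑_{λ(n) ≤ u} c(n) λ(n) - r u - q` for `u > 0` -/
noncomputable def ec (lam c : ℕ → ℝ) (r : ℝ) (q : ℂ) (u : ℝ) : ℂ :=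
  (Ioi (0 : ℝ)).indicator (fun u => (Sh lam (cm lam c) u : ℂ) - r * u - q) u

variable {r : ℝ} {q : ℂ}

lemma ec_meas (D : Dat lam c δ σ) : Measurable (ec lam c r q) := by
  have h0 : Measurable fun u : ℝ => (Sh lam (cm lam c) u : ℂ) :=
    Complex.measurable_ofReal.comp (sh_meas (datM D))
  have h1 : Measurable fun u : ℝ => (Sh lam (cm lam c) u : ℂ) - r * u - q :=
    (h0.sub (by fun_prop)).sub_const q
  exact h1.indicator measurableSet_Ioi

lemma ec_zero {u : ℝ} (hu : u ≤ 0) : ec lam c r q u = 0 := by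
  unfold ec
  rw [indicator_of_notMem (by simpa using hu)]

lemma ec_pos {u : ℝ} (hu : 0 < u) :
    ec lam c r q u = (Sh lam (cm lam c) u : ℂ) - r * u - q := by
  unfold ec
  rw [indicator_of_mem (show u ∈ Ioi (0 : ℝ) from hu)]

lemma ec_le (D : Dat lam c δ σ) (r : ℝ) (q : ℂ) : ∃ C : ℝ, 0 ≤ C ∧ ∀ u : ℝ,
    ‖ec lam c r q u‖ ≤ C * Real.exp ((σ + 1) * u) := by
  set S : ℝ := ∑' n, |cm lam c n| * Real.exp (-((σ + 1) * lam n)) with hS
  have hS0 : 0 ≤ S := tsum_nonneg fun n => by positivity
  refine ⟨S + |r| + ‖q‖, by positivity, fun u => ?_⟩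
  rcases le_or_gt u 0 with hu | hu
  · rw [ec_zero hu, norm_zero]
    positivity
  · rw [ec_pos hu]
    have h1 := sh_le (datM D) u
    have h2 : u ≤ Real.exp ((σ + 1) * u) := by
      have h3 := Real.add_one_le_exp ((σ + 1) * u)
      have := D.σ0
      nlinarith
    have h3 : 1 ≤ Real.exp ((σ + 1) * u) := by
      apply Real.one_le_exp
      have := D.σ0
      positivity
    have h4 : ‖(Sh lam (cm lam c) u : ℂ) - r * u - q‖ ≤
        |Sh lam (cm lam c) u| + |r| * u + ‖q‖ := by
      refine (norm_sub_le _ _).trans ?_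
      gcongr
      refine (norm_sub_le _ _).trans ?_
      rw [norm_mul, Complex.norm_real, Complex.norm_real, Complex.norm_real, Real.norm_eq_abs,
        Real.norm_eq_abs, Real.norm_eq_abs, abs_of_pos hu]
    have h5 := mul_le_mul_of_nonneg_left h2 (abs_nonneg r)
    have h6 := mul_le_mul_of_nonneg_left h3 (norm_nonneg q)
    calc _ ≤ _ := h4
      _ ≤ Real.exp ((σ + 1) * u) * S + |r| * Real.exp ((σ + 1) * u) +
          ‖q‖ * Real.exp ((σ + 1) * u) := by linarith
      _ = _ := by ring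

/-- the real part -/
noncomputable def e1 (lam c : ℕ → ℝ) (r q u : ℝ) : ℝ :=
  (Ioi (0 : ℝ)).indicator (fun u => Sh lam (cm lam c) u - r * u - q) u

lemma e1_meas (D : Dat lam c δ σ) (q : ℝ) : Measurable (e1 lam c r q) := by
  have h1 : Measurable fun u : ℝ => Sh lam (cm lam c) u - r * u - q :=
    ((sh_meas (datM D)).sub (measurable_id.const_mul r)).sub_const q
  exact h1.indicator measurableSet_Ioi

lemma e1_pos {q u : ℝ} (hu : 0 < u) : e1 lam c r q u = Sh lam (cm lam c) u - r * u - q := by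
  unfold e1
  rw [indicator_of_mem (show u ∈ Ioi (0 : ℝ) from hu)]

lemma e1_ec (u : ℝ) : |e1 lam c r q.re u| ≤ ‖ec lam c r q u‖ := by
  have h1 : e1 lam c r q.re u = (ec lam c r q u).re := by
    unfold e1 ec
    by_cases hu : u ∈ Ioi (0 : ℝ)
    · rw [indicator_of_mem hu, indicator_of_mem hu]
      simp
    · rw [indicator_of_notMem hu, indicator_of_notMem hu]
      simp
  rw [h1]
  exact Complex.abs_re_le_norm _

/-- the Laplace transform of `u` -/
lemma lap_id {s : ℂ} (hs : 0 < s.re) :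
    IntegrableOn (fun u : ℝ => (u : ℂ) * exp (-(s * u))) (Ioi 0) ∧
      ∫ u in Ioi (0 : ℝ), (u : ℂ) * exp (-(s * u)) = 1 / s ^ 2 := by
  have hs0 : s ≠ 0 := by rintro rfl; simp at hs
  have hb : ∀ u : ℝ, 0 ≤ u → ‖(u : ℂ) * exp (-(s * u))‖ ≤
      (2 / s.re) * Real.exp (-(s.re / 2 * u)) := by
    intro u hu
    rw [norm_mul, norm_exp_neg, Complex.norm_real, Real.norm_of_nonneg hu]
    have h1 := Real.add_one_le_exp (s.re / 2 * u)
    have h2 : Real.exp (-(s.re * u)) = Real.exp (-(s.re / 2 * u)) * Real.exp (-(s.re / 2 * u)) := by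
      rw [← Real.exp_add]
      congr 1
      ring
    have h3 : u * Real.exp (-(s.re / 2 * u)) ≤ 2 / s.re := by
      rw [Real.exp_neg, ← div_eq_mul_inv, div_le_div_iff₀ (Real.exp_pos _) hs]
      nlinarith
    rw [h2, ← mul_assoc]
    exact mul_le_mul_of_nonneg_right h3 (Real.exp_pos _).le
  have hi0 : IntegrableOn (fun u : ℝ => (2 / s.re) * Real.exp (-(s.re / 2 * u))) (Ioi 0) := by
    have h1 : IntegrableOn (fun u : ℝ => Real.exp (-(s.re / 2) * u)) (Ioi 0) :=
      integrableOn_exp_mul_Ioi (a := -(s.re / 2)) (by linarith) 0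
    have h2 : IntegrableOn (fun u : ℝ => (2 / s.re) * Real.exp (-(s.re / 2) * u)) (Ioi 0) :=
      h1.const_mul (2 / s.re)
    refine h2.congr_fun (fun u _ => ?_) measurableSet_Ioi
    simp only [neg_mul]
  have hi : IntegrableOn (fun u : ℝ => (u : ℂ) * exp (-(s * u))) (Ioi 0) := by
    refine Integrable.mono' hi0 (Continuous.aestronglyMeasurable (by fun_prop)) ?_
    filter_upwards [ae_restrict_mem measurableSet_Ioi] with u hu
    exact hb u (le_of_lt hu)
  refine ⟨hi, ?_⟩
  have hd : ∀ u ∈ Ici (0 : ℝ), HasDerivAt (fun u : ℝ => -(((u : ℂ) / s + 1 / s ^ 2) *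
      exp (-(s * u)))) ((u : ℂ) * exp (-(s * u))) u := by
    intro u _
    have h1 : HasDerivAt (fun u : ℝ => (u : ℂ)) 1 u := Complex.ofRealCLM.hasDerivAt
    have h2 : HasDerivAt (fun u : ℝ => -(s * (u : ℂ))) (-(s * 1)) u := (h1.const_mul s).neg
    have h3 := h2.cexp
    have h4 : HasDerivAt (fun u : ℝ => (u : ℂ) / s + 1 / s ^ 2) (1 / s) u :=
      (h1.div_const s).add_const _
    refine ((h4.mul h3).neg).congr_deriv ?_
    field_simp
    ring
  have hlim : Tendsto (fun u : ℝ => -(((u : ℂ) / s + 1 / s ^ 2) * exp (-(s * u)))) atTop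
      (𝓝 0) := by
    rw [tendsto_zero_iff_norm_tendsto_zero]
    have h1 : Tendsto (fun u : ℝ => Real.exp (-(s.re / 2 * u))) atTop (𝓝 0) := by
      refine Real.tendsto_exp_neg_atTop_nhds_zero.comp ?_
      exact tendsto_id.const_mul_atTop (by linarith)
    have h2 : Tendsto (fun u : ℝ => (2 / s.re / ‖s‖ + 1 / ‖s‖ ^ 2) * Real.exp (-(s.re / 2 * u)))
        atTop (𝓝 0) := by
      have := h1.const_mul (2 / s.re / ‖s‖ + 1 / ‖s‖ ^ 2)
      rwa [mul_zero] at this
    refine squeeze_zero' (Eventually.of_forall fun u => norm_nonneg _) ?_ h2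
    filter_upwards [eventually_ge_atTop 0] with u hu
    rw [norm_neg, add_mul, add_mul]
    refine (norm_add_le _ _).trans (add_le_add ?_ ?_)
    · have h3 := hb u hu
      rw [show (u : ℂ) / s * exp (-(s * u)) = ((u : ℂ) * exp (-(s * u))) / s by ring, norm_div,
        div_mul_eq_mul_div]
      exact div_le_div_of_nonneg_right h3 (norm_nonneg _)
    · rw [norm_mul, norm_exp_neg, norm_div, norm_one, norm_pow]
      refine mul_le_mul_of_nonneg_left (Real.exp_le_exp.2 ?_) (by positivity)
      nlinarith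
  rw [integral_Ioi_of_hasDerivAt_of_tendsto' hd hi hlim]
  simp

/-- the Laplace transform -/
lemma ec_lap (D : Dat lam c δ σ) {s : ℂ} (hs : σ + 1 < s.re) :
    ∫ u : ℝ, ec lam c r q u * exp (-(s * u)) = P lam c s / s - r / s ^ 2 - q / s := by
  have hσ := D.σ0
  have hs1 : 0 < s.re := by linarith
  have h1 := sh_lap (datM D) (s := s) hs
  have h2 : DD lam (cm lam c) s = P lam c s := by
    unfold DD P cm
    rfl
  have e0 : ∀ᵐ u : ℝ, ec lam c r q u * exp (-(s * u)) =
      (Sh lam (cm lam c) u : ℂ) * exp (-(s * u)) -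
        (r : ℂ) * (Ioi (0 : ℝ)).indicator (fun u : ℝ => (u : ℂ) * exp (-(s * u))) u -
        q * (Ici (0 : ℝ)).indicator (fun T : ℝ => exp (-(s * T))) u := by
    have h0 : ∀ᵐ u : ℝ, u ≠ 0 := by
      rw [ae_iff]
      simp
    filter_upwards [h0] with u hu
    by_cases h : 0 < u
    · rw [ec_pos h, indicator_of_mem (show u ∈ Ioi (0 : ℝ) from h),
        indicator_of_mem (show u ∈ Ici (0 : ℝ) from h.le)]
      push_cast
      ring
    · have h' : u < 0 := lt_of_le_of_ne (not_lt.1 h) hu
      rw [ec_zero h'.le, indicator_of_notMem (show u ∉ Ioi (0 : ℝ) from h),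
        indicator_of_notMem (show u ∉ Ici (0 : ℝ) from not_le.2 h'),
        sh_zero (datM D) (by linarith [D.δ0])]
      simp
  obtain ⟨h3, h4⟩ := lap_id hs1
  have i1 : Integrable fun u : ℝ => (Sh lam (cm lam c) u : ℂ) * exp (-(s * u)) := by
    have hS0 : 0 ≤ ∑' n, |cm lam c n| * Real.exp (-((σ + 1) * lam n)) :=
      tsum_nonneg fun n => by positivity
    have hI : Integrable ((Ici (0 : ℝ)).indicator (fun u : ℝ =>
        (∑' n, |cm lam c n| * Real.exp (-((σ + 1) * lam n))) *
          Real.exp (-((s.re - (σ + 1)) * u)))) := by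
      rw [integrable_indicator_iff measurableSet_Ici, integrableOn_Ici_iff_integrableOn_Ioi]
      have h1 : IntegrableOn (fun u : ℝ => Real.exp (-(s.re - (σ + 1)) * u)) (Ioi 0) :=
        integrableOn_exp_mul_Ioi (a := -(s.re - (σ + 1))) (by linarith) 0
      have h2 : IntegrableOn (fun u : ℝ => (∑' n, |cm lam c n| * Real.exp (-((σ + 1) * lam n))) *
          Real.exp (-(s.re - (σ + 1)) * u)) (Ioi 0) := h1.const_mul _
      refine h2.congr_fun (fun u _ => ?_) measurableSet_Ioi
      simp only [neg_mul]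
    refine hI.mono' ((Complex.measurable_ofReal.comp (sh_meas (datM D))).mul
      (by fun_prop)).aestronglyMeasurable (Eventually.of_forall fun u => ?_)
    rw [norm_mul, norm_exp_neg, Complex.norm_real, Real.norm_eq_abs]
    rcases lt_or_ge u 0 with hu | hu
    · rw [sh_zero (datM D) (by linarith [D.δ0]), abs_zero, zero_mul,
        indicator_of_notMem (by simpa using hu)]
    · rw [indicator_of_mem (show u ∈ Ici (0 : ℝ) from hu)]
      have h5 := sh_le (datM D) u
      calc |Sh lam (cm lam c) u| * Real.exp (-(s.re * u)) ≤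
            (Real.exp ((σ + 1) * u) * ∑' n, |cm lam c n| * Real.exp (-((σ + 1) * lam n))) *
              Real.exp (-(s.re * u)) := mul_le_mul_of_nonneg_right h5 (Real.exp_pos _).le
        _ = (∑' n, |cm lam c n| * Real.exp (-((σ + 1) * lam n))) *
              (Real.exp ((σ + 1) * u) * Real.exp (-(s.re * u))) := by ring
        _ = _ := by
          rw [← Real.exp_add]
          ring_nf
  have i2 : Integrable fun u : ℝ => (r : ℂ) *
      (Ioi (0 : ℝ)).indicator (fun u : ℝ => (u : ℂ) * exp (-(s * u))) u :=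
    ((integrable_indicator_iff measurableSet_Ioi).2 h3).const_mul _
  have i3 : Integrable fun u : ℝ => q *
      (Ici (0 : ℝ)).indicator (fun T : ℝ => exp (-(s * T))) u := (integrable_step hs1 0).const_mul _
  have i12 : Integrable fun u : ℝ => (Sh lam (cm lam c) u : ℂ) * exp (-(s * u)) - (r : ℂ) *
      (Ioi (0 : ℝ)).indicator (fun u : ℝ => (u : ℂ) * exp (-(s * u))) u := i1.sub i2
  rw [integral_congr_ae e0, integral_sub i12 i3, integral_sub i1 i2, integral_const_mul,
    integral_const_mul, integral_step hs1, integral_indicator measurableSet_Ioi, h4, h1, h2]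
  simp
  ring

end Pool.Agent.Q195.CR
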