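import Pool.Agent.Q195.CR.RateX

/-! The rate for the product of Birch and Swinnerton-Dyer. -/

set_option autoImplicit false

open MeasureTheory Filter Topology Set
open Pool.Agent.TH942.LS (Dat)
open Pool.Agent.TH942.SL
open Pool.Agent.TH942.ES
open Pool.Agent.TH270.RS (cS')
open Pool.Agent.W263.BSD (GoodPrime pointCount IsLSeries bsdProduct bsdStar bsdProduct_pos
  bsdStar_pos rsSum corr_tendsto)

namespace Pool.Agent.Q195.CR

open Pool.Agent.TH270.MS
open Pool.Agent.TH270.MS.EQ

section series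

variable {lam c : ℕ → ℝ} {δ σ : ℝ} {G₀ g : ℂ → ℂ} {k p κ : ℕ} {η C : ℝ}

/-- **The rate for a Dirichlet series.** -/
theorem cn_rate (E : Cn lam c δ σ G₀ g k p κ η C) (hne : ∀ s : ℂ, 0 < s.re → G₀ s ≠ 0) {r q : ℝ}
    (hr : (p : ℝ) = k + r)
    (hE : IntegrableOn (fun T : ℝ => (Sh lam c T - r * Real.log T - q) ^ 2) (Ioi 1)) :
    ∃ K : ℝ, ∀ T : ℝ, 1 ≤ T →
      ∫ t in T..T + 1, (t * (Sh lam c t - r * Real.log t - q)) ^ 2 ≤ K := by
  obtain ⟨q₁, K, hK, hb⟩ := cramer1 E.D E.hη E.hG E.hgrow E.hexp hne E.hg E.hg0 E.near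
    (r := r) (by linarith)
  have hm : Measurable (e1 lam c r q₁) := e1_meas E.D q₁
  have hM := lb_of hm hK hb
  set M : ℝ := K.toReal with hMd
  have hM0 := hM.nonneg
  refine ⟨2 * M + 2 * (2 * (1 + M)) ^ 2, fun T hT => ?_⟩
  have hfm : Measurable fun t : ℝ => (t * (Sh lam c t - r * Real.log t - q)) ^ 2 :=
    (measurable_id.mul (((sh_meas E.D).sub (Real.measurable_log.const_mul r)).sub_const q)).pow_const 2
  have hle : ∀ t ∈ Ioc T (T + 1), (t * (Sh lam c t - r * Real.log t - q)) ^ 2 ≤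
      2 * e1 lam c r q₁ t ^ 2 + 2 * (2 * (1 + M)) ^ 2 := by
    intro t ht
    have ht1 : 1 ≤ t := hT.trans ht.1.le
    have ht0 : 0 < t := by linarith
    have h1 := rate E.D hM hE ht1
    set f : ℝ := Sh lam c t - r * Real.log t - q with hf
    set b : ℝ := e1 lam c r q₁ t with hb
    have h2 : |t * f - b| ≤ 2 * (1 + M) := by
      have h3 : t * f - b = t * (f - b / t) := by
        field_simp
      rw [h3, abs_mul, abs_of_pos ht0]
      rw [le_div_iff₀ ht0] at h1
      linarith
    have h4 : (t * f - b) ^ 2 ≤ (2 * (1 + M)) ^ 2 := by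
      rw [← sq_abs]
      exact pow_le_pow_left₀ (abs_nonneg _) h2 2
    nlinarith [sq_nonneg (t * f - b - b)]
  obtain ⟨i1, i2⟩ := hM T
  have i3 : IntegrableOn (fun t => e1 lam c r q₁ t ^ 2) (Ioc T (T + 1)) :=
    i1.mono_set Ioc_subset_Icc_self
  have i4 : IntegrableOn (fun t => 2 * e1 lam c r q₁ t ^ 2 + 2 * (2 * (1 + M)) ^ 2)
      (Ioc T (T + 1)) := (i3.const_mul 2).add (integrableOn_const (by simp))
  have i5 : IntegrableOn (fun t => (t * (Sh lam c t - r * Real.log t - q)) ^ 2)
      (Ioc T (T + 1)) := by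
    refine Integrable.mono' i4 hfm.aestronglyMeasurable ?_
    filter_upwards [ae_restrict_mem measurableSet_Ioc] with t ht
    rw [Real.norm_of_nonneg (sq_nonneg _)]
    exact hle t ht
  rw [intervalIntegral.integral_of_le (by linarith)]
  refine (setIntegral_mono_on i5 i4 measurableSet_Ioc hle).trans ?_
  rw [integral_add (i3.const_mul 2) (integrableOn_const (by simp)), integral_const_mul,
    setIntegral_const]
  have e1 : (volume.real (Ioc T (T + 1))) = 1 := by
    rw [Measure.real, Real.volume_Ioc]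
    simp
  rw [e1, one_smul]
  have e2 : ∫ t in Ioc T (T + 1), Pool.Agent.Q195.CR.e1 lam c r q₁ t ^ 2 ≤ M :=
    (setIntegral_mono_set i1 (Eventually.of_forall fun _ => sq_nonneg _)
      Ioc_subset_Icc_self.eventuallyLE).trans i2
  linarith

end series

variable {a b : ℤ} {F : ℂ → ℂ}

/-- **The rate for the product of Birch and Swinnerton-Dyer.** -/
theorem curve_rate (hΔ : 4 * a ^ 3 + 27 * b ^ 2 ≠ 0) (hF : IsLSeries a b F)
    (hrs : Tendsto (rsSum a b) atTop (𝓝 0)) {η C₀ : ℝ} {κ : ℕ} (hη : 0 < η)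
    (hg : ∀ s : ℂ, 1 - η < s.re → ‖F s‖ ≤ C₀ * (1 + ‖s‖) ^ κ) (ρ : ℝ) {C : ℝ} (hC : 0 < C) :
    List.TFAE [
      (∀ s : ℂ, 1 < s.re → F s ≠ 0) ∧ ∃ m : ℕ, ρ = m ∧ analyticOrderAt F 1 = m ∧
        iteratedDeriv m F 1 / (m.factorial : ℂ) =
          ((√2 * Real.exp (m * Real.eulerMascheroniConstant) / C : ℝ) : ℂ),
      ∃ M : ℝ, ∀ X : ℝ, Real.exp 1 ≤ X → wm (devStar a b ρ C) X ≤ M,
      ∃ M : ℝ, ∀ X : ℝ, Real.exp 1 ≤ X →
        ∫ x in Real.exp 1..X, |devStar a b ρ C x| / x ≤ M * (1 + Real.log (Real.log X)),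
      ∀ ε : ℝ, 0 < ε → IntegrableOn
        (fun x : ℝ => Real.log x ^ (1 - ε) * devStar a b ρ C x ^ 2 / x) (Ioi (Real.exp 1))] := by
  have law := curve_law hΔ hF hrs hη hg ρ hC
  obtain ⟨K, hK⟩ := star_close a b
  have H := curve_mc hF hη hg
  have hA := AC_pos (ρ := ρ) hC
  have r1 : ∀ x : ℝ, Real.exp 1 ≤ x →
      |devStar a b ρ C x - (-DvR (nQ a b) (alQ a b) ρ (AC ρ C) x)| ≤ K * x ^ (-(1 / 12 : ℝ)) := by
    intro x hx
    have h1 : devStar a b ρ C x - (-DvR (nQ a b) (alQ a b) ρ (AC ρ C) x) =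
        Real.log (bsdStar a b x) + Pl (nQ a b) (alQ a b) x := by
      rw [dvR_AC hC, devStar_eq hC hx]
      ring
    rw [h1]
    exact hK x hx
  have bmD : BM (DvR (nQ a b) (alQ a b) ρ (AC ρ C)) := by
    refine BM.congr (((bm_pl H).add ((BM.const ρ).mul BM.loglog)).add
      (BM.const (Real.log C - Real.log 2 / 2))) fun x _ => ?_
    rw [dvR_AC hC]
    ring
  have r2 : Tendsto (fun x => dev a b ρ C x - devStar a b ρ C x) atTop (𝓝 0) := by
    have h1 := (corr_lim hΔ hrs).const_sub (-(Real.log 2 / 2))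
    rw [sub_self] at h1
    refine h1.congr' ?_
    filter_upwards [eventually_ge_atTop (Real.exp 1)] with x hx
    rw [dev_eq hC hx, devStar_eq hC hx]
    ring
  have bmS := bm_devStar a b (ρ := ρ) hC
  tfae_have 1 → 2 := by
    intro h
    have h4 : IntegrableOn (fun x : ℝ => devStar a b ρ C x ^ 2 / x) (Ioi (Real.exp 1)) :=
      (law.out 0 3).1 h
    have h5 : IntegrableOn (fun x : ℝ => DvR (nQ a b) (alQ a b) ρ (AC ρ C) x ^ 2 / x)
        (Ioi (Real.exp 1)) := by
      have h1 := sq_int_of_close (f := fun x => -DvR (nQ a b) (alQ a b) ρ (AC ρ C) x)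
        (g := devStar a b ρ C) (C := K) bmD.neg.1 (fun y hy => by
          rw [abs_sub_comm]
          exact r1 y hy) h4
      simpa only [neg_sq] using h1
    obtain ⟨e, g, p, he, Q⟩ := H.cn
    have t := Q.tfae ρ (ρ * Real.eulerMascheroniConstant - Real.log (AC ρ C))
    have h6 := (dvR_sq H.E he ρ (AC ρ C)).1 h5
    obtain ⟨h7, h8, -⟩ := (t.out 0 1).2 h6
    obtain ⟨M, hM⟩ := cn_rate Q h7 h8 h6
    -- in the variable `x`
    have h9 : ∀ X : ℝ, Real.exp 1 ≤ X →
        wm (fun x => -DvR (nQ a b) (alQ a b) ρ (AC ρ C) x) X ≤ M := by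
      intro X hX
      have hX0 : 0 < X := (Real.exp_pos 1).trans_le hX
      have hl := one_le_log hX
      have h10 := hM (Real.log X) hl
      rw [← cov_gen _ (by linarith : Real.log X ≤ Real.log X + 1), Real.exp_add,
        Real.exp_log hX0, mul_comm X] at h10
      refine le_trans (le_of_eq ?_) h10
      unfold wm
      refine intervalIntegral.integral_congr fun x hx => ?_
      rw [uIcc_of_le (le_eX hX)] at hx
      have hx0 : 0 < x := hX0.trans_le hx.1
      simp only
      rw [dvR_sh H.E he ρ _ hx0, neg_neg]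
    exact ⟨2 * M + 288 * K ^ 2, fun X hX => win_close bmS bmD.neg r1 h9 hX⟩
  tfae_have 2 → 3 := by
    rintro ⟨M, hM⟩
    exact ⟨(1 + M) / 2, fun X hX => win_l1 bmS hM hX⟩
  tfae_have 2 → 4 := by
    rintro ⟨M, hM⟩ ε hε
    exact win_sq bmS hM hε
  tfae_have 3 → 1 := by
    rintro ⟨M, hM⟩
    have h1 : Tendsto (lmean fun x => |devStar a b ρ C x|) atTop (𝓝 0) := by
      have h2 : Tendsto (fun X : ℝ => |M| * ((1 + Real.log (Real.log X)) / Real.log X)) atTop
          (𝓝 0) := by
        have h3 : Tendsto (fun u : ℝ => (1 + Real.log u) / u) atTop (𝓝 0) := by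
          have h4 : Tendsto (fun u : ℝ => 1 / u) atTop (𝓝 0) :=
            tendsto_const_nhds.div_atTop tendsto_id
          have h5 : Tendsto (fun u : ℝ => Real.log u / u) atTop (𝓝 0) := by
            have := Real.isLittleO_log_id_atTop.tendsto_div_nhds_zero
            simpa using this
          have h6 := h4.add h5
          rw [add_zero] at h6
          refine h6.congr fun u => ?_
          rw [add_div]
        have h7 := (h3.comp Real.tendsto_log_atTop).const_mul |M|
        rw [mul_zero] at h7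
        exact h7
      refine squeeze_zero' ?_ ?_ h2
      · filter_upwards [eventually_ge_atTop (Real.exp 1)] with Y hY
        refine div_nonneg ?_ (by linarith [one_le_log hY])
        refine intervalIntegral.integral_nonneg hY fun y hy => ?_
        have hy0 : 0 < y := (Real.exp_pos 1).trans_le hy.1
        positivity
      · filter_upwards [eventually_ge_atTop (Real.exp 1)] with Y hY
        have hl := one_le_log hY
        unfold lmean
        rw [← mul_div_assoc]
        refine div_le_div_of_nonneg_right ((hM Y hY).trans ?_) (by linarith)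
        refine mul_le_mul_of_nonneg_right (le_abs_self M) ?_
        have := Real.log_nonneg hl
        linarith
    have h2 := (lmean_iff (bm_dev a b hC).li bmS.li r2).2 h1
    exact (law.out 0 1).2 h2
  tfae_have 4 → 1 := by
    intro h
    have h1 := h 1 one_pos
    simp only [sub_self, Real.rpow_zero, one_mul] at h1
    exact (law.out 0 3).2 h1
  tfae_finish

end Pool.Agent.Q195.CR
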