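import Pool.Agent.Q195.CR.Rate
import Pool.Agent.TH270.MS.EQ3

/-! The rate in the variable `x`. -/

set_option autoImplicit false

open MeasureTheory Filter Topology Set

namespace Pool.Agent.Q195.CR

open Pool.Agent.TH270.MS

/-- the mean square of `log x · D(x)` over `[X, eX]` -/
noncomputable def wm (D : ℝ → ℝ) (X : ℝ) : ℝ :=
  ∫ x in X..Real.exp 1 * X, (Real.log x * D x) ^ 2 / x

theorem bm_log : BM fun x => Real.log x := by
  refine ⟨Real.measurable_log.aestronglyMeasurable, fun Y => ⟨Real.log Y, fun y h1 h2 => ?_⟩⟩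
  have h3 := one_le_log h1
  rw [abs_of_nonneg (by linarith)]
  exact Real.log_le_log ((Real.exp_pos 1).trans_le h1) h2

theorem one_lt_e : 1 < Real.exp 1 := by
  have := Real.add_one_lt_exp (x := 1) (by norm_num)
  linarith

theorem li_win {f : ℝ → ℝ} (hf : LI f) {X Y : ℝ} (hX : Real.exp 1 ≤ X) (hXY : X ≤ Y) :
    IntervalIntegrable (fun x => f x / x) volume X Y :=
  ((hf.div X hX).symm).trans (hf.div Y (hX.trans hXY))

theorem le_eX {X : ℝ} (hX : Real.exp 1 ≤ X) : X ≤ Real.exp 1 * X := by
  have h0 : 0 < X := (Real.exp_pos 1).trans_le hX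
  have := one_lt_e
  nlinarith

theorem int_one_div {X : ℝ} (hX : Real.exp 1 ≤ X) :
    ∫ x in X..Real.exp 1 * X, (1 : ℝ) / x = 1 := by
  have h0 : 0 < X := (Real.exp_pos 1).trans_le hX
  rw [integral_one_div_of_pos h0 (by positivity), mul_div_assoc, div_self h0.ne', mul_one,
    Real.log_exp]

/-- change of variables -/
theorem cov_gen (φ : ℝ → ℝ) {S T : ℝ} (hT : S ≤ T) :
    ∫ X in Real.exp S..Real.exp T, φ (Real.log X) / X = ∫ t in S..T, φ t := by
  have hle : Real.exp S ≤ Real.exp T := Real.exp_le_exp.2 hT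
  have himg : Real.exp '' Ioc S T = Ioc (Real.exp S) (Real.exp T) := by
    ext x
    constructor
    · rintro ⟨t, ht, rfl⟩
      exact ⟨Real.exp_lt_exp.2 ht.1, Real.exp_le_exp.2 ht.2⟩
    · intro hx
      have h0 : 0 < x := (Real.exp_pos S).trans hx.1
      refine ⟨Real.log x, ⟨?_, ?_⟩, Real.exp_log h0⟩
      · rw [← Real.log_exp S]
        exact Real.log_lt_log (Real.exp_pos S) hx.1
      · rw [← Real.log_exp T]
        exact Real.log_le_log h0 hx.2
  rw [intervalIntegral.integral_of_le hle, intervalIntegral.integral_of_le hT, ← himg,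
    integral_image_eq_integral_abs_deriv_smul measurableSet_Ioc
    (fun x _ => (Real.hasDerivAt_exp x).hasDerivWithinAt) Real.exp_injective.injOn]
  refine setIntegral_congr_fun measurableSet_Ioc fun t _ => ?_
  have h0 := Real.exp_pos t
  simp only [Real.log_exp, smul_eq_mul, abs_of_pos h0]
  field_simp

/-- the windows and the mean absolute value -/
theorem win_l1 {D : ℝ → ℝ} (hD : BM D) {M : ℝ} (h : ∀ X : ℝ, Real.exp 1 ≤ X → wm D X ≤ M)
    {X : ℝ} (hX : Real.exp 1 ≤ X) :
    ∫ x in Real.exp 1..X, |D x| / x ≤ (1 + M) / 2 * (1 + Real.log (Real.log X)) := by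
  have hM : 0 ≤ M := by
    refine le_trans ?_ (h _ le_rfl)
    refine intervalIntegral.integral_nonneg (le_eX le_rfl) fun x hx => ?_
    have h0 : 0 < x := (Real.exp_pos 1).trans_le hx.1
    positivity
  have hLI : LI fun x => (Real.log x * D x) ^ 2 := (bm_log.mul hD).sq.li
  have key : ∀ n : ℕ, ∫ x in Real.exp 1..Real.exp (n + 1), |D x| / x ≤
      (1 + M) / 2 * (harmonic n : ℝ) := by
    intro n
    induction n with
    | zero => simp
    | succ n ih =>
      have hn : (0 : ℝ) < (n : ℝ) + 1 := by positivity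
      have e1 : Real.exp 1 ≤ Real.exp ((n : ℝ) + 1) := Real.exp_le_exp.2 (by
        have : (0 : ℝ) ≤ n := Nat.cast_nonneg n
        linarith)
      have e2 : Real.exp (((n + 1 : ℕ) : ℝ) + 1) = Real.exp 1 * Real.exp ((n : ℝ) + 1) := by
        rw [← Real.exp_add]
        congr 1
        push_cast
        ring
      have e3 := le_eX e1
      rw [e2, ← intervalIntegral.integral_add_adjacent_intervals (hD.li.abs.div _ e1)
        (li_win hD.li.abs e1 e3), harmonic_succ]
      have i1 : IntervalIntegrable (fun x : ℝ => (1 : ℝ) / x) volume (Real.exp ((n : ℝ) + 1))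
          (Real.exp 1 * Real.exp ((n : ℝ) + 1)) := li_win (LI.const 1) e1 e3
      have i2 := li_win hLI e1 e3
      have e4 : ∫ x in Real.exp ((n : ℝ) + 1)..Real.exp 1 * Real.exp ((n : ℝ) + 1), |D x| / x ≤
          (1 + M) / 2 * ((n : ℝ) + 1)⁻¹ := by
        have f1 : ∫ x in Real.exp ((n : ℝ) + 1)..Real.exp 1 * Real.exp ((n : ℝ) + 1),
            |D x| / x ≤ ∫ x in Real.exp ((n : ℝ) + 1)..Real.exp 1 * Real.exp ((n : ℝ) + 1),
              (1 / 2 * ((n : ℝ) + 1)⁻¹) * (1 / x + (Real.log x * D x) ^ 2 / x) := by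
          refine intervalIntegral.integral_mono_on e3 (li_win hD.li.abs e1 e3)
            ((i1.add i2).const_mul _) fun x hx => ?_
          have hx0 : 0 < x := (Real.exp_pos _).trans_le hx.1
          have hlog : (n : ℝ) + 1 ≤ Real.log x := by
            rw [← Real.log_exp ((n : ℝ) + 1)]
            exact Real.log_le_log (Real.exp_pos _) hx.1
          have g1 : |D x| * (n + 1) ≤ |Real.log x * D x| := by
            rw [abs_mul, abs_of_pos (by linarith : 0 < Real.log x), mul_comm]
            exact mul_le_mul_of_nonneg_right hlog (abs_nonneg _)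
          have g2 : 2 * |Real.log x * D x| ≤ 1 + (Real.log x * D x) ^ 2 := by
            rw [← sq_abs (Real.log x * D x)]
            nlinarith [sq_nonneg (|Real.log x * D x| - 1)]
          have g3 : |D x| ≤ 1 / 2 * ((n : ℝ) + 1)⁻¹ * (1 + (Real.log x * D x) ^ 2) := by
            rw [mul_comm (1 / 2 : ℝ), mul_assoc, ← div_eq_inv_mul, le_div_iff₀ hn]
            linarith
          calc |D x| / x ≤ (1 / 2 * ((n : ℝ) + 1)⁻¹ * (1 + (Real.log x * D x) ^ 2)) / x := by
                gcongr
            _ = _ := by ring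
        refine f1.trans ?_
        rw [intervalIntegral.integral_const_mul, intervalIntegral.integral_add i1 i2,
          int_one_div e1]
        have f2 := h _ e1
        unfold wm at f2
        calc 1 / 2 * ((n : ℝ) + 1)⁻¹ * (1 + _) ≤ 1 / 2 * ((n : ℝ) + 1)⁻¹ * (1 + M) := by
              gcongr
          _ = _ := by ring
      push_cast
      rw [mul_add]
      exact add_le_add ih e4
  have hlog := one_le_log hX
  set n : ℕ := ⌊Real.log X⌋₊ with hn
  have hn1 : 1 ≤ n := Nat.le_floor (by simpa using hlog)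
  have h1 : (n : ℝ) ≤ Real.log X := Nat.floor_le (by linarith)
  have h2 : Real.log X < n + 1 := Nat.lt_floor_add_one _
  have h3 : X ≤ Real.exp ((n : ℝ) + 1) := by
    rw [← Real.exp_log ((Real.exp_pos 1).trans_le hX)]
    exact Real.exp_le_exp.2 h2.le
  have h4 : ∫ x in Real.exp 1..X, |D x| / x ≤ ∫ x in Real.exp 1..Real.exp ((n : ℝ) + 1),
      |D x| / x := by
    rw [intervalIntegral.integral_of_le hX, intervalIntegral.integral_of_le (hX.trans h3)]
    refine setIntegral_mono_set ?_ ?_ (Ioc_subset_Ioc_right h3).eventuallyLE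
    · rw [← intervalIntegrable_iff_integrableOn_Ioc_of_le (hX.trans h3)]
      exact hD.li.abs.div _ (hX.trans h3)
    · filter_upwards [ae_restrict_mem measurableSet_Ioc] with x hx
      have h0 : 0 < x := (Real.exp_pos 1).trans hx.1
      show 0 ≤ |D x| / x
      positivity
  refine h4.trans ((key n).trans (mul_le_mul_of_nonneg_left ?_ (by linarith)))
  refine (harmonic_le_one_add_log n).trans ?_
  have : Real.log n ≤ Real.log (Real.log X) :=
    Real.log_le_log (by exact_mod_cast hn1) h1
  linarith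

/-- the windows and the weighted square -/
theorem win_sq {D : ℝ → ℝ} (hD : BM D) {M : ℝ} (h : ∀ X : ℝ, Real.exp 1 ≤ X → wm D X ≤ M)
    {ε : ℝ} (hε : 0 < ε) :
    IntegrableOn (fun x => Real.log x ^ (1 - ε) * D x ^ 2 / x) (Ioi (Real.exp 1)) := by
  have hM : 0 ≤ M := by
    refine le_trans ?_ (h _ le_rfl)
    refine intervalIntegral.integral_nonneg (le_eX le_rfl) fun x hx => ?_
    have h0 : 0 < x := (Real.exp_pos 1).trans_le hx.1
    positivity
  have hLI : LI fun x => (Real.log x * D x) ^ 2 := (bm_log.mul hD).sq.li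
  have hm : AEStronglyMeasurable (fun x => Real.log x ^ (1 - ε) * D x ^ 2 / x)
      (volume.restrict (Ioi (Real.exp 1))) := by
    have m1 : AEStronglyMeasurable (fun x : ℝ => Real.log x ^ (1 - ε))
        (volume.restrict (Ioi (Real.exp 1))) :=
      (Real.measurable_log.pow_const (1 - ε)).aestronglyMeasurable
    have m2 : AEStronglyMeasurable (fun x : ℝ => x⁻¹) (volume.restrict (Ioi (Real.exp 1))) :=
      measurable_inv.aestronglyMeasurable
    exact (m1.mul hD.sq.1).mul m2
  refine ⟨hm, ?_⟩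
  have hsub : Ioi (Real.exp 1) ⊆
      ⋃ n : ℕ, Ioc (Real.exp ((n : ℝ) + 1)) (Real.exp 1 * Real.exp ((n : ℝ) + 1)) := by
    intro x hx
    have hx1 : Real.exp 1 < x := hx
    have hx0 : 0 < x := (Real.exp_pos 1).trans hx1
    have hl : 1 < Real.log x := by
      rw [← Real.log_exp 1]
      exact Real.log_lt_log (Real.exp_pos 1) hx1
    rw [Set.mem_iUnion]
    -- the integer part from above
    have hc1 : 1 < ⌈Real.log x⌉₊ := Nat.lt_ceil.2 (by simpa using hl)
    obtain ⟨m, hm⟩ : ∃ m, ⌈Real.log x⌉₊ = m + 2 := ⟨⌈Real.log x⌉₊ - 2, by omega⟩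
    refine ⟨m, ?_, ?_⟩
    · have h1 : (m : ℝ) + 1 < Real.log x := by
        have h2 : m + 1 < ⌈Real.log x⌉₊ := by omega
        have := Nat.lt_ceil.1 h2
        push_cast at this
        exact this
      have := Real.exp_lt_exp.2 h1
      rwa [Real.exp_log hx0] at this
    · have h1 : Real.log x ≤ 1 + ((m : ℝ) + 1) := by
        have := Nat.le_ceil (Real.log x)
        rw [hm] at this
        push_cast at this
        linarith
      have := Real.exp_le_exp.2 h1
      rwa [Real.exp_log hx0, Real.exp_add] at this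
  have h1 : ∫⁻ x in Ioi (Real.exp 1), ‖Real.log x ^ (1 - ε) * D x ^ 2 / x‖ₑ ≤
      ∑' n : ℕ, ENNReal.ofReal (M * (1 / ((n : ℝ) + 1) ^ (1 + ε))) := by
    refine (lintegral_mono_set hsub).trans ((lintegral_iUnion_le _ _).trans ?_)
    refine ENNReal.tsum_le_tsum fun n => ?_
    have hn : (0 : ℝ) < (n : ℝ) + 1 := by positivity
    have e1 : Real.exp 1 ≤ Real.exp ((n : ℝ) + 1) := Real.exp_le_exp.2 (by
      have : (0 : ℝ) ≤ n := Nat.cast_nonneg n
      linarith)
    have e3 := le_eX e1
    have i2 := li_win hLI e1 e3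
    rw [intervalIntegrable_iff_integrableOn_Ioc_of_le e3] at i2
    have h4 : ∫⁻ x in Ioc (Real.exp ((n : ℝ) + 1)) (Real.exp 1 * Real.exp ((n : ℝ) + 1)),
        ‖Real.log x ^ (1 - ε) * D x ^ 2 / x‖ₑ ≤
        ∫⁻ x in Ioc (Real.exp ((n : ℝ) + 1)) (Real.exp 1 * Real.exp ((n : ℝ) + 1)),
          ENNReal.ofReal ((Real.log x * D x) ^ 2 / x * (1 / ((n : ℝ) + 1) ^ (1 + ε))) := by
      refine setLIntegral_mono_ae' measurableSet_Ioc (Eventually.of_forall fun x hx => ?_)
      have hx0 : 0 < x := (Real.exp_pos _).trans hx.1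
      have hlog : (n : ℝ) + 1 ≤ Real.log x := by
        rw [← Real.log_exp ((n : ℝ) + 1)]
        exact Real.log_le_log (Real.exp_pos _) hx.1.le
      have hl0 : 0 < Real.log x := by linarith
      rw [← ofReal_norm, Real.norm_of_nonneg (by positivity)]
      apply ENNReal.ofReal_le_ofReal
      have g1 : Real.log x ^ (1 - ε) = Real.log x ^ 2 * (1 / Real.log x ^ (1 + ε)) := by
        rw [show (1 - ε) = 2 - (1 + ε) by ring, Real.rpow_sub hl0]
        norm_num
        ring
      have g2 : 1 / Real.log x ^ (1 + ε) ≤ 1 / ((n : ℝ) + 1) ^ (1 + ε) :=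
        one_div_le_one_div_of_le (by positivity)
          (Real.rpow_le_rpow hn.le hlog (by linarith))
      calc Real.log x ^ (1 - ε) * D x ^ 2 / x =
            (Real.log x * D x) ^ 2 / x * (1 / Real.log x ^ (1 + ε)) := by
            rw [g1]
            ring
        _ ≤ _ := mul_le_mul_of_nonneg_left g2 (by positivity)
    refine h4.trans ?_
    rw [← ofReal_integral_eq_lintegral_ofReal (i2.mul_const _) (by
      filter_upwards [ae_restrict_mem measurableSet_Ioc] with x hx
      have hx0 : 0 < x := (Real.exp_pos _).trans hx.1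
      show 0 ≤ (Real.log x * D x) ^ 2 / x * (1 / ((n : ℝ) + 1) ^ (1 + ε))
      positivity), integral_mul_const]
    apply ENNReal.ofReal_le_ofReal
    refine mul_le_mul_of_nonneg_right ?_ (by positivity)
    rw [← intervalIntegral.integral_of_le e3]
    exact h _ e1
  refine lt_of_le_of_lt h1 ?_
  have hs : Summable fun n : ℕ => M * (1 / ((n : ℝ) + 1) ^ (1 + ε)) := by
    refine Summable.mul_left M ?_
    have h5 : Summable fun n : ℕ => 1 / ((n : ℝ)) ^ (1 + ε) :=
      Real.summable_one_div_nat_rpow.2 (by linarith)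
    have h6 := (summable_nat_add_iff 1).2 h5
    refine h6.congr fun n => ?_
    push_cast
    rfl
  exact hs.tsum_ofReal_lt_top

/-- the windows do not feel `O(x^(-1/12))` -/
theorem win_close {D D' : ℝ → ℝ} (hD : BM D) (hD' : BM D') {K : ℝ}
    (hc : ∀ x : ℝ, Real.exp 1 ≤ x → |D x - D' x| ≤ K * x ^ (-(1 / 12 : ℝ))) {M : ℝ}
    (h : ∀ X : ℝ, Real.exp 1 ≤ X → wm D' X ≤ M) {X : ℝ} (hX : Real.exp 1 ≤ X) :
    wm D X ≤ 2 * M + 288 * K ^ 2 := by
  have hXX := le_eX hX
  have i1 := li_win (bm_log.mul hD).sq.li hX hXX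
  have i2 := li_win (bm_log.mul hD').sq.li hX hXX
  have i3 : IntervalIntegrable (fun x : ℝ => (1 : ℝ) / x) volume X (Real.exp 1 * X) :=
    li_win (LI.const 1) hX hXX
  have h1 : wm D X ≤ ∫ x in X..Real.exp 1 * X,
      (2 * ((Real.log x * D' x) ^ 2 / x) + 288 * K ^ 2 * (1 / x)) := by
    refine intervalIntegral.integral_mono_on hXX i1 ((i2.const_mul 2).add (i3.const_mul _))
      fun x hx => ?_
    have hxe : Real.exp 1 ≤ x := hX.trans hx.1
    have hx0 : 0 < x := (Real.exp_pos 1).trans_le hxe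
    have hl := one_le_log hxe
    have e1 := hc x hxe
    have e2 : Real.log x ≤ 12 * x ^ (1 / 12 : ℝ) := by
      have := Real.log_le_rpow_div hx0.le (by norm_num : (0 : ℝ) < 1 / 12)
      linarith
    have e3 : |Real.log x * (D x - D' x)| ≤ 12 * K := by
      rw [abs_mul, abs_of_pos (by linarith : 0 < Real.log x)]
      have e4 : x ^ (1 / 12 : ℝ) * x ^ (-(1 / 12 : ℝ)) = 1 := by
        rw [← Real.rpow_add hx0]
        norm_num
      calc Real.log x * |D x - D' x| ≤ (12 * x ^ (1 / 12 : ℝ)) * (K * x ^ (-(1 / 12 : ℝ))) :=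
            mul_le_mul e2 e1 (abs_nonneg _) (by positivity)
        _ = 12 * K * (x ^ (1 / 12 : ℝ) * x ^ (-(1 / 12 : ℝ))) := by ring
        _ = _ := by rw [e4, mul_one]
    have e5 : (Real.log x * (D x - D' x)) ^ 2 ≤ 144 * K ^ 2 := by
      rw [← sq_abs]
      calc _ ≤ (12 * K) ^ 2 := pow_le_pow_left₀ (abs_nonneg _) e3 2
        _ = _ := by ring
    have e6 : (Real.log x * D x) ^ 2 ≤ 2 * (Real.log x * D' x) ^ 2 + 288 * K ^ 2 := by
      have e7 : Real.log x * D x = Real.log x * D' x + Real.log x * (D x - D' x) := by ring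
      rw [e7]
      nlinarith [sq_nonneg (Real.log x * D' x - Real.log x * (D x - D' x))]
    calc (Real.log x * D x) ^ 2 / x ≤ (2 * (Real.log x * D' x) ^ 2 + 288 * K ^ 2) / x := by
          gcongr
      _ = _ := by ring
  refine h1.trans ?_
  rw [intervalIntegral.integral_add (i2.const_mul 2) (i3.const_mul _),
    intervalIntegral.integral_const_mul, intervalIntegral.integral_const_mul, int_one_div hX]
  have := h X hX
  unfold wm at this
  linarith

end Pool.Agent.Q195.CR
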