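import Pool.Agent.TH270.MS.LocL2
import Pool.Agent.TH270.MS.Glob

/-! The logarithmic derivative near a point of the imaginary axis. -/

set_option autoImplicit false

open MeasureTheory Filter Topology Set Complex
open scoped ENNReal

namespace Pool.Agent.Q195.CR

open Pool.Agent.TH270.MS Pool.Agent.TH270.MS.LocL2

/-- the constant -/
noncomputable def c1 (r R' : ℝ) : ℝ :=
  2 * ((R' + r) / 2) / (R' - (R' + r) / 2) / ((R' - r) / 2)

lemma c1_nonneg {r R' : ℝ} (hr : 0 < r) (h : r < R') : 0 ≤ c1 r R' := by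
  unfold c1
  have h1 : 0 < R' - (R' + r) / 2 := by linarith
  have h2 : 0 < (R' - r) / 2 := by linarith
  have h3 : 0 < R' + r := by linarith
  positivity

/-- **The logarithmic derivative in a disc.** -/
theorem disc_deriv {r R' R R₁ M m : ℝ} (hr : 0 < r) (hrR' : r < R') (hR'R : R' < R)
    (hRR₁ : R < R₁) {f : ℂ → ℂ} (hf : DifferentiableOn ℂ f (Metric.ball 0 R₁))
    (hM : ∀ s : ℂ, ‖s‖ ≤ R → ‖f s‖ ≤ M) (hm : Real.exp (-m) ≤ ‖f 0‖) :
    ∃ (n : ℕ) (ρ : Fin n → ℂ), (n : ℝ) * Real.log (R / R') ≤ Real.log M + m ∧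
      (∀ i, ‖ρ i‖ ≤ R' ∧ f (ρ i) = 0) ∧ ∀ z : ℂ, ‖z‖ ≤ r → f z ≠ 0 →
      ‖deriv f z / f z - ∑ i, (z - ρ i)⁻¹‖ ≤
        n * (R' / (R ^ 2 - R' * r)) + c1 r R' * (Real.log M + m + 1) := by
  have hR'0 : 0 < R' := by linarith
  have hR0 : 0 < R := by linarith
  have hRC : (R : ℂ) ≠ 0 := by exact_mod_cast hR0.ne'
  have hfpos : 0 < ‖f 0‖ := (Real.exp_pos _).trans_le hm
  have hf0' : f 0 ≠ 0 := norm_pos_iff.1 hfpos
  obtain ⟨n, ρ, g, hn, hρ, hg, hg0, hgM, hg00, hfac⟩ := factor hR'0 hR'R hRR₁ hf hM hf0'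
  have hlogf : -m ≤ Real.log ‖f 0‖ := by
    rw [Real.le_log_iff_exp_le hfpos]
    exact hm
  have hMf : ‖f 0‖ ≤ M := hM 0 (by simpa using hR0.le)
  have hMpos : 0 < M := lt_of_lt_of_le hfpos hMf
  have hlogM : Real.log (M / ‖f 0‖) ≤ Real.log M + m := by
    rw [Real.log_div hMpos.ne' hfpos.ne']
    linarith
  have hB : 0 < Real.log M + m + 1 := by
    have h1 : Real.log ‖f 0‖ ≤ Real.log M := Real.log_le_log hfpos hMf
    linarith
  -- the logarithm of `g`
  have hsub : Metric.ball (0 : ℂ) R' ⊆ Metric.ball 0 R₁ := Metric.ball_subset_ball (by linarith)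
  obtain ⟨ℓ, hℓd, hℓ⟩ := exists_log hR'0 (hg.mono hsub)
    (fun z hz => hg0 z (mem_ball_zero_iff.1 hz).le)
  have h0b : (0 : ℂ) ∈ Metric.ball (0 : ℂ) R' := Metric.mem_ball_self hR'0
  set r₂ : ℝ := (R' + r) / 2 with hr₂
  have hr2R : r₂ < R' := by rw [hr₂]; linarith
  have hr20 : 0 < r₂ := by rw [hr₂]; linarith
  have hℓb : ∀ z : ℂ, ‖z‖ ≤ r₂ → ‖ℓ z - ℓ 0‖ ≤ 2 * r₂ / (R' - r₂) * (Real.log M + m + 1) := by
    intro z hz
    have hre2 : ∀ w ∈ Metric.ball (0 : ℂ) R', (ℓ w).re = Real.log ‖g w‖ := by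
      intro w hw
      rw [← hℓ w hw, norm_exp, Real.log_exp]
    have hz' : z ∈ Metric.ball (0 : ℂ) R' := mem_ball_zero_iff.2 (by linarith)
    have h1 := borelCaratheodory_zero (f := fun z => ℓ z - ℓ 0) (R := R') (z := z) hB
      (fun w hw => ((hℓd w hw).sub_const _).differentiableWithinAt) (by
        intro w hw
        show (ℓ w - ℓ 0).re ≤ Real.log M + m + 1
        rw [sub_re, hre2 w hw, hre2 0 h0b]
        have h2 : Real.log ‖g w‖ ≤ Real.log M :=
          Real.log_le_log (norm_pos_iff.2 (hg0 w (mem_ball_zero_iff.1 hw).le))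
            (hgM w (by linarith [mem_ball_zero_iff.1 hw]))
        have h3 : Real.log ‖f 0‖ ≤ Real.log ‖g 0‖ := Real.log_le_log hfpos hg00
        linarith) hR'0 hz' (by simp)
    refine h1.trans ?_
    have h2 : 0 < R' - ‖z‖ := by linarith
    rw [div_mul_eq_mul_div, div_le_div_iff₀ h2 (by linarith)]
    have h3 : ‖z‖ * (R' - r₂) ≤ r₂ * (R' - ‖z‖) := by nlinarith [norm_nonneg z]
    nlinarith [norm_nonneg z]
  have hℓ' : ∀ z : ℂ, ‖z‖ ≤ r → ‖deriv ℓ z‖ ≤ c1 r R' * (Real.log M + m + 1) := by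
    intro z hz
    have hε : 0 < (R' - r) / 2 := by linarith
    have hsubz : Metric.closedBall z ((R' - r) / 2) ⊆ Metric.ball 0 R' := by
      intro w hw
      rw [mem_closedBall_iff_norm] at hw
      rw [mem_ball_zero_iff]
      have h1 := norm_add_le (w - z) z
      rw [sub_add_cancel] at h1
      linarith
    have h1 := Complex.norm_deriv_le_of_forall_mem_sphere_norm_le (c := z) (f := fun w => ℓ w - ℓ 0)
      (C := 2 * r₂ / (R' - r₂) * (Real.log M + m + 1)) hε (by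
        apply DifferentiableOn.diffContOnCl
        rw [closure_ball _ hε.ne']
        intro w hw
        exact ((hℓd w (hsubz hw)).sub_const _).differentiableWithinAt) (by
        intro w hw
        refine hℓb w ?_
        rw [mem_sphere_iff_norm] at hw
        have h1 := norm_add_le (w - z) z
        rw [sub_add_cancel] at h1
        rw [hr₂]
        linarith)
    rw [deriv_sub_const] at h1
    refine h1.trans (le_of_eq ?_)
    unfold c1
    rw [← hr₂]
    ring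
  refine ⟨n, ρ, hn.trans hlogM, hρ, fun z hz hfz => ?_⟩
  have hzR : ‖z‖ < R := by linarith
  have hzR' : ‖z‖ < R' := by linarith
  -- the logarithmic derivative
  set Bf : Fin n → ℂ → ℂ := fun i s =>
    (R * (s - ρ i)) / ((R : ℂ) ^ 2 - (starRingEnd ℂ) (ρ i) * s) with hBf
  have hden : ∀ i, (R : ℂ) ^ 2 - (starRingEnd ℂ) (ρ i) * z ≠ 0 := fun i =>
    Factor.den_ne hR'0 hR'R (hρ i).1 hzR.le
  have heq : f =ᶠ[𝓝 z] fun s => (∏ i, Bf i s) * g s := by
    have : Metric.ball (0 : ℂ) R ∈ 𝓝 z := Metric.isOpen_ball.mem_nhds (mem_ball_zero_iff.2 hzR)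
    filter_upwards [this] with s hs
    exact hfac s (mem_ball_zero_iff.1 hs).le
  have hfz2 : (∏ i, Bf i z) * g z ≠ 0 := by
    have h1 := heq.self_of_nhds
    simp only at h1
    rw [← h1]
    exact hfz
  have hBz : ∀ i, Bf i z ≠ 0 := fun i =>
    (Finset.prod_ne_zero_iff.1 (left_ne_zero_of_mul hfz2)) i (Finset.mem_univ i)
  have hgz : g z ≠ 0 := right_ne_zero_of_mul hfz2
  have hzρ : ∀ i, z - ρ i ≠ 0 := by
    intro i h0
    apply hBz i
    simp only [hBf]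
    rw [h0, mul_zero, zero_div]
  have hnd : ∀ i, HasDerivAt (fun s : ℂ => (R : ℂ) * (s - ρ i)) R z := by
    intro i
    have := ((hasDerivAt_id z).sub_const (ρ i)).const_mul (R : ℂ)
    simpa using this
  have hdd : ∀ i, HasDerivAt (fun s : ℂ => (R : ℂ) ^ 2 - (starRingEnd ℂ) (ρ i) * s)
      (-(starRingEnd ℂ) (ρ i)) z := by
    intro i
    have := ((hasDerivAt_id z).const_mul ((starRingEnd ℂ) (ρ i))).const_sub ((R : ℂ) ^ 2)
    simpa using this
  have hBd : ∀ i, DifferentiableAt ℂ (Bf i) z := fun i =>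
    (hnd i).differentiableAt.div (hdd i).differentiableAt (hden i)
  have hBl : ∀ i, logDeriv (Bf i) z = (z - ρ i)⁻¹ +
      (starRingEnd ℂ) (ρ i) / ((R : ℂ) ^ 2 - (starRingEnd ℂ) (ρ i) * z) := by
    intro i
    simp only [hBf]
    rw [logDeriv_div (f := fun s : ℂ => (R : ℂ) * (s - ρ i))
      (g := fun s : ℂ => (R : ℂ) ^ 2 - (starRingEnd ℂ) (ρ i) * s) z (mul_ne_zero hRC (hzρ i))
      (hden i) (hnd i).differentiableAt
      (hdd i).differentiableAt, logDeriv_apply, logDeriv_apply, (hnd i).deriv, (hdd i).deriv]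
    have h1 := hzρ i
    have h2 := hden i
    rw [neg_div, sub_neg_eq_add]
    congr 1
    field_simp
  have hgd : DifferentiableAt ℂ g z :=
    hg.differentiableAt (Metric.isOpen_ball.mem_nhds (mem_ball_zero_iff.2 (by linarith)))
  have hgl : logDeriv g z = deriv ℓ z := by
    have h1 : g =ᶠ[𝓝 z] fun s => exp (ℓ s) := by
      have : Metric.ball (0 : ℂ) R' ∈ 𝓝 z := Metric.isOpen_ball.mem_nhds (mem_ball_zero_iff.2 hzR')
      filter_upwards [this] with s hs
      exact (hℓ s hs).symm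
    have h2 := (hℓd z (mem_ball_zero_iff.2 hzR')).hasDerivAt.cexp
    rw [logDeriv_apply, h1.deriv_eq, h2.deriv, h1.self_of_nhds]
    field_simp
  have hl : deriv f z / f z = (∑ i, ((z - ρ i)⁻¹ +
      (starRingEnd ℂ) (ρ i) / ((R : ℂ) ^ 2 - (starRingEnd ℂ) (ρ i) * z))) + deriv ℓ z := by
    rw [heq.deriv_eq, heq.self_of_nhds, ← logDeriv_apply,
      logDeriv_mul z (left_ne_zero_of_mul hfz2) hgz
        (DifferentiableAt.fun_finsetProd fun i _ => hBd i) hgd, hgl,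
      logDeriv_prod (fun i _ => hBz i) fun i _ => hBd i]
    simp only [hBl]
  rw [hl, Finset.sum_add_distrib]
  have e1 : (∑ i, (z - ρ i)⁻¹) + (∑ i, (starRingEnd ℂ) (ρ i) /
      ((R : ℂ) ^ 2 - (starRingEnd ℂ) (ρ i) * z)) + deriv ℓ z - ∑ i, (z - ρ i)⁻¹ =
      (∑ i, (starRingEnd ℂ) (ρ i) / ((R : ℂ) ^ 2 - (starRingEnd ℂ) (ρ i) * z)) + deriv ℓ z := by
    ring
  rw [e1]
  refine (norm_add_le _ _).trans (add_le_add ?_ (hℓ' z hz))
  refine (norm_sum_le _ _).trans ?_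
  have e2 : ∀ i ∈ Finset.univ, ‖(starRingEnd ℂ) (ρ i) /
      ((R : ℂ) ^ 2 - (starRingEnd ℂ) (ρ i) * z)‖ ≤ R' / (R ^ 2 - R' * r) := by
    intro i _
    rw [norm_div, RCLike.norm_conj]
    have h1 : 0 < R ^ 2 - R' * r := by nlinarith
    have h2 : R ^ 2 - R' * r ≤ ‖(R : ℂ) ^ 2 - (starRingEnd ℂ) (ρ i) * z‖ := by
      have h3 := norm_sub_norm_le ((R : ℂ) ^ 2) ((starRingEnd ℂ) (ρ i) * z)
      rw [norm_pow, Complex.norm_real, Real.norm_of_nonneg hR0.le, norm_mul,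
        RCLike.norm_conj] at h3
      have h4 : ‖ρ i‖ * ‖z‖ ≤ R' * r := mul_le_mul (hρ i).1 hz (norm_nonneg _) hR'0.le
      linarith
    exact div_le_div₀ hR'0.le (hρ i).1 h1 h2
  refine (Finset.sum_le_sum e2).trans (le_of_eq ?_)
  rw [Finset.sum_const, Finset.card_univ, Fintype.card_fin, nsmul_eq_mul]

end Pool.Agent.Q195.CR
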